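import Pool.Agent.Lib.MP_7903c7_al.C0.Defs
import Pool.Agent.Lib.MP_7903c7_al.RF.Abc

set_option autoImplicit false

namespace Pool.Agent.Lib.MP_7903c7_al.C0

open Finset RF
open scoped Classical Pointwise

variable {G I Λ : Type} [Group G] [Fintype I] [DecidableEq I] [CommRing Λ]

namespace Abc

lemma int_congr' (d : Dat G I Λ) {A : Type} [AddCommGroup A] [Module Λ A] (M : ℕ)
    (b : ℤ → Prop) {f f' : (ℤ → G) → A}
    (hf : ∀ x, IsLoop d.g M x → amp d.E M b x ≠ 0 → f x = f' x) :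
    d.int M b f = d.int M b f' := by
  unfold Dat.int
  refine finsum_congr fun q => ?_
  by_cases h0 : amp d.E M b q.out.1 = 0
  · rw [h0, zero_smul, zero_smul]
  · rw [hf _ q.out.2 h0]

lemma eps_eq {P : Type} (y : List P →₀ Λ) (hy : ∀ l ∈ y.support, l.length = 1) :
    eps P Λ y = y.sum fun _ c => c := by
  unfold eps
  rw [Finsupp.linearCombination_apply]
  exact Finsupp.sum_congr fun l hl => by rw [if_pos (hy l hl), smul_eq_mul, mul_one]

omit [Group G] in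
lemma lst_ne (D : ℕ) (Γ : ℤ → G) : lst D Γ ≠ [] := by
  intro h0
  have := lst_length D Γ
  rw [h0] at this
  simp at this

variable {d : Dat G I Λ} {P : Type} {Ψ : List (ℤ → G) → (List P →₀ Λ)} {N : ℕ}

lemma phi_face (hN : 0 < N)
    (hC : ∀ l : List (ℤ → G), (∀ γ ∈ l, IsLoop d.g N γ) → ∀ c ∈ d.C,
      Ψ (l.map fun γ t => c * γ t) = Ψ l)
    {D m j : ℕ} {A : Set (ℕ → ℤ)} (hA : Cell N (D + 1) m A) (hj : j ≤ D + 1)
    (hdel : ∀ Γ, IsLoop d.g (N * (D + 1 + 1)) Γ →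
      amp d.E (N * (D + 1 + 1)) (pat (D + 1) A) Γ ≠ 0 → Ψ ((lst (D + 1) Γ).eraseIdx j) =
        Finsupp.mapDomain (fun l' => l'.eraseIdx j) (Ψ (lst (D + 1) Γ))) :
    Finsupp.mapDomain (fun l => l.eraseIdx j) (Phi d Ψ N (D + 1) A) =
      Phi d Ψ N D (pull (face (D + 1) j) A) := by
  have h1 := int_map d (Finsupp.lmapDomain Λ Λ fun l : List P => l.eraseIdx j)
    (M := N * (D + 1 + 1)) (by positivity) (pat (D + 1) A) fun Γ => Ψ (lst (D + 1) Γ)
  have h2 := int_contract d (N * (D + 1 + 1)) (N * (D + 1)) (by positivity) (skip D j)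
    (skip_mono D j) (skip_per D j N) (pat (D + 1) A) (pat_per hA) (fun Γ => Ψ (lst D Γ))
    (fun x hx c hc => by rw [lst_mul, hC _ (lst_loop hx) c hc])
  unfold Phi
  rw [← int_congr d _ (pat_skip (j := j) fun τ hτ => hA.traj hτ) fun _ _ => rfl, ← h2]
  refine h1.trans (int_congr' d _ _ fun x hx h0 => ?_)
  rw [lst_skip hj, hdel x hx h0]
  rfl

lemma phi_sh (hN : 0 < N) {T : P → P}
    (hC : ∀ l : List (ℤ → G), (∀ γ ∈ l, IsLoop d.g N γ) → ∀ c ∈ d.C,
      Ψ (l.map fun γ t => c * γ t) = Ψ l)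
    {D m : ℕ} {A : Set (ℕ → ℤ)} (hA : Cell N D m A)
    (hsh : ∀ Γ, IsLoop d.g (N * (D + 1)) Γ → amp d.E (N * (D + 1)) (pat D A) Γ ≠ 0 →
      Ψ ((lst D Γ).map fun γ t => γ (t - 1)) = Finsupp.mapDomain (List.map T) (Ψ (lst D Γ))) :
    tm Λ T (Phi d Ψ N D A) = Phi d Ψ N D (sh A) := by
  have h1 := int_map d (tm Λ T) (M := N * (D + 1)) (by positivity) (pat D A)
    fun Γ => Ψ (lst D Γ)
  have h2 := int_contract d (N * (D + 1)) (N * (D + 1)) (by positivity)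
    (fun s => s - (D + 1 : ℕ)) (fun a b h => by simpa using h) (fun i => by ring) (pat D A)
    (pat_per hA) (fun Γ => Ψ (lst D Γ))
    (fun x hx c hc => by rw [lst_mul, hC _ (lst_loop hx) c hc])
  unfold Phi
  rw [← int_congr d _ (pat_sh D A) fun _ _ => rfl, ← h2]
  refine h1.trans (int_congr' d _ _ fun x hx h0 => ?_)
  rw [lst_sh, hsh x hx h0]
  rfl

lemma phi_pt (hN : 0 < N) (hmass : Cell N 0 1 (per N {fun _ => 0}) → ∀ Γ,
      IsLoop d.g (N * (0 + 1)) Γ → amp d.E (N * (0 + 1)) (pat 0 (per N {fun _ => 0})) Γ ≠ 0 →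
      eps P Λ (Ψ (lst 0 Γ)) = 1) :
    eps P Λ (Phi d Ψ N 0 (per N {fun _ => 0})) =
      (d.C.relIndex (Subgroup.centralizer {d.g}) : Λ) * d.tr := by
  have hA : Cell N 0 1 (per N {fun _ => 0}) :=
    ⟨_, singleton_nonempty _, by simp, fun τ hτ => by
      rw [mem_singleton.mp hτ]
      exact ⟨monotone_const, fun _ => rfl, fun _ => by simp⟩, rfl⟩
  have h1 := int_map d (eps P Λ) (M := N * (0 + 1)) (by positivity)
    (pat 0 (per N {fun _ => 0})) fun Γ => Ψ (lst 0 Γ)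
  have h2 := int_contract d (N * (0 + 1)) 1 one_pos (fun i => i * N)
    (fun a b h => mul_lt_mul_of_pos_right h (by exact_mod_cast hN)) (fun i => by push_cast; ring)
    (pat 0 (per N {fun _ => 0})) (pat_per hA) (fun _ => (1 : Λ)) (fun _ _ _ _ => rfl)
  unfold Phi
  rw [h1, ← int_one, ← int_congr d 1 (fun i => iff_true_intro (pat_pt hN i)) fun _ _ => rfl, ← h2]
  exact int_congr' d _ _ (hmass hA)

end Abc

open Abc in
theorem abc' (d : Dat G I Λ) (S : Finset G) (h1 : (1 : G) ∈ S) {p J : ℕ} (hp : p.Prime)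
    (hJ : (p : Λ) ^ J = 0)
    (hfil : ∀ h j, h ∉ (S : Set G) ^ (2 * j + 1) →
      ∀ i i', ∃ y, d.E h i i' = (p : Λ) ^ (j + 1) * y)
    (N : ℕ) (hN0 : 0 < N) (hN : (N : Λ) = 0) {P ι : Type} (T : P → P) (hT : ∀ v, T^[N] v = v)
    (s : Finset ι) (a : ι → ℕ) (w : ι → P → ℤ) (F : ι → P → ℂ)
    (hw : ∀ i ∈ s, ∀ v, ¬ (p : ℤ) ^ (a i + 1) ∣ w i v)
    (hwT : ∀ i ∈ s, ∀ v, w i (T v) = w i v)
    (hF : ∀ i ∈ s, ∀ v, F i (T v) = ee ((w i v : ℝ) / N) * F i v)
    (Ψ : List (ℤ → G) → (List P →₀ Λ))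
    (hC : ∀ l : List (ℤ → G), (∀ γ ∈ l, IsLoop d.g N γ) → ∀ c ∈ d.C,
      Ψ (l.map fun γ t => c * γ t) = Ψ l)
    (hlen : ∀ l : List (ℤ → G), (∀ γ ∈ l, IsLoop d.g N γ) →
      ∀ l' ∈ (Ψ l).support, l'.length = l.length)
    (hgood : ∀ l : List (ℤ → G), l ≠ [] →
      (∀ γ ∈ l, Good d.g S N (2 * J + (4 * s.card + 1)) γ) →
      (∀ γ ∈ l, ∀ γ' ∈ l, Near N (4 * s.card + 1) γ γ') →
      Ψ (l.map fun γ t => γ (t - 1)) = Finsupp.mapDomain (List.map T) (Ψ l) ∧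
      (∀ j < l.length, 2 ≤ l.length →
        Ψ (l.eraseIdx j) = Finsupp.mapDomain (fun l' => l'.eraseIdx j) (Ψ l)) ∧
      ((Ψ l).sum fun _ c => c) = 1 ∧
      ∀ l' ∈ (Ψ l).support, ∃ i ∈ s, ∀ v ∈ l', ∀ v' ∈ l',
        w i v = w i v' ∧ 0 < (F i v * (starRingEnd ℂ) (F i v')).re) :
    (p : Λ) ^ (∑ i ∈ s, a i) *
      ((d.C.relIndex (Subgroup.centralizer {d.g}) : Λ) * d.tr) = 0 := by
  have key := fun (D m : ℕ) (A : Set (ℕ → ℤ)) (Γ : ℤ → G) (hA : Cell N D m A)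
      (hm : m ≤ 4 * s.card + 1) (h3 : IsLoop d.g (N * (D + 1)) Γ)
      (h4 : amp d.E (N * (D + 1)) (pat D A) Γ ≠ 0) =>
    (amp_len d.E S h1 hJ hfil d.g _ _ (by positivity) _ (pat_per hA) ((pat_card hA).trans hm) Γ
      h3 h4).elim fun h6 h7 => h7.elim fun _ h7 =>
        hgood _ (lst_ne D Γ) (lst_good h3 h7) (lst_near h6 ((pat_card hA).trans hm))
  obtain ⟨c, c0, cs, cD⟩ := hfp N hN0
  let Φ : ℕ → (Set (ℕ → ℤ) →₀ ℤ) →ₗ[ℤ] (List P →₀ Λ) := fun D =>
    Finsupp.linearCombination ℤ (Phi d Ψ N D)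
  have Φ1 : ∀ D A, Φ D (Finsupp.single A 1) = Phi d Ψ N D A := fun D A => by
    simp only [Φ, Finsupp.linearCombination_single, one_smul]
  have hsup : ∀ j, ∀ l ∈ (Φ j (c j)).support, ∃ A Γ, Cell N j (2 * j + 1) A ∧
      IsLoop d.g (N * (j + 1)) Γ ∧ amp d.E (N * (j + 1)) (pat j A) Γ ≠ 0 ∧
      l ∈ (Ψ (lst j Γ)).support := by
    intro j l hl
    simp only [Φ, Finsupp.linearCombination_apply] at hl
    obtain ⟨A, hA, hl'⟩ := mem_biUnion.mp (Finsupp.support_sum hl)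
    obtain ⟨Γ, h2, h3, h4⟩ := int_supp d (by positivity) _ _ (Finsupp.support_smul hl')
    exact ⟨A, Γ, cs j A hA, h2, h3, h4⟩
  have hplen : ∀ D A, ∀ l ∈ (Phi d Ψ N D A).support, l.length = D + 1 := by
    intro D A l hl
    obtain ⟨Γ, h2, -, h4⟩ := int_supp d (by positivity) _ _ hl
    rw [hlen _ (lst_loop h2) l h4, lst_length]
  have hpow : ∀ D m, m ≤ 4 * s.card + 1 → ∀ r A, Cell N D m A →
      Φ D ((shm ^ r) (Finsupp.single A 1)) = (tm Λ T ^ r) (Phi d Ψ N D A) := by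
    intro D m hm r
    induction r with
    | zero => intro A _; simpa using Φ1 D A
    | succ r ih =>
      intro A hA
      rw [pow_succ, pow_succ, Module.End.mul_apply, Module.End.mul_apply,
        Abc.phi_sh hN0 hC hA fun Γ h3 h4 => (key D m A Γ hA hm h3 h4).1, ← ih _ hA.sh]
      simp only [shm, Finsupp.lmapDomain_apply, Finsupp.mapDomain_single]
  rw [← Abc.phi_pt (Ψ := Ψ) hN0 fun hA Γ h3 h4 => (eps_eq _ fun l hl => by
    rw [hlen _ (lst_loop h3) l hl, lst_length]).trans (key 0 1 _ Γ hA (by omega) h3 h4).2.2.1,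
    ← Φ1, ← c0]
  refine cut T N hN0 hT hN hp hJ s a w F hw hwT hF (fun j => Φ j (c j)) ?_ ?_ ?_
  · intro j _ l hl
    obtain ⟨A, Γ, -, h2, -, h4⟩ := hsup j l hl
    rw [hlen _ (lst_loop h2) l h4, lst_length]
  · intro j hj
    have e1 : bd P Λ (Φ (j + 1) (c (j + 1))) = Φ j (cbd (j + 1) (c (j + 1))) := by
      refine lin_eq ((bd P Λ).toAddMonoidHom.comp (Φ (j + 1)).toAddMonoidHom)
        ((Φ j).toAddMonoidHom.comp (cbd (j + 1)).toAddMonoidHom) fun A hA => ?_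
      simp only [AddMonoidHom.comp_apply, LinearMap.toAddMonoidHom_coe, Φ1]
      rw [bd_eq (n := j + 1 + 1) (by omega) _ (hplen _ _)]
      simp only [cbd, LinearMap.sum_apply, LinearMap.smul_apply, map_sum, map_zsmul,
        Finsupp.lmapDomain_apply, Finsupp.mapDomain_single, Φ1]
      refine sum_congr rfl fun i hi => ?_
      have hi' := mem_range.mp hi
      rw [Abc.phi_face hN0 hC (cs _ A hA) (by omega) fun Γ h3 h4 =>
          (key _ _ A Γ (cs _ A hA) (by omega) h3 h4).2.1 i (by rw [lst_length]; omega)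
            (by rw [lst_length]; omega),
        ← Int.cast_smul_eq_zsmul Λ]
      simp
    have e2 : Φ j (dd shm N (j + 1) (c j)) = dd (tm Λ T) N (j + 1) (Φ j (c j)) := by
      refine lin_eq ((Φ j).toAddMonoidHom.comp (dd shm N (j + 1)).toAddMonoidHom)
        ((dd (tm Λ T) N (j + 1)).toAddMonoidHom.comp (Φ j).toAddMonoidHom) fun A hA => ?_
      simp only [AddMonoidHom.comp_apply, LinearMap.toAddMonoidHom_coe, Φ1]
      unfold dd
      split_ifs
      · simp only [LinearMap.sum_apply, map_sum]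
        exact sum_congr rfl fun r _ => hpow _ _ (by omega) r A (cs _ A hA)
      · have := hpow _ _ (by omega) 1 A (cs _ A hA)
        rw [pow_one, pow_one] at this
        simp only [LinearMap.sub_apply, map_sub, Module.End.one_apply, this, Φ1]
    rw [e1, cD, map_zsmul, e2, ← Int.cast_smul_eq_zsmul Λ]
    simp
  · intro j hj l hl
    obtain ⟨A, Γ, h2, h3, h4, h5⟩ := hsup j l hl
    exact (key _ _ A Γ h2 (by omega) h3 h4).2.2.2 l h5

end Pool.Agent.Lib.MP_7903c7_al.C0
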