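import Pool.Agent.Lib.MP_7903c7_al.C0.Push
import Pool.Agent.Lib.MP_7903c7_al.C0.Abc

set_option autoImplicit false

/-!
Assembly: an invariant mean on labelings and a cover for every good labeling kill the trace.
-/

namespace Pool.Agent.Lib.MP_7903c7_al.C0

open Finset RF
open scoped Classical Pointwise

namespace Asm

theorem ee_pow (w : ℤ) {N : ℕ} (hN : 0 < N) : ee ((w : ℝ) / N) ^ N = 1 := by
  have hN' : (N : ℂ) ≠ 0 := by exact_mod_cast hN.ne'
  rw [ee, ← Complex.exp_nat_mul, ← Complex.exp_int_mul_two_pi_mul_I w]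
  congr 1
  push_cast
  field_simp

/-- Tables of weights prime to `p` and values. -/
def Tab (ι : Type) (p : ℕ) : Type := {v : ι → ℤ × ℂ // ∀ i, ¬ (p : ℤ) ∣ (v i).1}

/-- The rotation of a table. -/
noncomputable def rot {ι : Type} {p : ℕ} (N : ℕ) (v : Tab ι p) : Tab ι p :=
  ⟨fun i => ((v.1 i).1, ee (((v.1 i).1 : ℝ) / N) * (v.1 i).2), v.2⟩

theorem rot_iter {ι : Type} {p : ℕ} (N n : ℕ) (v : Tab ι p) (i : ι) :
    ((rot N)^[n] v).1 i = ((v.1 i).1, ee (((v.1 i).1 : ℝ) / N) ^ n * (v.1 i).2) := by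
  induction n with
  | zero => simp
  | succ n ih =>
    rw [Function.iterate_succ_apply']
    show ((((rot N)^[n] v).1 i).1, ee (((((rot N)^[n] v).1 i).1 : ℝ) / N) *
      (((rot N)^[n] v).1 i).2) = _
    rw [ih, pow_succ', mul_assoc]

theorem rot_period {ι : Type} {p N : ℕ} (hN : 0 < N) (v : Tab ι p) : (rot N)^[N] v = v :=
  Subtype.ext (funext fun i => by rw [rot_iter, ee_pow _ hN, one_mul])

variable {G : Type} [Group G] {g : G} {S : Finset G} {N L : ℕ}

theorem loop_zpow {γ : ℤ → G} (h : IsLoop g N γ) (t j : ℤ) : γ (t + j * N) = g ^ j * γ t := by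
  induction j using Int.induction_on with
  | zero => simp
  | succ j ih => rw [add_mul, one_mul, ← add_assoc, h, ih, ← mul_assoc, ← zpow_one_add, add_comm]
  | pred j ih =>
    have := h (t + (-(j : ℤ) - 1) * N)
    rw [show t + (-(j : ℤ) - 1) * N + N = t + -(j : ℤ) * N by ring, ih] at this
    rw [eq_inv_mul_of_mul_eq this.symm, ← mul_assoc, sub_eq_neg_add, zpow_add, zpow_neg_one]

theorem step (h1 : (1 : G) ∈ S) {γ : ℤ → G} (h : Good g S N L γ) {t t' : ℤ} (htt : t ≤ t')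
    (ht : t' ≤ t + N) : (γ t)⁻¹ * γ t' ∈ (S : Set G) ^ L := by
  obtain ⟨-, ℓ, hp, hs, hl⟩ := h
  refine Set.pow_subset_pow_right (mem_coe.2 h1) ?_ (len_path hs htt)
  exact (sum_le_sum_of_subset (Ico_subset_Ico le_rfl ht)).trans
    ((sum_window_le N N le_rfl ℓ hp t).trans hl)

theorem reach (h1 : (1 : G) ∈ S) {m : ℕ} (hm : m < N) {γ0 γ : ℤ → G} (h0 : Good g S N L γ0)
    (h : Good g S N L γ) (hn : Near N m γ0 γ) (t : ℤ) :
    ∃ j : ℤ, ∃ u ∈ (S : Set G) ^ (2 * L), γ t = g ^ j * (γ0 0 * u) := by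
  obtain ⟨t1, ht1, he⟩ : ∃ t1 ∈ range N, γ0 t1 = γ t1 := by
    by_contra hc
    push Not at hc
    have : ((range N).filter fun t : ℕ => γ0 t ≠ γ t) = range N := filter_true_of_mem hc
    unfold Near at hn
    rw [this, card_range] at hn
    omega
  have hN : (0 : ℤ) < N := by omega
  have k1 := Int.emod_nonneg (t - t1) hN.ne'
  have k2 := Int.emod_lt_of_pos (t - t1) hN
  have k3 := Int.emod_add_mul_ediv (t - t1) N
  have k4 := mem_range.1 ht1
  refine ⟨(t - t1) / N, _, two_mul L ▸ pow_add (S : Set G) L L ▸ Set.mul_mem_mul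
    (step h1 h0 (t := 0) (t' := t1) (by omega) (by omega))
    (step h1 h (t := t1) (t' := t1 + (t - t1) % N) (by omega) (by omega)), ?_⟩
  rw [he, mul_assoc, mul_inv_cancel_left, mul_inv_cancel_left, ← loop_zpow h.1]
  congr 1
  linarith [mul_comm (N : ℤ) ((t - t1) / N)]

end Asm

open Asm

variable {G I Λ : Type} [Group G] [Fintype I] [DecidableEq I] [CommRing Λ]

theorem asm (d : Dat G I Λ) (hC : d.C = Subgroup.centralizer {d.g}) (S : Finset G)
    (h1 : (1 : G) ∈ S) {p : ℕ} (hp : p.Prime) (hΛ : (p : Λ) = 0) (hE : ∀ h, h ∉ S → d.E h = 0)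
    (N L : ℕ) (hN : (N : Λ) = 0) {K Ω ι : Type} [Finite Ω] (see : K → G → Prop)
    (act : G → Equiv.Perm K) (hg : ∀ κ y, see κ (d.g * y) ↔ see κ y)
    (hact : ∀ c ∈ d.C, ∀ κ y, see (act c κ) (c * y) ↔ see κ y) (ball : G → Finset K)
    (hball : ∀ y κ, κ ∈ ball y ↔ ∃ u ∈ (S : Set G) ^ (2 * L), see κ (y * u))
    (ψ : Set (K → Ω) → Λ)
    (hψ : Mean {A | ∃ y, y⁻¹ * d.g * y ∈ S ^ L ∧ A = ball y} (act '' (d.C : Set G)) ψ)
    (Bad : G → Set (K → Ω))
    (hnull : ∀ y, y⁻¹ * d.g * y ∈ S ^ L → ∀ s, Dep (ball y) s →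
      (∀ x ∈ s, ∃ z, (∀ κ, see κ z → κ ∈ ball y) ∧ x ∈ Bad z) → ψ s = 0)
    (s : Finset ι) (w : ι → (K → Ω) → (ℤ → G) → ℤ) (F : ι → (K → Ω) → (ℤ → G) → ℂ)
    (hL : 4 * s.card + 3 ≤ L) (hLN : L ≤ N)
    (hw : ∀ i ∈ s, ∀ x γ, ¬ (p : ℤ) ∣ w i x γ)
    (hc : ∀ i ∈ s, ∀ x γ, IsLoop d.g N γ → ∀ c ∈ d.C,
      w i x (fun t => c * γ t) = w i (x ∘ act c) γ ∧ F i x (fun t => c * γ t) = F i (x ∘ act c) γ)
    (hT : ∀ i ∈ s, ∀ x γ, IsLoop d.g N γ → w i x (fun t => γ (t - 1)) = w i x γ ∧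
      F i x (fun t => γ (t - 1)) = ee ((w i x γ : ℝ) / N) * F i x γ)
    (hloc : ∀ i ∈ s, ∀ x x' γ, Good d.g S N L γ → (∀ κ t, see κ (γ t) → x κ = x' κ) →
      w i x γ = w i x' γ ∧ F i x γ = F i x' γ)
    (hcov : ∀ x γ, Good d.g S N L γ → (∀ t, x ∉ Bad (γ t)) →
      ∃ i ∈ s, Fine d.g S N L (4 * s.card + 1) (w i x) (F i x) γ) :
    d.tr = 0 := by
  have hN0 : 0 < N := by omega
  have hmap : ∀ c ∈ d.C, ∀ y, ball (c * y) = (ball y).map (act c).toEmbedding := by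
    intro c hc y
    ext κ
    obtain ⟨κ, rfl⟩ := (act c).surjective κ
    rw [mem_map_equiv, Equiv.symm_apply_apply, hball, hball]
    simp only [mul_assoc, hact c hc]
  have hconj : ∀ c ∈ d.C, ∀ y, (c * y)⁻¹ * d.g * (c * y) = y⁻¹ * d.g * y := by
    intro c hc y
    rw [mul_assoc, ← mul_assoc d.g, ← d.comm c hc]
    group
  obtain ⟨Pu, P1, P2, P3⟩ := exists_push _ _ ψ hψ
    (by
      rintro _ ⟨y, hy, rfl⟩ _ ⟨c, hc, rfl⟩
      exact ⟨c * y, by rwa [hconj c hc], (hmap c hc y).symm⟩)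
    (by
      rintro _ ⟨y, hy, rfl⟩ _ ⟨c, hc, rfl⟩
      refine ⟨_, ⟨c⁻¹ * y, by rwa [hconj _ (d.C.inv_mem hc)], rfl⟩, ?_⟩
      rw [← hmap c hc, mul_inv_cancel_left])
    (List (Tab ι p))
  let val : (K → Ω) → (ℤ → G) → Tab ι p := fun x γ =>
    ⟨fun i => if i ∈ s then (w i x γ, F i x γ) else (1, 0), fun i => by
      beta_reduce
      split_ifs with h
      · exact hw i h x γ
      · exact fun h' => hp.one_lt.ne' (by exact_mod_cast Int.eq_one_of_dvd_one (by positivity) h')⟩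
  have hval : ∀ i ∈ s, ∀ x γ, (val x γ).1 i = (w i x γ, F i x γ) := fun i hi x γ => if_pos hi
  have hval' : ∀ i, i ∉ s → ∀ x γ, (val x γ).1 i = (1, 0) := fun i hi x γ => if_neg hi
  have hzp : ∀ κ (j : ℤ) y, see κ (d.g ^ j * y) ↔ see κ y := fun κ j y => by
    induction j using Int.induction_on with
    | zero => simp
    | succ j ih => rw [add_comm, zpow_one_add, mul_assoc, hg, ih]
    | pred j ih =>
      rw [← hg, ← mul_assoc, ← zpow_one_add, show 1 + (-(j : ℤ) - 1) = -(j : ℤ) by ring, ih]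
  have key := abc' d S h1 (J := 1) hp (by rw [pow_one, hΛ])
    (fun h j hh i i' => ⟨0, by
      rw [hE h fun hS => hh (Set.subset_pow (mem_coe.2 h1) (by omega) (mem_coe.2 hS))]
      simp⟩)
    N hN0 hN (rot N) (rot_period hN0) s (fun _ => 0) (fun i v => (v.1 i).1) (fun i v => (v.1 i).2)
    (fun i _ v => by simpa using v.2 i) (fun _ _ _ => rfl) (fun _ _ _ => rfl)
    (fun l => Pu fun x => l.map (val x)) (fun l hl c hc' => ?_) (fun l _ l' hl' => ?_)
    (fun l hne hG hn => ?_)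
  · rw [hC, Subgroup.relIndex_self] at key
    simpa using key
  · rw [← P1 (fun x => l.map (val x)) _ ⟨c, hc', rfl⟩]
    congr 1
    funext x
    rw [List.map_map]
    refine List.map_congr_left fun γ hγ => Subtype.ext (funext fun i => ?_)
    by_cases hi : i ∈ s
    · rw [Function.comp_apply, hval i hi, hval i hi, (hc i hi x γ (hl γ hγ) c hc').1,
        (hc i hi x γ (hl γ hγ) c hc').2]
    · rw [Function.comp_apply, hval' i hi, hval' i hi]
  · obtain ⟨x, rfl⟩ := P2 _ l' hl'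
    rw [List.length_map]
  · have good : ∀ γ ∈ l, Good d.g S N L γ := fun γ hγ => by
      obtain ⟨k1, ℓ, k2, k3, k4⟩ := hG γ hγ
      exact ⟨k1, ℓ, k2, k3, k4.trans (by omega)⟩
    obtain ⟨γ0, h0⟩ := List.exists_mem_of_ne_nil l hne
    have hy : (γ0 0)⁻¹ * d.g * γ0 0 ∈ S ^ L := by
      have := step h1 (good γ0 h0) (t := 0) (t' := 0 + N) (by omega) le_rfl
      rwa [(good γ0 h0).1, ← mul_assoc, ← coe_pow, mem_coe] at this
    have hsee : ∀ γ ∈ l, ∀ κ t, see κ (γ t) → κ ∈ ball (γ0 0) := fun γ hγ κ t h => by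
      obtain ⟨j, u, hu, he⟩ := reach h1 (by omega) (good γ0 h0) (good γ hγ) (hn γ0 h0 γ hγ) t
      rw [he, hzp] at h
      exact (hball _ _).2 ⟨u, hu, h⟩
    have hdep : DepF (ball (γ0 0)) fun x => l.map (val x) := fun x x' hx =>
      List.map_congr_left fun γ hγ => Subtype.ext (funext fun i => by
        by_cases hi : i ∈ s
        · have := hloc i hi x x' γ (good γ hγ) fun κ t h => hx κ (hsee γ hγ κ t h)
          rw [hval i hi, hval i hi, this.1, this.2]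
        · rw [hval' i hi, hval' i hi])
    obtain ⟨Q1, Q2, Q3⟩ := P3 _ ⟨γ0 0, hy, rfl⟩ _ hdep
    refine ⟨?_, fun j _ _ => ?_, Q2, fun l' hl' => ?_⟩
    · rw [← Q1]
      congr 1
      funext x
      rw [List.map_map, List.map_map]
      refine List.map_congr_left fun γ hγ => Subtype.ext (funext fun i => ?_)
      show (val x fun t => γ (t - 1)).1 i =
        (((val x γ).1 i).1, ee ((((val x γ).1 i).1 : ℝ) / N) * ((val x γ).1 i).2)
      by_cases hi : i ∈ s
      · rw [hval i hi, hval i hi, (hT i hi x γ (good γ hγ).1).1, (hT i hi x γ (good γ hγ).1).2]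
      · rw [hval' i hi, hval' i hi, mul_zero]
    · rw [← Q1]
      congr 1
      funext x
      rw [List.eraseIdx_map]
    · have h2 := Finsupp.mem_support_iff.1 hl'
      rw [Q3] at h2
      have h3 := mt (hnull _ hy _ fun x x' hx hx' => (hdep x x' hx).symm.trans hx') h2
      push Not at h3
      obtain ⟨x, hx, h4⟩ := h3
      obtain ⟨i, hi, hf⟩ := hcov x γ0 (good γ0 h0) fun t => h4 _ fun κ => hsee γ0 h0 κ t
      refine ⟨i, hi, fun v hv v' hv' => ?_⟩
      rw [← (hx : l.map (val x) = l')] at hv hv'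
      obtain ⟨γ, hγ, rfl⟩ := List.mem_map.1 hv
      obtain ⟨γ', hγ', rfl⟩ := List.mem_map.1 hv'
      simp only [hval i hi]
      exact hf γ γ' (good γ hγ) (good γ' hγ') (hn γ0 h0 γ hγ) (hn γ0 h0 γ' hγ')

end Pool.Agent.Lib.MP_7903c7_al.C0
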