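import Pool.Agent.Lib.MP_7903c7_al.C0.MT

set_option autoImplicit false

/-! An invariant mean that vanishes on the bad labelings. -/

namespace Pool.Agent.Lib.MP_7903c7_al.C0

open Finset RF
open scoped Classical Pointwise

variable {G : Type} [Group G]

namespace Bad

variable {K Ω : Type} {g : G} {S : Finset G} {phi : K → G → ℝ} {lab : Ω → ℝ} {θ : ℝ} {n L n0 : ℕ}

theorem move {c : G} (hc : c * g = g * c) (π : Equiv.Perm K)
    (h : ∀ κ y, phi (π κ) (c * y) = phi κ y) {x : K → Ω} {y : G}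
    (hx : x ∘ π ∈ BadSet g S phi lab θ n L n0 y) : x ∈ BadSet g S phi lab θ n L n0 (c * y) := by
  obtain ⟨γ, ℓ, t0, a, A, h1, ⟨h2, h2', h2''⟩, h3, h4, h5, h6⟩ := hx
  refine ⟨fun t => c * γ t, ℓ, t0, a, A.map π.toEmbedding, fun t => ?_,
    ⟨h2, fun t => ?_, h2''⟩, by simp only [h3], fun κ σ => ?_, fun κ hκ => ?_, by rwa [card_map]⟩
  · simp only
    rw [h1 t, ← mul_assoc, hc, mul_assoc]
  · simpa [mul_assoc] using h2' t
  · obtain ⟨κ, rfl⟩ := π.surjective κ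
    simp only [h]
    exact h4 κ σ
  · obtain ⟨κ, k, rfl⟩ := mem_map.1 hκ
    simp only [Equiv.coe_toEmbedding, h]
    exact h5 κ k

theorem move_eq {c : G} (hc : c * g = g * c) (π : Equiv.Perm K)
    (h : ∀ κ y, phi (π κ) (c * y) = phi κ y) (y : G) :
    BadSet g S phi lab θ n L n0 (c * y) = (fun x => x ∘ π) ⁻¹' BadSet g S phi lab θ n L n0 y := by
  refine Set.ext fun x => ⟨fun hx => ?_, move hc π h⟩
  have := move (S := S) (phi := phi) (lab := lab) (θ := θ) (n := n) (L := L) (n0 := n0)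
    (c := c⁻¹) (y := c * y) (x := x ∘ π) (Commute.inv_left hc) π.symm
    (fun κ y => by rw [← h, π.apply_symm_apply, mul_inv_cancel_left])
    (by rwa [Function.comp_assoc, π.self_comp_symm, Function.comp_id])
  rwa [inv_mul_cancel_left] at this

end Bad

theorem bad_mean {Ω : Type} [Fintype Ω] [Nonempty Ω] (g : G) (S : Finset G) (R Δ D : ℕ)
    (hR : 0 < R) (hD : Δ ≤ D) (X : Geo0 g S R Δ) (lab : Ω → ℝ) (θ : ℝ) (n L n0 : ℕ)
    (hp : ∀ (y : G) (E : Finset X.K), (∀ κ, κ ∈ E ↔ X.phi κ y ≠ 0) →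
      Small E (BadSet g S X.phi lab θ n L n0 y) (1 / (4 * (D : ℝ) ^ 2))) :
    ∃ φ : Set (X.K → Ω) → ℝ,
      Mean Set.univ (X.act '' (Subgroup.centralizer ({g} : Set G) : Set G)) φ ∧
      ∀ B s, Dep B s → (∀ x ∈ s, ∃ y, (∀ κ, X.phi κ y ≠ 0 → κ ∈ B) ∧
        x ∈ BadSet g S X.phi lab θ n L n0 y) → φ s = 0 := by
  choose seen hs1 hs2 using X.phi_fin
  obtain ⟨e, e1, e2⟩ : ∃ e : G → Finset X.K, (∀ y, (e y).card ≤ Δ) ∧
      ∀ y κ, κ ∈ e y ↔ X.phi κ y ≠ 0 :=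
    ⟨fun y => (seen y).filter fun κ => X.phi κ y ≠ 0,
      fun y => (card_filter_le _ _).trans (hs1 y),
      fun y κ => mem_filter.trans ⟨fun h => h.2, fun h => ⟨hs2 y κ h, h⟩⟩⟩
  have hz : ∀ c ∈ Subgroup.zpowers g, ∀ κ y, X.phi κ (c * y) = X.phi κ y := by
    rintro _ ⟨j, rfl⟩ κ
    induction j using Int.induction_on with
    | zero => simp
    | succ j ih => exact fun y => by simp only [zpow_add_one, mul_assoc, ih, X.phi_g] at ih ⊢
    | pred j ih =>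
      intro y
      simp only [zpow_sub_one, mul_assoc] at ih ⊢
      rw [ih, ← X.phi_g, mul_inv_cancel_left]
  obtain ⟨φ, h1, h2⟩ := real_mean e (BadSet g S X.phi lab θ n L n0) D
    (fun y => let ⟨κ, h⟩ := X.phi_top y; ⟨κ, (e2 y κ).2 (h ▸ Nat.cast_ne_zero.2 hR.ne')⟩)
    (fun y => (e1 y).trans hD)
    (fun v => by
      obtain ⟨Z, z1, z2⟩ := X.deg (X.cls v)
      refine ⟨Z, z1.trans hD, fun y hy => ?_⟩
      obtain ⟨c, c1, z, c2, rfl⟩ := z2 v y rfl ((e2 y v).1 hy)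
      refine ⟨z, c2, Finset.ext fun κ => by rw [e2, e2, hz c c1], ?_⟩
      obtain ⟨j, rfl⟩ := id c1
      exact Bad.move_eq (Commute.zpow_left rfl j) (Equiv.refl _) (hz _ c1) z)
    (fun y x x' hx ⟨γ, ℓ, t0, a, A, k1, k2, k3, k4, k5, k6⟩ =>
      ⟨γ, ℓ, t0, a, A, k1, k2, k3, fun κ σ k => hx κ ((e2 y κ).2 k) ▸ k4 κ σ k,
        fun κ k => hx κ ((e2 y κ).2 (k5 κ k).1) ▸ k5 κ k, k6⟩)
    fun y => hp y _ (e2 y)
  refine ⟨φ, ⟨h1.one, h1.add, ?_⟩, fun B s b1 b2 => h2 B s b1 fun x hx =>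
    (b2 x hx).imp fun y k => ⟨fun κ k' => k.1 κ ((e2 y κ).1 k'), k.2⟩⟩
  rintro B hB _ ⟨c, hc, rfl⟩
  have rel : ∀ y, Rel e (BadSet g S X.phi lab θ n L n0) (X.act c) y (c * y) := fun y =>
    ⟨Finset.ext fun κ => by
      obtain ⟨κ, rfl⟩ := (X.act c).surjective κ
      rw [e2, X.phi_act' c hc, ← e2]
      exact (mem_map' (X.act c).toEmbedding).symm,
      Bad.move_eq (Subgroup.mem_centralizer_singleton_iff.1 hc) _ (X.phi_act' c hc) y⟩
  exact h1.inv B hB _ ⟨fun y => ⟨_, rel y⟩, fun y => ⟨c⁻¹ * y, by simpa using rel (c⁻¹ * y)⟩⟩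

end Pool.Agent.Lib.MP_7903c7_al.C0
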