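import Pool.Agent.Lib.MP_7903c7_al.RF.Defs

set_option autoImplicit false

/-!
Definitions for the characteristic zero case of the Bass trace conjecture.
-/

namespace Pool.Agent.Lib.MP_7903c7_al.C0

open Finset RF
open scoped Classical Pointwise

section mean

variable {K Ω : Type}

/-- The set depends only on the coordinates in `B`. -/
def Dep (B : Finset K) (s : Set (K → Ω)) : Prop :=
  ∀ x y : K → Ω, (∀ v ∈ B, x v = y v) → x ∈ s → y ∈ s

/-- The function depends only on the coordinates in `B`. -/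
def DepF {V : Type} (B : Finset K) (f : (K → Ω) → V) : Prop :=
  ∀ x y : K → Ω, (∀ v ∈ B, x v = y v) → f x = f y

/-- The patterns of `s` on `B` are at most a proportion `q` of all patterns. -/
def Small [Fintype Ω] (B : Finset K) (s : Set (K → Ω)) (q : ℝ) : Prop :=
  ((univ.filter fun x : B → Ω => ∃ y ∈ s, ∀ v : B, y v = x v).card : ℝ) ≤
    q * Fintype.card (B → Ω)

/-- The permutation carries the event `y` to the event `y'`. -/
def Rel {Y : Type} (e : Y → Finset K) (Bad : Y → Set (K → Ω)) (π : Equiv.Perm K) (y y' : Y) :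
    Prop :=
  e y' = (e y).map π.toEmbedding ∧ Bad y' = (fun x => x ∘ π) ⁻¹' Bad y

/-- The permutation is a symmetry of the family of events. -/
def Sym {Y : Type} (e : Y → Finset K) (Bad : Y → Set (K → Ω)) (π : Equiv.Perm K) : Prop :=
  (∀ y, ∃ y', Rel e Bad π y y') ∧ ∀ y', ∃ y, Rel e Bad π y y'

/-- A normalised, additive and invariant set function on the sets that depend on a member
of `𝓐`. -/
structure Mean {Λ : Type} [Add Λ] [One Λ] (𝓐 : Set (Finset K)) (Pm : Set (Equiv.Perm K))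
    (φ : Set (K → Ω) → Λ) : Prop where
  one : φ Set.univ = 1
  add : ∀ B ∈ 𝓐, ∀ s t, Dep B s → Dep B t → Disjoint s t → φ (s ∪ t) = φ s + φ t
  inv : ∀ B ∈ 𝓐, ∀ π ∈ Pm, ∀ s, Dep B s → φ ((fun x => x ∘ π) ⁻¹' s) = φ s

end mean

variable {G : Type} [Group G]

/-- The components are the cosets of the cyclic group, the centraliser permutes them. -/
structure Geo0 (g : G) (S : Finset G) (R Δ : ℕ) extends
    Geo g (Subgroup.zpowers g) S R 0 Δ 1 where
  phi_act' : ∀ c ∈ Subgroup.centralizer ({g} : Set G), ∀ κ y, phi (act c κ) (c * y) = phi κ y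
  eta_act' : ∀ c ∈ Subgroup.centralizer ({g} : Set G), ∀ κ y y', phi κ y ≠ 0 → phi κ y' ≠ 0 →
    eta (act c κ) (c * y) - eta (act c κ) (c * y') = eta κ y - eta κ y'
  eta_int : ∀ κ y, ∃ n : ℤ, eta κ y = n

/-- The labelings for which the local count fails at the point `y`. -/
def BadSet {K Ω : Type} (g : G) (S : Finset G) (phi : K → G → ℝ) (lab : Ω → ℝ) (θ : ℝ)
    (n L n0 : ℕ) (y : G) : Set (K → Ω) :=
  {x | ∃ (γ : ℤ → G) (ℓ : ℤ → ℕ) (t0 : ℤ) (a : ℝ) (A : Finset K),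
    IsLoop g (L * n0) γ ∧ Len S (L * n0) L γ ℓ ∧ γ t0 = y ∧
    (∀ κ σ, phi κ y ≠ 0 → Fw n0 (n ^ 3) (fun t => phi κ (γ t)) σ + lab (x κ) ≤ a) ∧
    (∀ κ ∈ A, phi κ y ≠ 0 ∧ ∃ σ : ℤ, |σ - t0| < n ^ 3 * n0 ∧
      a - (n : ℝ) ^ 2 < Fw n0 (n ^ 3) (fun t => phi κ (γ t)) σ + lab (x κ)) ∧
    θ * ((∑ u ∈ Ico (t0 - 2 * (n ^ 3 * n0)) (t0 + 2 * (n ^ 3 * n0)), ℓ u : ℕ) + (n : ℝ) ^ 3) <
      (A.card : ℝ)}

end Pool.Agent.Lib.MP_7903c7_al.C0
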