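import Pool.Agent.Lib.MP_7903c7_al.C0.Defs

set_option autoImplicit false

/-!
Bounded denominators for invariant means.
-/

namespace Pool.Agent.Lib.MP_7903c7_al.C0

open Finset RF
open scoped Classical Pointwise

namespace Den

variable {K Ω : Type}

theorem fin_dep [Finite Ω] (B : Finset K) : {s : Set (K → Ω) | Dep B s}.Finite := by
  refine (Set.finite_range fun T : Set (B → Ω) =>
    (fun (x : K → Ω) (v : B) => x v) ⁻¹' T).subset fun s hs => ?_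
  refine ⟨(fun (x : K → Ω) (v : B) => x v) '' s, Set.ext fun x => ⟨?_, fun hx => ⟨x, hx, rfl⟩⟩⟩
  rintro ⟨y, hy, e⟩
  exact hs y x (fun v hv => congrFun e ⟨v, hv⟩) hy

theorem back {B : Finset K} {π : Equiv.Perm K} {s : Set (K → Ω)}
    (h : Dep (B.map π.toEmbedding) s) :
    ∃ s0, Dep B s0 ∧ s = (fun x : K → Ω => x ∘ π) ⁻¹' s0 := by
  refine ⟨(fun x : K → Ω => x ∘ π.symm) ⁻¹' s, fun x y hxy hx => h _ _ (fun v hv => ?_) hx, ?_⟩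
  · obtain ⟨b, hb, rfl⟩ := mem_map.1 hv
    simpa using hxy b hb
  · ext x
    simp [Function.comp_assoc]

end Den

theorem den {K Ω : Type} [Finite Ω] (𝓐 : Set (Finset K)) (Pm : Set (Equiv.Perm K))
    (𝓑 : Finset (Finset K)) (hB : ∀ B ∈ 𝓑, B ∈ 𝓐)
    (hA : ∀ A ∈ 𝓐, ∃ B ∈ 𝓑, ∃ π ∈ Pm, A = B.map π.toEmbedding) :
    ∃ n : ℕ, n ≠ 0 ∧ ∀ φ : Set (K → Ω) → ℝ, Mean 𝓐 Pm φ →
      ∀ (Λ : Type) [Field Λ], (n : Λ) ≠ 0 → ∃ ψ : Set (K → Ω) → Λ, Mean 𝓐 Pm ψ ∧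
        ∀ A ∈ 𝓐, ∀ s, Dep A s → φ s = 0 → ψ s = 0 := by
  let SS : Finset (Set (K → Ω)) := 𝓑.biUnion fun B => (Den.fin_dep B).toFinset
  have hS : ∀ A ∈ 𝓐, ∀ s, Dep A s → ∃ s0 ∈ SS, ∀ (Λ : Type) [Field Λ] (χ : Set (K → Ω) → Λ),
      Mean 𝓐 Pm χ → χ s = χ s0 := fun A hA' s hs => by
    obtain ⟨B, h1, π, h2, rfl⟩ := hA A hA'
    obtain ⟨s0, h3, rfl⟩ := Den.back hs
    exact ⟨s0, mem_biUnion.2 ⟨B, h1, (Set.Finite.mem_toFinset _).2 h3⟩,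
      fun Λ _ χ hχ => hχ.inv B (hB B h1) π h2 s0 h3⟩
  have hχ : ∀ β : Finset (Set (K → Ω)), ∃ χ : Set (K → Ω) → ℚ,
      (∃ χ' : Set (K → Ω) → ℚ, Mean 𝓐 Pm χ' ∧ ∀ s ∈ β, χ' s = 0) →
        Mean 𝓐 Pm χ ∧ ∀ s ∈ β, χ s = 0 := fun β => by
    by_cases h : ∃ χ' : Set (K → Ω) → ℚ, Mean 𝓐 Pm χ' ∧ ∀ s ∈ β, χ' s = 0
    · exact ⟨h.choose, fun _ => h.choose_spec⟩
    · exact ⟨fun _ => 0, fun h' => absurd h' h⟩
  choose χ hχ using hχ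
  refine ⟨∏ β ∈ SS.powerset, ∏ s ∈ SS, (χ β s).den,
    prod_ne_zero_iff.2 fun β _ => prod_ne_zero_iff.2 fun s _ => (χ β s).den_nz,
    fun φ hφ Λ _ hn => ?_⟩
  obtain ⟨ρ, hρ⟩ := Module.Projective.exists_dual_eq_one ℚ (one_ne_zero (α := ℝ))
  obtain ⟨h1, h2⟩ := hχ (SS.filter fun s => φ s = 0) ⟨fun s => ρ (φ s),
    ⟨by rw [hφ.one, hρ], fun B hB s t hs ht hd => by rw [hφ.add B hB s t hs ht hd, map_add],
      fun B hB π hπ s hs => by rw [hφ.inv B hB π hπ s hs]⟩,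
    fun s hs => (congrArg ρ (mem_filter.1 hs).2).trans (map_zero ρ)⟩
  have h3 : ∀ A ∈ 𝓐, ∀ s, Dep A s → ((χ (SS.filter fun s => φ s = 0) s).den : Λ) ≠ 0 :=
    fun A hA' s hs => by
      obtain ⟨s0, h4, h5⟩ := hS A hA' s hs
      rw [h5 ℚ _ h1]
      rw [Nat.cast_prod] at hn
      have := prod_ne_zero_iff.1 hn _ (mem_powerset.2 (filter_subset (fun s => φ s = 0) SS))
      rw [Nat.cast_prod] at this
      exact prod_ne_zero_iff.1 this s0 h4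
  refine ⟨fun s => (χ (SS.filter fun s => φ s = 0) s : Λ), ⟨by rw [h1.one, Rat.cast_one],
    fun B hB s t hs ht hd => by
      rw [h1.add B hB s t hs ht hd, Rat.cast_add_of_ne_zero (h3 B hB s hs) (h3 B hB t ht)],
    fun B hB π hπ s hs => by rw [h1.inv B hB π hπ s hs]⟩, fun A hA' s hs h0 => ?_⟩
  obtain ⟨s0, h4, h5⟩ := hS A hA' s hs
  show ((χ (SS.filter fun s => φ s = 0) s : ℚ) : Λ) = 0
  rw [h5 ℚ _ h1, h2 s0 (mem_filter.2 ⟨h4, (h5 ℝ φ hφ).symm.trans h0⟩), Rat.cast_zero]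

end Pool.Agent.Lib.MP_7903c7_al.C0
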