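import Mathlib

set_option autoImplicit false

/-!
Local functions of independent uniform coordinates and their expectation.
-/

namespace Pool.Agent.Lib.MP_7903c7_al.C0.MT

open Finset
open scoped Classical

/-- `f` only depends on the coordinates in `U`. -/
def Dp {I β γ : Type} (U : Finset I) (f : (I → β) → γ) : Prop :=
  ∀ ω ω', (∀ i ∈ U, ω i = ω' i) → f ω = f ω'

/-- A function of finitely many coordinates. -/
def Loc {I β γ : Type} (f : (I → β) → γ) : Prop :=
  ∃ U : Finset I, ∀ ω ω', (∀ i ∈ U, ω i = ω' i) → f ω = f ω'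

/-- Extension of a finite pattern by an arbitrary constant. -/
noncomputable def ext {I β : Type} [Nonempty β] (U : Finset I) (ψ : U → β) : I → β :=
  fun i => if h : i ∈ U then ψ ⟨i, h⟩ else Classical.arbitrary β

theorem ext_mem {I β : Type} [Nonempty β] {U : Finset I} (ψ : U → β) {i : I} (h : i ∈ U) :
    ext U ψ i = ψ ⟨i, h⟩ := by
  simp [ext, h]

theorem Dp.mono {I β γ : Type} {U U' : Finset I} {f : (I → β) → γ} (h : Dp U f)
    (hU : U ⊆ U') : Dp U' f := fun ω ω' hω => h ω ω' fun i hi => hω i (hU hi)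

theorem Dp.loc {I β γ : Type} {U : Finset I} {f : (I → β) → γ} (h : Dp U f) : Loc f := ⟨U, h⟩

theorem loc_const {I β γ : Type} (c : γ) : Loc (fun _ : I → β => c) := ⟨∅, fun _ _ _ => rfl⟩

theorem loc_coord {I β : Type} (i : I) : Loc (fun ω : I → β => ω i) :=
  ⟨{i}, fun _ _ h => h i (mem_singleton_self i)⟩

theorem Loc.of_one {I β γ δ : Type} {f : (I → β) → γ} (hf : Loc f) {g : (I → β) → δ}
    (h : ∀ ω ω', f ω = f ω' → g ω = g ω') : Loc g := by
  obtain ⟨U, hU⟩ := hf
  exact ⟨U, fun ω ω' hω => h ω ω' (hU ω ω' hω)⟩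

theorem Loc.of_two {I β γ γ' δ : Type} {f : (I → β) → γ} {f' : (I → β) → γ'} (hf : Loc f)
    (hf' : Loc f') {g : (I → β) → δ}
    (h : ∀ ω ω', f ω = f ω' → f' ω = f' ω' → g ω = g ω') : Loc g := by
  obtain ⟨U, hU⟩ := hf
  obtain ⟨U', hU'⟩ := hf'
  exact ⟨U ∪ U', fun ω ω' hω => h ω ω' (hU ω ω' fun i hi => hω i (mem_union_left _ hi))
    (hU' ω ω' fun i hi => hω i (mem_union_right _ hi))⟩

theorem Loc.of_fam {I β γ δ κ : Type} (s : Finset κ) {f : κ → (I → β) → γ}
    (hf : ∀ k ∈ s, Loc (f k)) {g : (I → β) → δ}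
    (h : ∀ ω ω', (∀ k ∈ s, f k ω = f k ω') → g ω = g ω') : Loc g := by
  choose! U hU using hf
  exact ⟨s.biUnion U, fun ω ω' hω => h ω ω' fun k hk =>
    hU k hk ω ω' fun i hi => hω i (mem_biUnion.2 ⟨k, hk, hi⟩)⟩

theorem Loc.comp_inj {I I' β γ : Type} {f : (I' → β) → γ} (hf : Loc f) (j : I' → I) :
    Loc (fun ω : I → β => f (fun i => ω (j i))) := by
  obtain ⟨U, hU⟩ := hf
  exact ⟨U.image j, fun ω ω' hω => hU _ _ fun i hi => hω _ (mem_image_of_mem j hi)⟩

section

variable {I β : Type} [Fintype β] [Nonempty β]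

/-- Average over all patterns on a finite type. -/
noncomputable def fav (J β : Type) [Fintype J] [Fintype β] (F : (J → β) → ℝ) : ℝ :=
  (∑ ψ : J → β, F ψ) / Fintype.card (J → β)

theorem fav_def (J β : Type) [Fintype J] [Fintype β] (i : Fintype (J → β)) (F : (J → β) → ℝ) :
    fav J β F = (∑ ψ ∈ @univ _ i, F ψ) / @Fintype.card (J → β) i := by
  unfold fav
  congr <;> exact Subsingleton.elim _ _

theorem card_pos' (J : Type) [Fintype J] : (0 : ℝ) < Fintype.card (J → β) := by
  exact_mod_cast Fintype.card_pos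

omit [Nonempty β] in
theorem fav_equiv {J J' : Type} [Fintype J] [Fintype J'] (e : J ≃ J') (F : (J → β) → ℝ) :
    fav J' β (fun ψ => F (fun j => ψ (e j))) = fav J β F := by
  unfold fav
  rw [Fintype.card_congr (Equiv.arrowCongr e (Equiv.refl β))]
  congr 1
  refine (Fintype.sum_equiv (Equiv.arrowCongr e (Equiv.refl β)) _ _ fun ψ => ?_).symm
  congr 1
  funext j
  simp [Equiv.arrowCongr]

omit [Nonempty β] in
theorem fav_sum {J J' : Type} [Fintype J] [Fintype J'] (F : (J → β) → ℝ) (F' : (J' → β) → ℝ) :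
    fav (J ⊕ J') β (fun ψ => F (fun j => ψ (Sum.inl j)) * F' (fun j => ψ (Sum.inr j))) =
      fav J β F * fav J' β F' := by
  rw [fav_def (J ⊕ J') β inferInstance]
  unfold fav
  rw [Fintype.card_congr (Equiv.sumArrowEquivProdArrow J J' β), Fintype.card_prod,
    div_mul_div_comm, Finset.sum_mul_sum, ← Fintype.sum_prod_type']
  push_cast
  congr 1
  exact Fintype.sum_equiv (Equiv.sumArrowEquivProdArrow J J' β) _ _ fun ψ => rfl

theorem fav_one (J : Type) [Fintype J] : fav J β (fun _ => 1) = 1 := by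
  unfold fav
  rw [Finset.sum_const, card_univ, nsmul_eq_mul, mul_one, div_self (card_pos' J).ne']

theorem fav_inj {J J' : Type} [Fintype J] [Fintype J'] (e : J → J') (he : Function.Injective e)
    (F : (J → β) → ℝ) : fav J' β (fun ψ => F (fun j => ψ (e j))) = fav J β F := by
  let E : J ⊕ ↥((Set.range e)ᶜ) ≃ J' :=
    (Equiv.sumCongr (Equiv.ofInjective e he) (Equiv.refl _)).trans (Equiv.Set.sumCompl _)
  have h1 := fav_equiv (β := β) E
    (fun ψ => F (fun j => ψ (Sum.inl j)) * (fun _ => (1 : ℝ)) (fun j => ψ (Sum.inr j)))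
  rw [fav_sum F (fun _ => 1), fav_one, mul_one] at h1
  rw [← h1]
  congr 1
  funext ψ
  simp [E]

/-- Average over the patterns on `U`. -/
noncomputable def avg (U : Finset I) (f : (I → β) → ℝ) : ℝ := fav U β fun ψ => f (ext U ψ)

theorem avg_inj {I' : Type} {U : Finset I'} {W : Finset I} {f : (I' → β) → ℝ} (hf : Dp U f)
    (j : I' → I) (hj : Function.Injective j) (hW : ∀ i ∈ U, j i ∈ W) :
    avg W (fun ω => f (fun i => ω (j i))) = avg U f := by
  unfold avg
  rw [← fav_inj (fun i : U => (⟨j i, hW i i.2⟩ : W))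
    (fun a b h => Subtype.ext (hj (congrArg Subtype.val h)))]
  congr 1
  funext ψ
  refine hf _ _ fun i hi => ?_
  rw [ext_mem _ (hW i hi), ext_mem _ hi]

theorem avg_sub {U W : Finset I} {f : (I → β) → ℝ} (hf : Dp U f) (h : U ⊆ W) :
    avg W f = avg U f := avg_inj hf id Function.injective_id fun _ hi => h hi

/-- Expectation of a local function. -/
noncomputable def Ex (f : (I → β) → ℝ) : ℝ := if h : Loc f then avg h.choose f else 0

theorem Ex_eq {U : Finset I} {f : (I → β) → ℝ} (hf : Dp U f) : Ex f = avg U f := by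
  have h : Loc f := hf.loc
  unfold Ex
  rw [dif_pos h]
  have h2 : Dp h.choose f := h.choose_spec
  rw [← avg_sub h2 (subset_union_left (s₂ := U)), avg_sub hf subset_union_right]

theorem Ex_inj {I' : Type} {f : (I' → β) → ℝ} (hf : Loc f) (j : I' → I)
    (hj : Function.Injective j) : Ex (fun ω : I → β => f (fun i => ω (j i))) = Ex f := by
  obtain ⟨U, hU⟩ := hf
  have h1 : Dp (U.image j) (fun ω : I → β => f (fun i => ω (j i))) :=
    fun ω ω' hω => hU _ _ fun i hi => hω _ (mem_image_of_mem j hi)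
  rw [Ex_eq h1, Ex_eq hU, avg_inj hU j hj fun i hi => mem_image_of_mem j hi]

theorem Ex_const (c : ℝ) : Ex (fun _ : I → β => c) = c := by
  rw [Ex_eq (U := ∅) fun _ _ _ => rfl]
  unfold avg fav
  rw [Finset.sum_const, card_univ, nsmul_eq_mul, mul_div_cancel_left₀ _ (card_pos' _).ne']

theorem Ex_add {f g : (I → β) → ℝ} (hf : Loc f) (hg : Loc g) :
    Ex (fun ω => f ω + g ω) = Ex f + Ex g := by
  obtain ⟨U, hU⟩ := hf
  obtain ⟨W, hW⟩ := hg
  have h1 : Dp (U ∪ W) f := Dp.mono hU subset_union_left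
  have h2 : Dp (U ∪ W) g := Dp.mono hW subset_union_right
  have h3 : Dp (U ∪ W) (fun ω => f ω + g ω) := fun ω ω' h => by
    simp only [h1 ω ω' h, h2 ω ω' h]
  rw [Ex_eq h1, Ex_eq h2, Ex_eq h3]
  unfold avg fav
  rw [Finset.sum_add_distrib, add_div]

theorem Ex_smul (c : ℝ) {f : (I → β) → ℝ} (hf : Loc f) :
    Ex (fun ω => c * f ω) = c * Ex f := by
  obtain ⟨U, hU⟩ := hf
  have h3 : Dp U (fun ω => c * f ω) := fun ω ω' h => by simp only [hU ω ω' h]
  rw [Ex_eq hU, Ex_eq h3]
  unfold avg fav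
  rw [← Finset.mul_sum, mul_div_assoc]

theorem Ex_mono {f g : (I → β) → ℝ} (hf : Loc f) (hg : Loc g) (h : ∀ ω, f ω ≤ g ω) :
    Ex f ≤ Ex g := by
  obtain ⟨U, hU⟩ := hf
  obtain ⟨W, hW⟩ := hg
  rw [Ex_eq (Dp.mono hU (subset_union_left (s₂ := W))),
    Ex_eq (Dp.mono hW (subset_union_right (s₁ := U)))]
  unfold avg fav
  exact div_le_div_of_nonneg_right (Finset.sum_le_sum fun ψ _ => h _) (card_pos' _).le

theorem Ex_nonneg {f : (I → β) → ℝ} (hf : Loc f) (h : ∀ ω, 0 ≤ f ω) : 0 ≤ Ex f := by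
  have := Ex_mono (loc_const (0 : ℝ)) hf h
  rwa [Ex_const] at this

omit [Fintype β] [Nonempty β] in
theorem loc_sum {κ : Type} (s : Finset κ) {f : κ → (I → β) → ℝ} (hf : ∀ k ∈ s, Loc (f k)) :
    Loc (fun ω => ∑ k ∈ s, f k ω) :=
  Loc.of_fam s hf fun _ _ h => Finset.sum_congr rfl h

theorem Ex_sum {κ : Type} (s : Finset κ) {f : κ → (I → β) → ℝ} (hf : ∀ k ∈ s, Loc (f k)) :
    Ex (fun ω => ∑ k ∈ s, f k ω) = ∑ k ∈ s, Ex (f k) := by
  induction s using Finset.induction_on with
  | empty => simp [Ex_const]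
  | insert a s ha ih =>
    simp only [Finset.sum_insert ha]
    rw [Ex_add (hf a (mem_insert_self _ _)) (loc_sum s fun k hk => hf k (mem_insert_of_mem hk)),
      ih fun k hk => hf k (mem_insert_of_mem hk)]

theorem Ex_mul {U W : Finset I} {f g : (I → β) → ℝ} (hf : Dp U f) (hg : Dp W g)
    (h : Disjoint U W) : Ex (fun ω => f ω * g ω) = Ex f * Ex g := by
  let j : U ⊕ W → I := Sum.elim Subtype.val Subtype.val
  have hj : Function.Injective j := by
    rintro (a | a) (b | b) hab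
    · exact congrArg _ (Subtype.ext hab)
    · exact absurd (show a.1 ∈ W from (show a.1 = b.1 from hab) ▸ b.2)
        (Finset.disjoint_left.1 h a.2)
    · exact absurd (show b.1 ∈ W from (show a.1 = b.1 from hab) ▸ a.2)
        (Finset.disjoint_left.1 h b.2)
    · exact congrArg _ (Subtype.ext hab)
  let F : (U ⊕ W → β) → ℝ := fun ψ =>
    f (ext U fun j => ψ (Sum.inl j)) * g (ext W fun j => ψ (Sum.inr j))
  have hF : Dp univ F := fun ω ω' hω => by
    rw [show ω = ω' from funext fun i => hω i (mem_univ i)]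
  have h1 : (fun ω => f ω * g ω) = fun ω : I → β => F (fun i => ω (j i)) := by
    funext ω
    simp only [F]
    congr 1
    · exact hf _ _ fun i hi => by rw [ext_mem _ hi]; rfl
    · exact hg _ _ fun i hi => by rw [ext_mem _ hi]; rfl
  rw [h1, Ex_inj hF.loc j hj, Ex_eq hF, Ex_eq hf, Ex_eq hg]
  unfold avg
  rw [← fav_sum]
  rw [← fav_inj (J := U ⊕ W) (J' := (univ : Finset (U ⊕ W))) (fun i => ⟨i, mem_univ i⟩)
    (fun a b h => congrArg Subtype.val h)]
  congr 1
  funext ψ
  simp only [F]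
  simp only [ext_mem _ (mem_univ _)]

theorem Ex_coord (i : I) (g : β → ℝ) :
    Ex (fun ω : I → β => g (ω i)) = (∑ x, g x) / Fintype.card β := by
  have h0 : Dp {()} (fun ω : Unit → β => g (ω ())) := fun ω ω' h =>
    congrArg g (h () (mem_singleton_self _))
  have h1 := Ex_inj (I := I) h0.loc (fun _ => i) (fun a b _ => rfl)
  rw [h1, Ex_eq h0]
  unfold avg
  have h2 := fav_inj (β := β) (J := Unit) (J' := ({()} : Finset Unit))
    (fun i => ⟨i, mem_singleton_self _⟩) (fun a b _ => rfl) (fun ψ => g (ψ ()))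
  have h3 : (fun ψ : ({()} : Finset Unit) → β => g (ext {()} ψ ())) =
      fun ψ => g (ψ ⟨(), mem_singleton_self _⟩) := by
    funext ψ
    rw [ext_mem _ (mem_singleton_self _)]
  rw [h3, h2, fav_def Unit β inferInstance]
  rw [Fintype.card_congr (Equiv.funUnique Unit β)]
  congr 1
  exact Fintype.sum_equiv (Equiv.funUnique Unit β) _ _ fun ψ => rfl

/-- Forgetting the second component of every coordinate. -/
theorem Ex_fst {γ : Type} [Fintype γ] [Nonempty γ] {f : (I → β) → ℝ} (hf : Loc f) :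
    Ex (fun ω : I → β × γ => f (fun i => (ω i).1)) = Ex f := by
  obtain ⟨U, hU⟩ := hf
  have h1 : Dp U (fun ω : I → β × γ => f (fun i => (ω i).1)) := fun ω ω' h =>
    hU _ _ fun i hi => by rw [h i hi]
  rw [Ex_eq h1, Ex_eq hU]
  unfold avg
  rw [fav_def U (β × γ) inferInstance, fav_def U β inferInstance]
  have h2 : ∑ ψ : U → β × γ, f (fun i => (ext U ψ i).1) =
      ∑ q : (U → β) × (U → γ), f (ext U q.1) := by
    refine Fintype.sum_equiv (Equiv.arrowProdEquivProdArrow U (fun _ => β) (fun _ => γ)) _ _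
      fun ψ => hU _ _ fun i hi => ?_
    rw [ext_mem _ hi, ext_mem _ hi]
    rfl
  rw [h2, Fintype.card_congr (Equiv.arrowProdEquivProdArrow U (fun _ => β) (fun _ => γ)),
    Fintype.card_prod, Fintype.sum_prod_type]
  simp only [Finset.sum_const, card_univ, nsmul_eq_mul]
  rw [← Finset.mul_sum]
  push_cast
  have := (card_pos' (β := γ) U).ne'
  have := (card_pos' (β := β) U).ne'
  field_simp

end

end Pool.Agent.Lib.MP_7903c7_al.C0.MT
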