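import Pool.Agent.Lib.MP_7903c7_al.C0.Defs

set_option autoImplicit false

/-!
The geometric data attached to an element of infinite order.
-/

namespace Pool.Agent.Lib.MP_7903c7_al.C0

open Finset RF
open scoped Classical Pointwise

namespace Geo0Aux

theorem sInf_shift {A B : Set ℤ} {i : ℤ} (h : ∀ n, n ∈ A ↔ n + i ∈ B) (hB : B.Finite)
    (hn : B.Nonempty) : sInf A = sInf B - i := by
  have h1 : sInf B - i ∈ A := (h _).2 (by simpa using Int.csInf_mem hn hB.bddBelow)
  have h2 : ∀ n ∈ A, sInf B - i ≤ n := fun n hn' => by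
    have := csInf_le hB.bddBelow ((h n).1 hn')
    omega
  exact le_antisymm (csInf_le ⟨_, h2⟩ h1) (le_csInf ⟨_, h1⟩ h2)

variable {G : Type} [Group G] (g : G) (S : Finset G) (R : ℕ)

/-- The right cosets of the cyclic group. -/
abbrev K : Type := Quotient (QuotientGroup.rightRel (Subgroup.zpowers g))

/-- The class of an element. -/
def cl (y : G) : K g := Quotient.mk (QuotientGroup.rightRel (Subgroup.zpowers g)) y

variable {g}

theorem cl_eq {x y : G} : cl g x = cl g y ↔ ∃ i : ℤ, y = g ^ i * x := by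
  unfold cl
  rw [Quotient.eq, QuotientGroup.rightRel_apply, Subgroup.mem_zpowers_iff]
  exact exists_congr fun i => by rw [eq_mul_inv_iff_mul_eq, eq_comm]

theorem cl_out (κ : K g) : cl g κ.out = κ := Quotient.out_eq κ

theorem comm_zpow {c : G} (hc : c ∈ Subgroup.centralizer ({g} : Set G)) (i : ℤ) (x : G) :
    g ^ i * (c * x) = c * (g ^ i * x) := by
  have h : Commute g c := Subgroup.mem_centralizer_iff.1 hc g rfl
  rw [← mul_assoc, (h.zpow_left i).eq, mul_assoc]

theorem cl_mul_iff {c : G} (hc : c ∈ Subgroup.centralizer ({g} : Set G)) {x y : G} :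
    cl g (c * x) = cl g (c * y) ↔ cl g x = cl g y := by
  rw [cl_eq, cl_eq]
  exact exists_congr fun i => by rw [comm_zpow hc, mul_right_inj]

theorem zpowers_le {c : G} (hc : c ∈ Subgroup.zpowers g) :
    c ∈ Subgroup.centralizer ({g} : Set G) := by
  obtain ⟨i, rfl⟩ := Subgroup.mem_zpowers_iff.1 hc
  exact Subgroup.mem_centralizer_iff.2 fun h hh => by
    rw [Set.mem_singleton_iff.1 hh]; exact (Commute.zpow_right (Commute.refl g) i).eq

variable (g)

/-- Left multiplication by the elements of the centraliser. -/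
noncomputable def act (c : G) : Equiv.Perm (K g) :=
  if hc : c ∈ Subgroup.centralizer ({g} : Set G) then
    Quotient.congr (Equiv.mulLeft c) fun _ _ =>
      (Quotient.eq.symm.trans (cl_mul_iff hc).symm).trans Quotient.eq
  else 1

/-- The component `κ` sees `y` within distance `r`. -/
def See (κ : K g) (r : ℕ) (y : G) : Prop := ∃ x, cl g x = κ ∧ ∃ u ∈ (S : Set G) ^ r, y = x * u

/-- The cut-off function of a component. -/
noncomputable def phi (κ : K g) (y : G) : ℝ :=
  (((range R).filter fun r => See g S κ r y).card : ℝ)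

/-- The possible heights. -/
def J (x y : G) : Set ℤ := {j | ∃ u ∈ (S : Set G) ^ R, y = g ^ j * x * u}

/-- The height function of a component. -/
noncomputable def eta (κ : K g) (y : G) : ℝ := ((sInf (J g S R κ.out y) : ℤ) : ℝ)

variable {g S R}

theorem act_cl {c : G} (hc : c ∈ Subgroup.centralizer ({g} : Set G)) (x : G) :
    act g c (cl g x) = cl g (c * x) := by
  unfold act
  rw [dif_pos hc]
  rfl

theorem see_act {c : G} (hc : c ∈ Subgroup.centralizer ({g} : Set G)) (κ : K g) (r : ℕ) (y : G) :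
    See g S (act g c κ) r (c * y) ↔ See g S κ r y := by
  constructor
  · rintro ⟨x, hx, u, hu, e⟩
    refine ⟨c⁻¹ * x, (act g c).injective ?_, u, hu, ?_⟩
    · rw [act_cl hc, mul_inv_cancel_left, hx]
    · rw [mul_assoc, ← e, inv_mul_cancel_left]
  · rintro ⟨x, rfl, u, hu, rfl⟩
    exact ⟨c * x, (act_cl hc x).symm, u, hu, (mul_assoc _ _ _).symm⟩

theorem act_zpowers {c : G} (hc : c ∈ Subgroup.zpowers g) (κ : K g) : act g c κ = κ := by
  rw [← cl_out κ, act_cl (zpowers_le hc), eq_comm, cl_eq]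
  obtain ⟨i, rfl⟩ := Subgroup.mem_zpowers_iff.1 hc
  exact ⟨i, rfl⟩

theorem phi_act {c : G} (hc : c ∈ Subgroup.centralizer ({g} : Set G)) (κ : K g) (y : G) :
    phi g S R (act g c κ) (c * y) = phi g S R κ y := by
  simp only [phi, see_act hc]

theorem phi_step (κ : K g) (y : G) {s : G} (hs : s ∈ S) :
    phi g S R κ y ≤ phi g S R κ (y * s) + 1 := by
  have hsub : ((range R).filter fun r => See g S κ r y).image (· + 1) ⊆
      insert R ((range R).filter fun r => See g S κ r (y * s)) := by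
    intro r hr
    obtain ⟨r', hr', rfl⟩ := mem_image.1 hr
    obtain ⟨h1, x, hx, u, hu, e⟩ := mem_filter.1 hr'
    rw [mem_range] at h1
    rcases Nat.lt_or_eq_of_le (Nat.succ_le_of_lt h1) with h | h
    · refine mem_insert_of_mem (mem_filter.2 ⟨mem_range.2 h, x, hx, u * s, ?_, ?_⟩)
      · rw [pow_succ]
        exact Set.mul_mem_mul hu (mem_coe.2 hs)
      · rw [e, mul_assoc]
    · exact mem_insert.2 (Or.inl h)
  have h := (card_le_card hsub).trans (card_insert_le _ _)
  rw [card_image_of_injective _ (add_left_injective 1)] at h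
  unfold phi
  exact_mod_cast h

theorem see_of_phi (h1 : (1 : G) ∈ S) {κ : K g} {y : G} (h : phi g S R κ y ≠ 0) :
    ∃ i : ℤ, ∃ u ∈ (S : Set G) ^ R, y = g ^ i * κ.out * u := by
  unfold phi at h
  rw [Nat.cast_ne_zero, card_ne_zero] at h
  obtain ⟨r, hr⟩ := h
  obtain ⟨h2, x, hx, u, hu, e⟩ := mem_filter.1 hr
  obtain ⟨i, hi⟩ := cl_eq.1 ((cl_out κ).trans hx.symm)
  exact ⟨i, u, Set.pow_subset_pow_right (mem_coe.2 h1) (mem_range.1 h2).le hu, by rw [e, hi]⟩

theorem J_finite (hg : orderOf g = 0) (x y : G) : (J g S R x y).Finite := by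
  have hi : Function.Injective fun n : ℤ => g ^ n :=
    injective_zpow_iff_not_isOfFinOrder.2 (orderOf_eq_zero_iff.1 hg)
  refine Set.Finite.of_finite_image (f := fun n : ℤ => g ^ n)
    ((((S ^ R).finite_toSet).image fun u => y * u⁻¹ * x⁻¹).subset ?_) hi.injOn
  rintro _ ⟨j, ⟨u, hu, e⟩, rfl⟩
  exact ⟨u, by rwa [coe_pow], by rw [e]; group⟩

theorem eta_act (hg : orderOf g = 0) (h1 : (1 : G) ∈ S) {c : G}
    (hc : c ∈ Subgroup.centralizer ({g} : Set G)) (κ : K g) :
    ∃ i : ℤ, ∀ y, phi g S R κ y ≠ 0 → eta g S R (act g c κ) (c * y) = eta g S R κ y - i := by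
  obtain ⟨i, hi⟩ := cl_eq.1
    (((act_cl hc κ.out).symm.trans (congrArg _ (cl_out κ))).trans (cl_out _).symm)
  refine ⟨i, fun y hy => ?_⟩
  unfold eta
  rw [sInf_shift (B := J g S R κ.out y) (i := i) (fun n => ?_) (J_finite hg _ _)
    (see_of_phi h1 hy), Int.cast_sub]
  refine exists_congr fun u => and_congr_right fun _ => ?_
  rw [hi, ← mul_assoc (g ^ n), ← zpow_add, comm_zpow hc, mul_assoc c, mul_right_inj]

theorem eta_g (hg : orderOf g = 0) (h1 : (1 : G) ∈ S) (κ : K g) (y : G)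
    (hy : phi g S R κ y ≠ 0) : eta g S R κ (g * y) = eta g S R κ y + 1 := by
  unfold eta
  rw [sInf_shift (B := J g S R κ.out y) (i := -1) (fun n => ?_) (J_finite hg _ _)
    (see_of_phi h1 hy)]
  · push_cast
    ring
  · refine exists_congr fun u => and_congr_right fun _ => ?_
    rw [add_comm, zpow_add, zpow_neg_one, mul_assoc g⁻¹, mul_assoc g⁻¹, eq_inv_mul_iff_mul_eq]

theorem eta_diff (hg : orderOf g = 0) (h1 : (1 : G) ∈ S) {c : G}
    (hc : c ∈ Subgroup.centralizer ({g} : Set G)) (κ : K g) (y y' : G) (h : phi g S R κ y ≠ 0)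
    (h' : phi g S R κ y' ≠ 0) : eta g S R (act g c κ) (c * y) - eta g S R (act g c κ) (c * y') =
      eta g S R κ y - eta g S R κ y' := by
  obtain ⟨i, hi⟩ := eta_act (R := R) hg h1 hc κ
  rw [hi y h, hi y' h']
  ring

/-- The geometric data. -/
noncomputable def geo (hg : orderOf g = 0) (h1 : (1 : G) ∈ S) (hS : ∀ s ∈ S, s⁻¹ ∈ S) (R : ℕ) :
    Geo0 g S R (S.card ^ R) where
  K := K g
  Q := K g
  cls := id
  act := act g
  phi := phi g S R
  eta := eta g S R
  phi_act := fun _ hc => phi_act (zpowers_le hc)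
  cls_act := fun _ hc => act_zpowers hc
  phi_g := fun κ y => by
    have := phi_act (S := S) (R := R) (zpowers_le (Subgroup.mem_zpowers g)) κ y
    rwa [act_zpowers (Subgroup.mem_zpowers g)] at this
  phi_nonneg := fun κ y => Nat.cast_nonneg _
  phi_le := fun κ y => by
    unfold phi
    exact_mod_cast (card_filter_le _ _).trans (card_range R).le
  phi_lip := fun κ y s hs => by
    have h1 := phi_step (R := R) κ y hs
    have h2 := phi_step (R := R) κ (y * s) (hS s hs)
    rw [mul_inv_cancel_right] at h2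
    rw [abs_le]
    constructor <;> linarith
  phi_top := fun y => by
    refine ⟨cl g y, ?_⟩
    unfold phi
    rw [filter_true_of_mem, card_range]
    intro r _
    exact ⟨y, rfl, 1, Set.one_mem_pow (mem_coe.2 h1), (mul_one y).symm⟩
  phi_fin := fun y => by
    refine ⟨(S ^ R).image fun u => cl g (y * u⁻¹), card_image_le.trans Finset.card_pow_le,
      fun κ h => ?_⟩
    obtain ⟨i, u, hu, e⟩ := see_of_phi h1 h
    refine mem_image.2 ⟨u, by rwa [← mem_coe, coe_pow], ?_⟩
    rw [e, mul_inv_cancel_right, ← cl_out κ, eq_comm, cl_eq, cl_out]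
    exact ⟨i, rfl⟩
  deg := fun q => by
    refine ⟨(S ^ R).image fun u => q.out * u, card_image_le.trans Finset.card_pow_le,
      fun κ y hq h => ?_⟩
    obtain ⟨i, u, hu, e⟩ := see_of_phi h1 h
    obtain rfl : κ = q := hq
    exact ⟨g ^ i, Subgroup.zpow_mem_zpowers g i, κ.out * u,
      mem_image.2 ⟨u, by rwa [← mem_coe, coe_pow], rfl⟩, by rw [e, mul_assoc]⟩
  sep := fun _ _ _ _ _ hq _ _ => hq
  eta_g := eta_g hg h1
  eta_act := fun _ hc => eta_diff hg h1 (zpowers_le hc)
  dir := fun P => ⟨fun _ => 1, fun _ => ⟨le_rfl, le_rfl, fun κ y u _ _ _ _ =>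
    ⟨P * (sInf (J g S R κ.out y) - sInf (J g S R κ.out (y * u))), by
      unfold eta
      push_cast
      rw [one_mul, sub_self, abs_zero]
      norm_num⟩⟩⟩
  phi_act' := fun _ hc => phi_act hc
  eta_act' := fun _ hc => eta_diff hg h1 hc
  eta_int := fun _ _ => ⟨_, rfl⟩

end Geo0Aux

theorem exists_geo0 {G : Type} [Group G] (g : G) (hg : orderOf g = 0) (S : Finset G)
    (h1 : (1 : G) ∈ S) (hS : ∀ s ∈ S, s⁻¹ ∈ S) (R : ℕ) : Nonempty (Geo0 g S R (S.card ^ R)) :=
  ⟨Geo0Aux.geo hg h1 hS R⟩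

end Pool.Agent.Lib.MP_7903c7_al.C0
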