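import Pool.Agent.Lib.MP_7903c7_al.C0.Defs
import Pool.Agent.Lib.MP_7903c7_al.RF.Loc

set_option autoImplicit false

/-! The probability that the local count of components near the top fails at a point. -/

namespace Pool.Agent.Lib.MP_7903c7_al.C0

open Finset RF
open scoped Classical Pointwise

namespace Loc0

/-- The union bound over all threshold vectors, for an abstract label law. -/
theorem prob {α : Type} [Fintype α] (d : α → ℝ) {s1 s2 θ : ℝ} (k0 c1 u T : ℕ)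
    (hT : 0 < T) (hu : ((c1 + 8 * k0 + 5 : ℕ) : ℝ) ≤ u * (θ / 2))
    (hw : ∀ th, ∑ x, Lab.wgt (2 ^ u) s1 s2 th (d x) ≤
      Fintype.card α * (1 + 1 / 2 ^ (k0 * (4 * T))))
    (V : Type) [Fintype V] (𝒟 : ℕ → Finset (V → ℝ)) (Mmax : ℕ)
    (he : Fintype.card V ≤ 2 ^ (k0 * (4 * T)))
    (hD : ∀ M, (𝒟 M).card ≤ 2 ^ (c1 * (M + T))) (B : Finset (V → α))
    (hB : ∀ φ ∈ B, ∃ M ≤ Mmax, ∃ th ∈ 𝒟 M, (∀ v, d (φ v) ≤ th v + s2) ∧
      θ * (M + (T : ℝ)) / 2 < ((univ.filter fun v => |d (φ v) - th v| ≤ s1).card : ℝ)) :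
    (B.card : ℝ) ≤ 1 / (4 * ((2 : ℝ) ^ (k0 * (4 * T))) ^ 2) * Nat.card (V → α) := by
  set D : ℝ := 2 ^ (k0 * (4 * T)) with hDdef
  have hD1 : 1 ≤ D := one_le_pow₀ one_le_two
  have hD0 : 0 < D := by linarith
  have he' : (((univ : Finset V)).card : ℝ) ≤ D := by
    rw [hDdef, card_univ]
    exact_mod_cast he
  let bad : ℕ → (V → ℝ) → Finset (V → α) := fun M th =>
    univ.filter fun φ => (∀ v, d (φ v) ≤ th v + s2) ∧
      θ * (M + (T : ℝ)) / 2 < ((univ.filter fun v => |d (φ v) - th v| ≤ s1).card : ℝ)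
  rw [Nat.card_eq_fintype_card]
  set W : ℝ := (Fintype.card (V → α) : ℝ) with hW
  have hW0 : 0 ≤ W := Nat.cast_nonneg _
  have hbad : ∀ M th,
      ((bad M th).card : ℝ) * 2 ^ ((c1 + 8 * k0 + 5) * (M + T)) ≤ 3 * W := by
    intro M th
    have h1 := Lab.count_le d (z := 2 ^ u) (s1 := s1) (s2 := s2) (ε := 1 / D)
      (Z := 2 ^ ((c1 + 8 * k0 + 5) * (M + T))) (by positivity) hw univ th
      (bad M th) (by
        intro φ hφ
        obtain ⟨h1, h2⟩ := (mem_filter.1 hφ).2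
        refine ⟨fun v _ => h1 v, ?_⟩
        rw [← pow_mul]
        apply pow_le_pow_right₀ one_le_two
        have hMT : (0 : ℝ) ≤ M + T := by positivity
        have hu0 : (0 : ℝ) ≤ u := Nat.cast_nonneg _
        have h3 : ((c1 + 8 * k0 + 5 : ℕ) : ℝ) * (M + T) ≤
            u * ((univ.filter fun v => |d (φ v) - th v| ≤ s1).card : ℝ) := by
          calc ((c1 + 8 * k0 + 5 : ℕ) : ℝ) * (M + T) ≤ u * (θ / 2) * (M + T) :=
                mul_le_mul_of_nonneg_right hu hMT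
            _ = u * (θ * (M + (T : ℝ)) / 2) := by ring
            _ ≤ _ := mul_le_mul_of_nonneg_left h2.le hu0
        exact_mod_cast h3)
    exact h1.trans (mul_le_mul_of_nonneg_right (Lab.one_add_pow_le hD0 he') hW0)
  have hM : ∀ M, (((𝒟 M).biUnion fun th => bad M th).card : ℝ) ≤
      3 * W / (32 * D ^ 2) * (1 / 2) ^ M := by
    intro M
    have hp : (0 : ℝ) < 2 ^ ((c1 + 8 * k0 + 5) * (M + T)) := by positivity
    have h1 : (((𝒟 M).biUnion fun th => bad M th).card : ℝ) ≤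
        ∑ th ∈ 𝒟 M, ((bad M th).card : ℝ) := by
      exact_mod_cast Finset.card_biUnion_le
    have h2 : ∑ th ∈ 𝒟 M, ((bad M th).card : ℝ) ≤
        ∑ _th ∈ 𝒟 M, 3 * W / 2 ^ ((c1 + 8 * k0 + 5) * (M + T)) :=
      Finset.sum_le_sum fun th _ => (le_div_iff₀ hp).2 (hbad M th)
    rw [Finset.sum_const, nsmul_eq_mul] at h2
    have h3 : ((𝒟 M).card : ℝ) ≤ 2 ^ (c1 * (M + T)) := by exact_mod_cast hD M
    have h4 : ((𝒟 M).card : ℝ) * (3 * W / 2 ^ ((c1 + 8 * k0 + 5) * (M + T))) ≤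
        2 ^ (c1 * (M + T)) * (3 * W / 2 ^ ((c1 + 8 * k0 + 5) * (M + T))) :=
      mul_le_mul_of_nonneg_right h3 (by positivity)
    have h5 : (2 : ℝ) ^ (c1 * (M + T) + (5 + k0 * (4 * T) * 2 + M)) ≤
        2 ^ ((c1 + 8 * k0 + 5) * (M + T)) := by
      apply pow_le_pow_right₀ one_le_two
      nlinarith [Nat.zero_le (k0 * M)]
    have h6 : (2 : ℝ) ^ (c1 * (M + T)) * (3 * W / 2 ^ ((c1 + 8 * k0 + 5) * (M + T))) ≤
        2 ^ (c1 * (M + T)) * (3 * W / 2 ^ (c1 * (M + T) + (5 + k0 * (4 * T) * 2 + M))) :=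
      mul_le_mul_of_nonneg_left
        (div_le_div_of_nonneg_left (by positivity) (by positivity) h5) (by positivity)
    have h7 : (2 : ℝ) ^ (c1 * (M + T)) *
        (3 * W / 2 ^ (c1 * (M + T) + (5 + k0 * (4 * T) * 2 + M))) =
        3 * W / (32 * D ^ 2) * (1 / 2) ^ M := by
      rw [pow_add, pow_add, pow_add, pow_mul 2 (k0 * (4 * T)) 2, ← hDdef, one_div, inv_pow]
      field_simp
      norm_num
    linarith
  have h0 : B ⊆ (range (Mmax + 1)).biUnion fun M => (𝒟 M).biUnion fun th => bad M th := by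
    intro φ hφ
    obtain ⟨M, m1, th, m2, m3⟩ := hB φ hφ
    exact mem_biUnion.2 ⟨M, mem_range.2 (by omega),
      mem_biUnion.2 ⟨th, m2, mem_filter.2 ⟨mem_univ _, m3⟩⟩⟩
  have h1 : (B.card : ℝ) ≤ ∑ M ∈ range (Mmax + 1),
      (((𝒟 M).biUnion fun th => bad M th).card : ℝ) := by
    exact_mod_cast (card_le_card h0).trans Finset.card_biUnion_le
  have h2 : ∑ M ∈ range (Mmax + 1), (((𝒟 M).biUnion fun th => bad M th).card : ℝ) ≤
      ∑ M ∈ range (Mmax + 1), 3 * W / (32 * D ^ 2) * (1 / 2) ^ M :=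
    Finset.sum_le_sum fun M _ => hM M
  rw [← Finset.mul_sum] at h2
  have h3 : 3 * W / (32 * D ^ 2) * ∑ M ∈ range (Mmax + 1), ((1 : ℝ) / 2) ^ M ≤
      3 * W / (32 * D ^ 2) * 2 := mul_le_mul_of_nonneg_left (Lab.geo_le _) (by positivity)
  have h4 : 3 * W / (32 * D ^ 2) * 2 ≤ 1 / (4 * D ^ 2) * W := by
    have : 1 / (4 * D ^ 2) * W - 3 * W / (32 * D ^ 2) * 2 = W / (16 * D ^ 2) := by
      field_simp
      ring
    have h5 : 0 ≤ W / (16 * D ^ 2) := by positivity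
    linarith
  linarith

/-- The label law. -/
theorem labels0 (k0 c1 : ℕ) (hk : 0 < k0) (θ : ℝ) (hθ : 0 < θ) :
    ∃ n : ℕ, 0 < n ∧ 16 ∣ n ∧ ∃ (Ω : Type) (_ : Fintype Ω) (_ : Nonempty Ω) (lab : Ω → ℝ),
      (∀ ω, 0 ≤ lab ω ∧ lab ω ≤ (n : ℝ) ^ 6 / 2) ∧
      ∀ (V : Type) [Fintype V] (𝒟 : ℕ → Finset (V → ℝ)) (Mmax : ℕ),
        Fintype.card V ≤ 2 ^ (k0 * (4 * n ^ 3)) →
        (∀ M, (𝒟 M).card ≤ 2 ^ (c1 * (M + n ^ 3))) → ∀ B : Finset (V → Ω),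
        (∀ φ ∈ B, ∃ M ≤ Mmax, ∃ th ∈ 𝒟 M, (∀ v, lab (φ v) ≤ th v + 2 * (n : ℝ) ^ 3) ∧
          θ * (M + (n : ℝ) ^ 3) / 2 <
            ((univ.filter fun v => |lab (φ v) - th v| ≤ 8 * (n : ℝ) ^ 2).card : ℝ)) →
        (B.card : ℝ) ≤ 1 / (4 * ((2 : ℝ) ^ (k0 * (4 * n ^ 3))) ^ 2) * Nat.card (V → Ω) := by
  obtain ⟨u, hu⟩ := exists_nat_ge (((c1 + 8 * k0 + 5 : ℕ) : ℝ) / (θ / 2))
  rw [div_le_iff₀ (by positivity)] at hu
  obtain ⟨l, hl⟩ : ∃ l : ℕ, l = 2 ^ (48 * k0 + 1 + u) := ⟨_, rfl⟩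
  have hl0 : 0 < l := by rw [hl]; positivity
  obtain ⟨n, hn⟩ : ∃ n : ℕ, n = 272 * k0 * l := ⟨_, rfl⟩
  have hn8 : 8 ≤ n := by
    have := Nat.mul_pos hk hl0
    rw [hn, mul_assoc]
    omega
  have hn0 : 0 < n := by omega
  have hnR : (n : ℝ) = 272 * k0 * l := by rw [hn]; push_cast; ring
  have hn8R : (8 : ℝ) ≤ n := by exact_mod_cast hn8
  have hkR : (1 : ℝ) ≤ k0 := by exact_mod_cast hk
  have hlR : (0 : ℝ) < l := by exact_mod_cast hl0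
  have hsq : (0 : ℝ) < (n : ℝ) ^ 2 := by positivity
  have hkey : (k0 : ℝ) * l * (17 * (n : ℝ) ^ 2) = (n : ℝ) ^ 3 / 16 := by
    rw [pow_succ (n : ℝ) 2]
    nth_rewrite 3 [hnR]
    ring
  refine ⟨n, hn0, ⟨17 * k0 * l, by rw [hn]; ring⟩, Fin l × Fin (2 ^ (k0 * (4 * n ^ 3))),
    inferInstance, ⟨(⟨0, hl0⟩, ⟨0, by positivity⟩)⟩,
    fun x => (Lab.lev l (k0 * (4 * n ^ 3)) x : ℝ) * (17 * (n : ℝ) ^ 2),
    fun x => ⟨by positivity, ?_⟩, fun V _ 𝒟 Mmax he hD B hB => ?_⟩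
  · have h1 : Lab.lev l (k0 * (4 * n ^ 3)) x ≤ k0 * (4 * n ^ 3) * l + k0 * l := by
      unfold Lab.lev
      have h2 := x.1.2
      have h3 : l ≤ k0 * l := Nat.le_mul_of_pos_left _ hk
      have h4 : (k0 * (4 * n ^ 3) - Nat.size x.2.1) * l ≤ k0 * (4 * n ^ 3) * l :=
        Nat.mul_le_mul_right _ (Nat.sub_le _ _)
      omega
    have h2 : (Lab.lev l (k0 * (4 * n ^ 3)) x : ℝ) ≤ k0 * (4 * (n : ℝ) ^ 3) * l + k0 * l := by
      exact_mod_cast h1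
    have h3 : (1 : ℝ) ≤ (n : ℝ) ^ 3 := one_le_pow₀ (by linarith)
    calc (Lab.lev l (k0 * (4 * n ^ 3)) x : ℝ) * (17 * (n : ℝ) ^ 2)
        ≤ (k0 * (4 * (n : ℝ) ^ 3) * l + k0 * l) * (17 * (n : ℝ) ^ 2) :=
          mul_le_mul_of_nonneg_right h2 (by positivity)
      _ = (4 * (n : ℝ) ^ 3 + 1) * ((k0 : ℝ) * l * (17 * (n : ℝ) ^ 2)) := by ring
      _ = (4 * (n : ℝ) ^ 3 + 1) * ((n : ℝ) ^ 3 / 16) := by rw [hkey]
      _ ≤ (n : ℝ) ^ 6 / 2 := by nlinarith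
  · refine prob
      (fun x : Fin l × Fin (2 ^ (k0 * (4 * n ^ 3))) =>
        (Lab.lev l (k0 * (4 * n ^ 3)) x : ℝ) * (17 * (n : ℝ) ^ 2))
      (s1 := 8 * (n : ℝ) ^ 2) (s2 := 2 * (n : ℝ) ^ 3) k0 c1 u (n ^ 3) (by positivity) hu
      (fun th => Lab.sum_wgt l _ (48 * k0 + 1) u hl (by positivity) (by linarith) (by
        push_cast
        have : 8 * (n : ℝ) ^ 2 ≤ (n : ℝ) ^ 3 := by nlinarith
        nlinarith) th) V 𝒟 Mmax he hD B fun φ hφ => ?_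
    have := hB φ hφ
    push_cast
    exact this

end Loc0

theorem local_prob (k0 : ℕ) (hk : 0 < k0) (θ : ℝ) (hθ : 0 < θ) :
    ∃ n : ℕ, 0 < n ∧ 16 ∣ n ∧ ∃ (Ω : Type) (_ : Fintype Ω) (_ : Nonempty Ω) (lab : Ω → ℝ),
      (∀ ω, 0 ≤ lab ω ∧ lab ω ≤ (n : ℝ) ^ 6 / 2) ∧
      ∀ (G : Type) [Group G] (g : G) (S : Finset G) (Δ : ℕ) (X : Geo0 g S (4 * n ^ 3) Δ),
        (1 : G) ∈ S → S.card ≤ 2 ^ k0 → Δ ≤ 2 ^ (k0 * (4 * n ^ 3)) →
        ∀ L n0 : ℕ, 4 * n ^ 3 ≤ L → L + 1 ≤ n0 → ∀ (y : G) (E : Finset X.K),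
          (∀ κ, κ ∈ E ↔ X.phi κ y ≠ 0) →
          Small E (BadSet g S X.phi lab θ n L n0 y)
            (1 / (4 * ((2 ^ (k0 * (4 * n ^ 3)) : ℕ) : ℝ) ^ 2)) := by
  obtain ⟨n, hn, h16, Ω, iΩ, nΩ, lab, hδ, hlab⟩ := Loc0.labels0 k0 (k0 + 8) hk θ hθ
  refine ⟨n, hn, h16, Ω, iΩ, nΩ, lab, hδ, fun G _ g S Δ X h1 hS hΔ L n0 hL hn0 z E hE => ?_⟩
  have n16 : 16 ≤ n := Nat.le_of_dvd hn h16
  have p0 : 0 < n0 := by omega
  have nR : (16 : ℝ) ≤ n := by exact_mod_cast n16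
  choose P hP1 hP2 using Loc.paths S
  have hT := fun M (h : M ≤ L) => rounding n n0 M (by omega)
    (by nlinarith [Nat.mul_le_mul_left (n ^ 3) hn0, Nat.le_mul_of_pos_left L (pow_pos hn 3)])
  choose! 𝒯 hT1 hT2 using hT
  have pW : (0 : ℤ) < n ^ 3 * n0 := by positivity
  obtain ⟨mx, hmx⟩ := Loc.exists_mx pW
  unfold Small
  rw [← Nat.card_eq_fintype_card]
  push_cast
  refine hlab E
    (fun M => if M ≤ L then
      (P M ×ˢ range (M + 1) ×ˢ 𝒯 M ×ˢ range (8 * n ^ 4 + 1)).image fun d v =>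
        d.2.2.2 * (n : ℝ) ^ 2 - mx (Loc.Ft n0 (n ^ 3) M
          (fun j => X.phi v.1 (z * (d.1 d.2.1)⁻¹ * d.1 j)) d.2.2.1) else ∅) L ?_
    (fun M => ?_) _ fun φ hφ => ?_
  · obtain ⟨A, a1, a2⟩ := X.phi_fin z
    rw [Fintype.card_coe]
    exact (card_le_card fun κ h => a2 κ ((hE κ).1 h)).trans (a1.trans hΔ)
  · split_ifs with h
    · refine card_image_le.trans ?_
      simp only [card_product, card_range]
      calc _ ≤ (2 ^ k0) ^ M * (2 ^ M * (2 ^ (6 * (M + n ^ 3)) * 2 ^ n ^ 3)) :=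
            Nat.mul_le_mul ((hP1 M).trans (Nat.pow_le_pow_left hS M))
              (Nat.mul_le_mul Nat.lt_two_pow_self (Nat.mul_le_mul (hT1 M h) (Loc.num n16)))
        _ ≤ _ := by
            rw [← pow_mul, ← pow_add, ← pow_add, ← pow_add]
            exact Nat.pow_le_pow_right two_pos (by nlinarith [Nat.zero_le (k0 * n ^ 3)])
    · simp
  obtain ⟨x, ⟨γ, ℓ, t0, a, A, -, ⟨l1, l2, l3⟩, hz, ha, hA, hc⟩, hx⟩ := (mem_filter.1 hφ).2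
  rcases A.eq_empty_or_nonempty with rfl | ⟨κ0, hκ0⟩
  · rw [card_empty, Nat.cast_zero] at hc
    exact absurd hc (not_lt.2 (by positivity))
  have ML := (sum_window_le (L * n0) (4 * n ^ 3 * n0) (Nat.mul_le_mul_right _ hL) ℓ l1
    (t0 - 2 * (n ^ 3 * n0))).trans l3
  have un := Loc.unroll l2 (t0 - 2 * (n ^ 3 * n0)) (4 * n ^ 3 * n0)
  rw [show t0 - 2 * (n ^ 3 * n0 : ℤ) + (4 * n ^ 3 * n0 : ℕ) = t0 + 2 * (n ^ 3 * n0) by
    push_cast; ring] at ML un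
  generalize ∑ u ∈ Ico (t0 - 2 * (n ^ 3 * n0 : ℤ)) (t0 + 2 * (n ^ 3 * n0)), ℓ u = M at ML un hc
  obtain ⟨y, t, u1, u2, u3, -, u5⟩ := un
  obtain ⟨j0, j1, j2, -⟩ := u5 t0 (by omega) (by omega)
  obtain ⟨p, p1, p2⟩ := hP2 M y u1
  have ey : ∀ j ≤ M, z * (p j0)⁻¹ * p j = y j := fun j hj => by
    rw [← hz, j2, p2 j0 j1, p2 j hj]
    group
  have K1 : ∀ κ, ∀ j ≤ M, X.phi κ (z * (p j0)⁻¹ * p j) = X.phi κ (y j) := fun κ j hj => by
    rw [ey j hj]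
  have hF : ∀ κ (σ : ℤ), |σ| < n ^ 3 * n0 → Fw n0 (n ^ 3) (fun t => X.phi κ (γ t)) (t0 + σ) =
      Loc.Ft n0 (n ^ 3) M (fun j => X.phi κ (y j)) (fun j => t j - t0) σ := fun κ σ hσ => by
    rw [Loc.Fw_steps n0 (n ^ 3) M p0 _ (X.phi κ (y 0))
      (fun j => X.phi κ (y (j + 1)) - X.phi κ (y j)) t _ fun u hu => ?_, Loc.Ft]
    · simp only [show ∀ j, t0 + σ - t j = σ - (t j - t0) from fun j => by ring]
    · rw [abs_lt] at hu hσ
      push_cast at hu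
      obtain ⟨m, m1, m2, m3⟩ := u5 u (by omega) (by omega)
      rw [m2]
      exact Loc.tele (fun j => X.phi κ (y j)) m1 _ m3
  have hD : ∀ κ j, |if j < M then X.phi κ (y (j + 1)) - X.phi κ (y j) else 0| ≤ 1 := fun κ j => by
    split_ifs with h
    · simpa using X.phi_lip κ (y j) _ (u1 j h)
    · simp
  obtain ⟨t', t1, t2, A', a1, a2, a3⟩ := hT2 M ML (fun j => t j - t0)
    (fun i j a b => sub_le_sub_right (u2 i j a b) _)
    (fun j hj => by have := u3 j hj; constructor <;> omega) X.K A _ hD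
  have a0 : 0 ≤ a ∧ a ≤ (8 * n ^ 4 : ℕ) * (n : ℝ) ^ 2 := by
    obtain ⟨k1, σ, -, k2⟩ := hA κ0 hκ0
    have k3 := ha κ0 σ k1
    have k4 := hδ (x κ0)
    have k5 := Fw_mono n0 (n ^ 3) (σ := σ) fun t _ => X.phi_nonneg κ0 (γ t)
    have k6 := Fw_mono n0 (n ^ 3) (σ := σ) fun t _ => X.phi_le κ0 (γ t)
    rw [Fw_const _ _ p0] at k5 k6
    push_cast at k5 k6 ⊢
    have k7 : (n : ℝ) ^ 2 ≤ n ^ 6 := pow_le_pow_right₀ (by linarith) (by norm_num)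
    have k8 : (0 : ℝ) ≤ n ^ 2 := by positivity
    constructor <;> nlinarith
  have n2 : (0 : ℝ) < n ^ 2 := by positivity
  have i1 : a ≤ ⌈a / (n : ℝ) ^ 2⌉₊ * (n : ℝ) ^ 2 := (div_le_iff₀ n2).1 (Nat.le_ceil _)
  have i2 : ⌈a / (n : ℝ) ^ 2⌉₊ * (n : ℝ) ^ 2 ≤ a + n ^ 2 := by
    have := mul_le_mul_of_nonneg_right (Nat.ceil_lt_add_one (div_nonneg a0.1 n2.le)).le n2.le
    rwa [add_mul, div_mul_cancel₀ _ n2.ne', one_mul] at this
  have i3 : ⌈a / (n : ℝ) ^ 2⌉₊ ≤ 8 * n ^ 4 := Nat.ceil_le.2 ((div_le_iff₀ n2).2 a0.2)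
  have up : ∀ κ (_ : X.phi κ z ≠ 0) (σ : ℤ), |σ| < n ^ 3 * n0 →
      Loc.Ft n0 (n ^ 3) M (fun j => X.phi κ (y j)) (fun j => t j - t0) σ + lab (x κ) ≤ a :=
    fun κ h σ hσ => by
    have := ha κ (t0 + σ) h
    rwa [hF κ σ hσ] at this
  refine ⟨M, ML, _, by
    rw [if_pos ML]
    exact mem_image.2 ⟨(p, j0, t', ⌈a / (n : ℝ) ^ 2⌉₊), by
      simp only [mem_product, mem_range]
      exact ⟨p1, by omega, t1, by omega⟩, rfl⟩, fun v => ?_, ?_⟩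
  · rw [← hx v]
    obtain ⟨κ, hκ⟩ := v
    have k := (hE κ).1 hκ
    simp only
    rw [Loc.Ft_congr _ _ _ (K1 κ)]
    obtain ⟨σ, s1, s2⟩ := (hmx (Loc.Ft n0 (n ^ 3) M (fun j => X.phi κ (y j)) t')).2
    have b := Loc.Ft_sub n0 (n ^ 3) M (fun j => X.phi κ (y j)) (fun j => t j - t0) t' σ
    have b' := (le_abs_self _).trans ((abs_sum_le_sum_abs _ _).trans ((sum_le_sum fun j _ =>
      (abs_mul _ _).trans_le (mul_le_of_le_one_left (abs_nonneg _) (hD κ j))).trans (t2 σ)))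
    linarith [up κ k σ s1]
  have a2' : (A.card : ℝ) ≤ 2 * A'.card := by exact_mod_cast a2
  refine lt_of_lt_of_le (b := (A'.attach.card : ℝ)) (by rw [card_attach]; linarith) ?_
  refine (Nat.cast_le (α := ℝ)).2 (card_le_card_of_injOn (s := A'.attach)
    (fun κ => (⟨κ.1, (hE _).2 (hA _ (a1 κ.2)).1⟩ : E))
    (fun κ _ => ?_) fun κ _ κ' _ e => Subtype.ext (congrArg (fun v : E => v.1) e))
  obtain ⟨κ, hκ⟩ := κ
  obtain ⟨k, σ, s1, s2⟩ := hA κ (a1 hκ)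
  refine mem_coe.2 (mem_filter.2 ⟨mem_univ _, ?_⟩)
  rw [← hx]
  simp only
  rw [Loc.Ft_congr _ _ _ (K1 κ)]
  obtain ⟨m1, σ', m2, m3⟩ := hmx (Loc.Ft n0 (n ^ 3) M (fun j => X.phi κ (y j)) t')
  have b := a3 κ hκ _ s1
  have b' := a3 κ hκ _ m2
  rw [← Loc.Ft_sub n0 (n ^ 3) M (fun j => X.phi κ (y j)), abs_le] at b b'
  have f := hF κ _ s1
  rw [add_sub_cancel] at f
  rw [f] at s2
  rw [abs_le]
  constructor <;> linarith [m1 _ s1, up κ k σ' m2]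

end Pool.Agent.Lib.MP_7903c7_al.C0
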