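import Pool.Agent.Lib.MP_7903c7_al.C0.Wit
import Pool.Agent.Lib.MP_7903c7_al.C0.Defs

set_option autoImplicit false

/-!
An invariant mean on the solutions of a local lemma instance: resampling rounds along a random
colouring, averaged in time.
-/

namespace Pool.Agent.Lib.MP_7903c7_al.C0

open Finset Filter Topology
open scoped Classical

namespace MT

open Wit

variable {V A α : Type} (vars : A → Finset V) (bad : A → (V → α) → Prop)

/-- No overlapping event has the same colour. -/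
def alive (c : A → ℕ) (a : A) : Prop :=
  ∀ b, ¬Disjoint (vars a) (vars b) → c b = c a → b = a

/-- Number of resamplings of a variable before time `t`. -/
noncomputable def cnt (Q : ℕ) (τ : V × ℕ → α) (c : A → ℕ) : ℕ → V → ℕ
  | 0 => fun _ => 0
  | t + 1 => fun v => cnt Q τ c t v +
      if ∃ b, (alive vars c b ∧ c b = t % Q ∧ bad b fun w => τ (w, cnt Q τ c t w)) ∧ v ∈ vars b
      then 1 else 0

/-- The events resampled at time `t`. -/
def RR (Q : ℕ) (τ : V × ℕ → α) (c : A → ℕ) (t : ℕ) : Set A :=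
  {b | alive vars c b ∧ c b = t % Q ∧ bad b fun w => τ (w, cnt vars bad Q τ c t w)}

theorem cnt_succ (Q : ℕ) (τ : V × ℕ → α) (c : A → ℕ) (t : ℕ) (v : V) :
    cnt vars bad Q τ c (t + 1) v = cnt vars bad Q τ c t v +
      if ∃ b ∈ RR vars bad Q τ c t, v ∈ vars b then 1 else 0 := rfl

theorem cnt_eq (Q : ℕ) (τ : V × ℕ → α) (c : A → ℕ) (t : ℕ) (v : V) :
    cnt vars bad Q τ c t v =
      ((range t).filter fun r => ∃ b ∈ RR vars bad Q τ c r, v ∈ vars b).card := by
  induction t with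
  | zero => simp [cnt]
  | succ t ih =>
    rw [cnt_succ, ih, range_add_one, filter_insert]
    split_ifs with h
    · rw [card_insert_of_notMem (by simp)]
    · rfl

theorem cnt_le (Q : ℕ) (τ : V × ℕ → α) (c : A → ℕ) (t : ℕ) (v : V) :
    cnt vars bad Q τ c t v ≤ t := by
  rw [cnt_eq]
  exact (card_filter_le _ _).trans (card_range t).le

theorem RR_ind (Q : ℕ) (τ : V × ℕ → α) (c : A → ℕ) (r : ℕ) : ∀ b ∈ RR vars bad Q τ c r,
    ∀ b' ∈ RR vars bad Q τ c r, ¬Disjoint (vars b) (vars b') → b = b' :=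
  fun _ hb b' hb' h => (hb.1 b' h (hb'.2.1.trans hb.2.1.symm)).symm

variable {vars bad}

theorem disj_perm {π : Equiv.Perm V} {σ : Equiv.Perm A}
    (hv : ∀ a v, π v ∈ vars (σ a) ↔ v ∈ vars a) (a b : A) :
    Disjoint (vars (σ a)) (vars (σ b)) ↔ Disjoint (vars a) (vars b) := by
  simp only [Finset.disjoint_left]
  constructor
  · intro h v h1 h2
    exact h ((hv a v).2 h1) ((hv b v).2 h2)
  · intro h v h1 h2
    obtain ⟨w, rfl⟩ := π.surjective v
    exact h ((hv a w).1 h1) ((hv b w).1 h2)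

theorem alive_perm {π : Equiv.Perm V} {σ : Equiv.Perm A}
    (hv : ∀ a v, π v ∈ vars (σ a) ↔ v ∈ vars a) (c : A → ℕ) (a : A) :
    alive vars c (σ a) ↔ alive vars (fun b => c (σ b)) a := by
  constructor
  · intro h b h1 h2
    exact σ.injective (h (σ b) (fun h3 => h1 ((disj_perm hv a b).1 h3)) h2)
  · intro h b h1 h2
    obtain ⟨b, rfl⟩ := σ.surjective b
    exact congrArg σ (h b (fun h3 => h1 ((disj_perm hv a b).2 h3)) h2)

theorem cnt_perm {π : Equiv.Perm V} {σ : Equiv.Perm A}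
    (hv : ∀ a v, π v ∈ vars (σ a) ↔ v ∈ vars a)
    (hb : ∀ a φ, bad (σ a) φ ↔ bad a fun v => φ (π v)) (Q : ℕ) (τ : V × ℕ → α) (c : A → ℕ)
    (t : ℕ) : ∀ v, cnt vars bad Q τ c t (π v) =
      cnt vars bad Q (fun x => τ (π x.1, x.2)) (fun b => c (σ b)) t v := by
  induction t with
  | zero => intro v; rfl
  | succ t ih =>
    intro v
    rw [cnt_succ, cnt_succ, ih]
    have key : ∀ a, σ a ∈ RR vars bad Q τ c t ↔
        a ∈ RR vars bad Q (fun x => τ (π x.1, x.2)) (fun b => c (σ b)) t := by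
      intro a
      simp only [RR, Set.mem_ofPred_eq, alive_perm hv, hb, ih]
    congr 1
    refine if_congr ⟨?_, ?_⟩ rfl rfl
    · rintro ⟨b, h1, h2⟩
      obtain ⟨b, rfl⟩ := σ.surjective b
      exact ⟨b, (key b).1 h1, (hv b v).1 h2⟩
    · rintro ⟨b, h1, h2⟩
      exact ⟨σ b, (key b).2 h1, (hv b v).2 h2⟩

/-- An alive event that holds at the start of a period is resampled, or a neighbour is. -/
theorem touch (hloc : ∀ a φ ψ, (∀ v ∈ vars a, φ v = ψ v) → bad a φ → bad a ψ)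
    {nb : A → Finset A} (hnb : ∀ a b, ¬Disjoint (vars a) (vars b) → b ∈ nb a) {Q : ℕ}
    (τ : V × ℕ → α) (c : A → ℕ) (a : A) (hc : c a < Q) (hne : ∀ φ, bad a φ → (vars a).Nonempty)
    (ha : alive vars c a) (k : ℕ) (h : bad a fun w => τ (w, cnt vars bad Q τ c (k * Q) w)) :
    ∃ b ∈ nb a, ∃ r ∈ Ico (k * Q) ((k + 1) * Q), b ∈ RR vars bad Q τ c r := by
  by_contra hcon
  push Not at hcon
  have h1 : ∀ i ≤ c a, ∀ v ∈ vars a,
      cnt vars bad Q τ c (k * Q + i) v = cnt vars bad Q τ c (k * Q) v := by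
    intro i
    induction i with
    | zero => intro _ v _; rfl
    | succ i ih =>
      intro hi v hv
      rw [← add_assoc, cnt_succ, ih (by omega) v hv, if_neg, add_zero]
      rintro ⟨b, h2, h3⟩
      refine hcon b (hnb a b (Finset.not_disjoint_iff.2 ⟨v, hv, h3⟩)) _ (mem_Ico.2 ⟨?_, ?_⟩) h2
      · omega
      · rw [add_mul]
        omega
  obtain ⟨v, hv⟩ := hne _ h
  refine hcon a (hnb a a (Finset.not_disjoint_iff.2 ⟨v, hv, hv⟩)) (k * Q + c a)
    (mem_Ico.2 ⟨by omega, by rw [add_mul]; omega⟩) ⟨ha, ?_, ?_⟩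
  · rw [Nat.mul_add_mod_self_right, Nat.mod_eq_of_lt hc]
  · exact hloc a _ _ (fun w hw => by rw [h1 _ le_rfl w hw]) h

theorem point (hloc : ∀ a φ ψ, (∀ v ∈ vars a, φ v = ψ v) → bad a φ → bad a ψ)
    {nb : A → Finset A} (hnb : ∀ a b, ¬Disjoint (vars a) (vars b) → b ∈ nb a) {Q : ℕ}
    (τ : V × ℕ → α) (c : A → ℕ) (a : A) (hc : c a < Q)
    (hne : ∀ a φ, bad a φ → (vars a).Nonempty) (n : ℕ) :
    ∑ k ∈ range n, ind (bad a fun w => τ (w, cnt vars bad Q τ c (k * Q) w)) ≤
      n * (∑ b ∈ (nb a).erase a, ind (c b = c a)) +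
        ∑ b ∈ nb a, ∑ l ∈ fam vars nb (n * Q) {b}, ind (Test vars bad τ ({b} :: l)) := by
  have h0 : 0 ≤ ∑ b ∈ nb a, ∑ l ∈ fam vars nb (n * Q) {b}, ind (Test vars bad τ ({b} :: l)) :=
    sum_nonneg fun _ _ => sum_nonneg fun _ _ => ind_nonneg _
  have h0' : 0 ≤ ∑ b ∈ (nb a).erase a, ind (c b = c a) := sum_nonneg fun _ _ => ind_nonneg _
  by_cases ha : alive vars c a
  · have h1 : ∀ m, ∑ k ∈ range m, ind (bad a fun w => τ (w, cnt vars bad Q τ c (k * Q) w)) ≤
        ∑ b ∈ nb a, ∑ r ∈ range (m * Q), ind (b ∈ RR vars bad Q τ c r) := by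
      intro m
      induction m with
      | zero => simp
      | succ m ih =>
        rw [sum_range_succ]
        have h2 : ∀ b, ∑ r ∈ range ((m + 1) * Q), ind (b ∈ RR vars bad Q τ c r) =
            ∑ r ∈ range (m * Q), ind (b ∈ RR vars bad Q τ c r) +
              ∑ r ∈ Ico (m * Q) ((m + 1) * Q), ind (b ∈ RR vars bad Q τ c r) := fun b =>
          (sum_range_add_sum_Ico _ (Nat.mul_le_mul_right _ (Nat.le_succ m))).symm
        simp only [h2, sum_add_distrib]
        refine add_le_add ih ?_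
        by_cases hb : bad a fun w => τ (w, cnt vars bad Q τ c (m * Q) w)
        · obtain ⟨b, h3, r, h4, h5⟩ := touch hloc hnb τ c a hc (hne a) ha m hb
          rw [ind_pos hb, ← ind_pos h5]
          refine le_trans ?_ (single_le_sum (f := fun b =>
            ∑ r ∈ Ico (m * Q) ((m + 1) * Q), ind (b ∈ RR vars bad Q τ c r))
            (fun _ _ => sum_nonneg fun _ _ => ind_nonneg _) h3)
          exact single_le_sum (f := fun r => ind (b ∈ RR vars bad Q τ c r))
            (fun _ _ => ind_nonneg _) h4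
        · rw [ind_neg hb]
          exact sum_nonneg fun _ _ => sum_nonneg fun _ _ => ind_nonneg _
    have h3 : ∀ b, ∑ r ∈ range (n * Q), ind (b ∈ RR vars bad Q τ c r) ≤
        ∑ l ∈ fam vars nb (n * Q) {b}, ind (Test vars bad τ ({b} :: l)) := by
      intro b
      have := count_le hloc hnb τ (RR vars bad Q τ c) (cnt vars bad Q τ c) (cnt_eq vars bad Q τ c)
        (RR_ind vars bad Q τ c) (fun _ _ hb => hb.2.2) (n * Q) b (hne b)
      simp only [ind, sum_boole]
      exact_mod_cast this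
    have h4 := (h1 n).trans (sum_le_sum fun b _ => h3 b)
    have h5 : 0 ≤ (n : ℝ) * ∑ b ∈ (nb a).erase a, ind (c b = c a) :=
      mul_nonneg (Nat.cast_nonneg _) h0'
    linarith
  · simp only [alive, not_forall] at ha
    obtain ⟨b, h1, h2, h3⟩ := ha
    have h4 : 1 ≤ ∑ b ∈ (nb a).erase a, ind (c b = c a) := by
      rw [← ind_pos h2]
      exact single_le_sum (f := fun b => ind (c b = c a)) (fun _ _ => ind_nonneg _)
        (mem_erase.2 ⟨h3, hnb a b h1⟩)
    have h5 : ∑ k ∈ range n, ind (bad a fun w => τ (w, cnt vars bad Q τ c (k * Q) w)) ≤ n := by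
      refine (sum_le_sum fun _ _ => ind_le_one _).trans ?_
      simp
    have h6 : (n : ℝ) * 1 ≤ n * ∑ b ∈ (nb a).erase a, ind (c b = c a) :=
      mul_le_mul_of_nonneg_left h4 (Nat.cast_nonneg _)
    linarith

/-- The table. -/
def tb {Q : ℕ} (ω : (V × ℕ) ⊕ A → α × Fin Q) : V × ℕ → α := fun x => (ω (Sum.inl x)).1

/-- The colouring. -/
def co {Q : ℕ} (ω : (V × ℕ) ⊕ A → α × Fin Q) : A → ℕ := fun a => (ω (Sum.inr a)).2

variable (vars bad) in
/-- The state at time `t`. -/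
noncomputable def st {Q : ℕ} (t : ℕ) (ω : (V × ℕ) ⊕ A → α × Fin Q) : V → α :=
  fun v => tb ω (v, cnt vars bad Q (tb ω) (co ω) t v)

theorem loc_st_of {Q : ℕ} (t : ℕ) (v : V)
    (h : Loc fun ω : (V × ℕ) ⊕ A → α × Fin Q => cnt vars bad Q (tb ω) (co ω) t v) :
    Loc fun ω : (V × ℕ) ⊕ A → α × Fin Q => st vars bad t ω v := by
  obtain ⟨U, hU⟩ := h
  refine ⟨U ∪ (range (t + 1)).image fun k => Sum.inl (v, k), fun ω ω' hω => ?_⟩
  have h1 := hU ω ω' fun i hi => hω i (mem_union_left _ hi)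
  simp only [st] at h1 ⊢
  rw [h1]
  exact congrArg Prod.fst (hω _ (mem_union_right _ (mem_image_of_mem _
    (mem_range.2 (Nat.lt_succ_of_le (cnt_le _ _ _ _ _ _ _))))))

theorem loc_co {Q : ℕ} (a : A) : Loc fun ω : (V × ℕ) ⊕ A → α × Fin Q => co ω a :=
  (loc_coord (Sum.inr a)).of_one fun _ _ h => by simp only [co, h]

theorem loc_cnt (hloc : ∀ a φ ψ, (∀ v ∈ vars a, φ v = ψ v) → bad a φ → bad a ψ)
    {nb : A → Finset A} (hnb : ∀ a b, ¬Disjoint (vars a) (vars b) → b ∈ nb a) {Q : ℕ} (t : ℕ) :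
    ∀ v, Loc fun ω : (V × ℕ) ⊕ A → α × Fin Q => cnt vars bad Q (tb ω) (co ω) t v := by
  induction t with
  | zero => intro v; exact loc_const 0
  | succ t ih =>
    intro v
    have h1 : ∀ b, Loc fun ω : (V × ℕ) ⊕ A → α × Fin Q => alive vars (co ω) b := by
      intro b
      refine Loc.of_fam (insert b (nb b)) (fun a _ => loc_co (V := V) (α := α) (Q := Q) a)
        fun ω ω' h => ?_
      simp only [alive]
      refine propext (forall_congr' fun a => imp_congr_right fun ha => ?_)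
      rw [h a (mem_insert_of_mem (hnb b a ha)), h b (mem_insert_self _ _)]
    have h2 : ∀ b, Loc fun ω : (V × ℕ) ⊕ A → α × Fin Q => bad b (st vars bad t ω) := by
      intro b
      refine Loc.of_fam (vars b) (fun w _ => loc_st_of t w (ih w)) fun ω ω' h => ?_
      exact propext ⟨hloc b _ _ h, hloc b _ _ fun w hw => (h w hw).symm⟩
    have h3 : ∀ b, Loc fun ω : (V × ℕ) ⊕ A → α × Fin Q => b ∈ RR vars bad Q (tb ω) (co ω) t := by
      intro b
      refine Loc.of_two (Loc.of_two (h1 b) (loc_co (V := V) (α := α) (Q := Q) b)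
        (g := fun ω => alive vars (co ω) b ∧ co ω b = t % Q) fun ω ω' e1 e2 => by
          simp only [e1, e2]) (h2 b) fun ω ω' e1 e2 => ?_
      change (alive vars (co ω) b ∧ co ω b = t % Q ∧ bad b (st vars bad t ω)) =
        (alive vars (co ω') b ∧ co ω' b = t % Q ∧ bad b (st vars bad t ω'))
      rw [← and_assoc, ← and_assoc, e1, e2]
    have h4 : Loc fun ω : (V × ℕ) ⊕ A → α × Fin Q =>
        ∃ b ∈ RR vars bad Q (tb ω) (co ω) t, v ∈ vars b := by
      by_cases hv : ∃ a, v ∈ vars a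
      · obtain ⟨a, ha⟩ := hv
        refine Loc.of_fam (nb a) (fun b _ => h3 b) fun ω ω' h => ?_
        refine propext (exists_congr fun b => and_congr_left fun hb => ?_)
        rw [h b (hnb a b (Finset.not_disjoint_iff.2 ⟨v, ha, hb⟩))]
      · exact ⟨∅, fun _ _ _ => propext ⟨fun ⟨b, _, h⟩ => absurd ⟨b, h⟩ hv,
          fun ⟨b, _, h⟩ => absurd ⟨b, h⟩ hv⟩⟩
    refine Loc.of_two (ih v) h4 fun ω ω' e1 e2 => ?_
    simp only [cnt_succ, e1, e2]

theorem loc_comp (hloc : ∀ a φ ψ, (∀ v ∈ vars a, φ v = ψ v) → bad a φ → bad a ψ)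
    {nb : A → Finset A} (hnb : ∀ a b, ¬Disjoint (vars a) (vars b) → b ∈ nb a) {Q : ℕ} (t : ℕ)
    {γ : Type} {f : (V → α) → γ} (hf : Loc f) :
    Loc fun ω : (V × ℕ) ⊕ A → α × Fin Q => f (st vars bad t ω) := by
  obtain ⟨U, hU⟩ := hf
  exact Loc.of_fam U (fun v _ => loc_st_of t v (loc_cnt hloc hnb t v)) fun ω ω' h => hU _ _ h

variable [Fintype α] [Nonempty α]

theorem ex_perm (hloc : ∀ a φ ψ, (∀ v ∈ vars a, φ v = ψ v) → bad a φ → bad a ψ)
    {nb : A → Finset A} (hnb : ∀ a b, ¬Disjoint (vars a) (vars b) → b ∈ nb a) {Q : ℕ} (t : ℕ)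
    {π : Equiv.Perm V} {σ : Equiv.Perm A} (hv : ∀ a v, π v ∈ vars (σ a) ↔ v ∈ vars a)
    (hb : ∀ a φ, bad (σ a) φ ↔ bad a fun v => φ (π v)) {f : (V → α) → ℝ} (hf : Loc f) :
    Ex (fun ω : (V × ℕ) ⊕ A → α × Fin (Q + 1) => f fun v => st vars bad t ω (π v)) =
      Ex (fun ω : (V × ℕ) ⊕ A → α × Fin (Q + 1) => f (st vars bad t ω)) := by
  let j : (V × ℕ) ⊕ A → (V × ℕ) ⊕ A := Sum.map (fun x => (π x.1, x.2)) σ
  have hj : Function.Injective j := Function.Injective.sumMap
    (fun x y h => Prod.ext (π.injective (Prod.mk.inj h).1) (Prod.mk.inj h).2) σ.injective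
  rw [← Ex_inj (loc_comp hloc hnb t hf) j hj]
  congr 1
  funext ω
  congr 1
  funext v
  simp only [st]
  rw [cnt_perm hv hb]
  rfl

theorem ex_same {Q : ℕ} {a b : A} (h : b ≠ a) :
    Ex (fun ω : (V × ℕ) ⊕ A → α × Fin (Q + 1) => ind (co ω b = co ω a)) = 1 / (Q + 1) := by
  have h1 : (fun ω : (V × ℕ) ⊕ A → α × Fin (Q + 1) => ind (co ω b = co ω a)) =
      fun ω => ∑ x : Fin (Q + 1), ind ((ω (Sum.inr b)).2 = x) * ind ((ω (Sum.inr a)).2 = x) := by
    funext ω
    rw [sum_eq_single (ω (Sum.inr a)).2, ind_pos rfl, mul_one]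
    · exact ind_congr Fin.val_inj
    · intro x _ hx
      rw [ind_neg (Ne.symm hx), mul_zero]
    · simp
  have h2 : ∀ (c : A) (x : Fin (Q + 1)), Dp {Sum.inr c}
      (fun ω : (V × ℕ) ⊕ A → α × Fin (Q + 1) => ind ((ω (Sum.inr c)).2 = x)) :=
    fun c x ω ω' h => by simp only [h _ (mem_singleton_self _)]
  have h3 : ∀ (c : A) (x : Fin (Q + 1)),
      Ex (fun ω : (V × ℕ) ⊕ A → α × Fin (Q + 1) => ind ((ω (Sum.inr c)).2 = x)) =
        1 / (Q + 1) := by
    intro c x
    rw [Ex_coord (Sum.inr c) (fun y : α × Fin (Q + 1) => ind (y.2 = x)), Fintype.sum_prod_type]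
    have h4 : ∑ y : Fin (Q + 1), ind (y = x) = 1 := by
      rw [sum_eq_single x, ind_pos rfl]
      · exact fun y _ hy => ind_neg hy
      · simp
    simp only [h4, sum_const, card_univ, nsmul_eq_mul, mul_one, Fintype.card_prod,
      Fintype.card_fin]
    have : (Fintype.card α : ℝ) ≠ 0 := by exact_mod_cast Fintype.card_ne_zero
    push_cast
    field_simp
  rw [h1, Ex_sum _ fun x _ => Loc.of_two (h2 b x).loc (h2 a x).loc fun ω ω' e1 e2 => by
    simp only [e1, e2]]
  rw [sum_congr rfl fun x _ => Ex_mul (h2 b x) (h2 a x) (by simpa using h)]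
  simp only [h3, sum_const, card_univ, Fintype.card_fin, nsmul_eq_mul]
  push_cast
  field_simp

theorem ex_bad (hloc : ∀ a φ ψ, (∀ v ∈ vars a, φ v = ψ v) → bad a φ → bad a ψ)
    {nb : A → Finset A} (hnb : ∀ a b, ¬Disjoint (vars a) (vars b) → b ∈ nb a) {D : ℕ}
    (hD : ∀ a, (nb a).card ≤ D) {p : ℝ} (hp0 : 0 ≤ p) (h2 : (1 + 2 * p) ^ D ≤ 2)
    (hp : ∀ a, Ex (fun φ => ind (bad a φ)) ≤ p) (hne : ∀ a φ, bad a φ → (vars a).Nonempty)
    (Q n : ℕ) (a : A) :
    ∑ k ∈ range n, Ex (fun ω : (V × ℕ) ⊕ A → α × Fin (Q + 1) =>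
      ind (bad a (st vars bad (k * (Q + 1)) ω))) ≤ n * (D * (1 / (Q + 1))) + D * (2 * p) := by
  have hT : ∀ b, ∀ l ∈ fam vars nb (n * (Q + 1)) {b},
      (Loc fun ω : (V × ℕ) ⊕ A → α × Fin (Q + 1) => ind (Test vars bad (tb ω) ({b} :: l))) ∧
      Ex (fun ω : (V × ℕ) ⊕ A → α × Fin (Q + 1) => ind (Test vars bad (tb ω) ({b} :: l))) ≤
        p * p ^ sz l := by
    intro b l hl
    obtain ⟨U, -, h3, h4⟩ := ex_test hloc hp0 hp ({b} :: l) (by
      intro J hJ
      rcases List.mem_cons.1 hJ with rfl | h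
      · intro x hx y hy hxy
        exact absurd ((mem_singleton.1 hx).trans (mem_singleton.1 hy).symm) hxy
      · exact fam_ind vars nb _ _ l hl J h)
    have h5 : Loc fun ω : V × ℕ → α × Fin (Q + 1) =>
        ind (Test vars bad (fun i => (ω i).1) ({b} :: l)) :=
      ⟨U, fun ω ω' h => h3 _ _ fun i hi => by rw [h i hi]⟩
    refine ⟨h5.comp_inj Sum.inl, ?_⟩
    have h6 := Ex_inj (I := (V × ℕ) ⊕ A) h5 Sum.inl Sum.inl_injective
    rw [Ex_fst h3.loc] at h6
    simp only [sz, card_singleton, pow_add, pow_one] at h4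
    exact h6.le.trans h4
  have hC : ∀ b, Loc fun ω : (V × ℕ) ⊕ A → α × Fin (Q + 1) => ind (co ω b = co ω a) := fun b =>
    Loc.of_two (loc_co b) (loc_co a) fun ω ω' e1 e2 => by simp only [e1, e2]
  have hB : ∀ k, Loc fun ω : (V × ℕ) ⊕ A → α × Fin (Q + 1) =>
      ind (bad a (st vars bad (k * (Q + 1)) ω)) := fun k =>
    loc_comp hloc hnb _ (dep_bad hloc a).loc
  have hL1 := loc_sum ((nb a).erase a) fun b _ => hC b
  have hL1' : Loc fun ω : (V × ℕ) ⊕ A → α × Fin (Q + 1) =>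
      (n : ℝ) * ∑ b ∈ (nb a).erase a, ind (co ω b = co ω a) :=
    hL1.of_one fun ω ω' e => by simp only [e]
  have hL2 := fun b => loc_sum (fam vars nb (n * (Q + 1)) {b}) fun l hl => (hT b l hl).1
  have hL3 := loc_sum (nb a) fun b _ => hL2 b
  rw [← Ex_sum _ fun k _ => hB k]
  refine (Ex_mono (loc_sum _ fun k _ => hB k) (Loc.of_two hL1' hL3 fun ω ω' e1 e2 => by
    simp only [e1, e2]) fun ω =>
    point hloc hnb (tb ω) (co ω) a (ω (Sum.inr a)).2.2 hne n).trans ?_
  rw [Ex_add hL1' hL3, Ex_smul _ hL1, Ex_sum _ fun b _ => hC b, Ex_sum _ fun b _ => hL2 b]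
  have hDa : ((nb a).card : ℝ) ≤ D := by exact_mod_cast hD a
  refine add_le_add (mul_le_mul_of_nonneg_left ?_ (Nat.cast_nonneg _)) ?_
  · rw [sum_congr rfl fun b hb => ex_same (mem_erase.1 hb).1, sum_const, nsmul_eq_mul]
    refine mul_le_mul_of_nonneg_right (le_trans ?_ hDa) (by positivity)
    exact_mod_cast card_erase_le
  · refine (sum_le_sum (g := fun _ => 2 * p) fun b _ => ?_).trans ?_
    · rw [Ex_sum _ fun l hl => (hT b l hl).1]
      refine (sum_le_sum fun l hl => (hT b l hl).2).trans ?_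
      rw [← mul_sum, mul_comm]
      have := sum_fam vars nb hD hp0 h2 (n * (Q + 1)) {b}
      rw [card_singleton, pow_one] at this
      exact mul_le_mul_of_nonneg_right this hp0
    · rw [sum_const, nsmul_eq_mul]
      exact mul_le_mul_of_nonneg_right hDa (by positivity)

variable (vars bad) in
/-- The time average of the law of the state. -/
noncomputable def mu (n : ℕ) (f : (V → α) → ℝ) : ℝ :=
  (∑ k ∈ range (n + 1), Ex (fun ω : (V × ℕ) ⊕ A → α × Fin (n + 1) =>
    f (st vars bad (k * (n + 1)) ω))) / (n + 1)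

/-- An invariant mean that vanishes on all the events. -/
theorem exists_mean (hloc : ∀ a φ ψ, (∀ v ∈ vars a, φ v = ψ v) → bad a φ → bad a ψ)
    {nb : A → Finset A} (hnb : ∀ a b, ¬Disjoint (vars a) (vars b) → b ∈ nb a) {D : ℕ}
    (hD : ∀ a, (nb a).card ≤ D) {p : ℝ} (hp0 : 0 ≤ p) (h2 : (1 + 2 * p) ^ D ≤ 2)
    (hp : ∀ a, Ex (fun φ => ind (bad a φ)) ≤ p) (hne : ∀ a φ, bad a φ → (vars a).Nonempty) :
    ∃ μ : ((V → α) → ℝ) →ₗ[ℝ] ℝ, μ 1 = 1 ∧
      (∀ (π : Equiv.Perm V) (σ : Equiv.Perm A), (∀ a v, π v ∈ vars (σ a) ↔ v ∈ vars a) →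
        (∀ a φ, bad (σ a) φ ↔ bad a fun v => φ (π v)) →
        ∀ f, Loc f → μ (fun φ => f fun v => φ (π v)) = μ f) ∧
      ∀ f, Loc f → ∀ F : Finset A, (∀ φ, 0 ≤ f φ ∧ f φ ≤ ∑ a ∈ F, ind (bad a φ)) → μ f = 0 := by
  have hadd : ∀ n (f g : (V → α) → ℝ), Loc f → Loc g →
      mu vars bad n (f + g) = mu vars bad n f + mu vars bad n g := by
    intro n f g hf hg
    simp only [mu, Pi.add_apply]
    rw [← add_div, ← sum_add_distrib]
    congr 1
    exact sum_congr rfl fun k _ => Ex_add (loc_comp hloc hnb _ hf) (loc_comp hloc hnb _ hg)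
  have hsmul : ∀ n (c : ℝ) (f : (V → α) → ℝ), Loc f →
      mu vars bad n (c • f) = c * mu vars bad n f := by
    intro n c f hf
    simp only [mu, Pi.smul_apply, smul_eq_mul]
    rw [← mul_div_assoc, mul_sum]
    congr 1
    exact sum_congr rfl fun k _ => Ex_smul c (loc_comp hloc hnb _ hf)
  have hconst : ∀ n (c : ℝ), mu vars bad n (fun _ => c) = c := by
    intro n c
    simp only [mu, Ex_const, sum_const, card_range, nsmul_eq_mul]
    push_cast
    field_simp
  let K : Submodule ℝ ((V → α) → ℝ) :=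
    { carrier := {g | Loc g ∧ Tendsto (fun n => mu vars bad n g) atTop (𝓝 0)}
      add_mem' := by
        rintro f g ⟨hf, hf'⟩ ⟨hg, hg'⟩
        refine ⟨Loc.of_two hf hg fun _ _ e1 e2 => by simp only [Pi.add_apply, e1, e2], ?_⟩
        simp only [fun n => hadd n f g hf hg]
        simpa using hf'.add hg'
      zero_mem' := ⟨loc_const 0, by
        have : (fun n => mu vars bad n (0 : (V → α) → ℝ)) = fun _ => 0 :=
          funext fun n => hconst n 0
        rw [this]
        exact tendsto_const_nhds⟩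
      smul_mem' := by
        rintro c f ⟨hf, hf'⟩
        refine ⟨hf.of_one fun _ _ e => by simp only [Pi.smul_apply, e], ?_⟩
        simp only [fun n => hsmul n c f hf]
        simpa using hf'.const_mul c }
  have h1 : (1 : (V → α) → ℝ) ∉ K := by
    rintro ⟨-, h⟩
    have : (fun n => mu vars bad n (1 : (V → α) → ℝ)) = fun _ => 1 := funext fun n => hconst n 1
    rw [this] at h
    exact one_ne_zero (tendsto_nhds_unique tendsto_const_nhds h)
  obtain ⟨φ, hφ, hK⟩ := K.exists_dual_map_eq_bot_of_notMem h1 inferInstance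
  have hK' : ∀ g ∈ K, φ g = 0 := fun g hg => by
    have : φ g ∈ K.map φ := Submodule.mem_map_of_mem hg
    rwa [hK, Submodule.mem_bot] at this
  refine ⟨(φ 1)⁻¹ • φ, by simp [hφ], ?_, ?_⟩
  · intro π σ hv hb f hf
    have hf' : Loc fun φ : V → α => f fun v => φ (π v) := hf.comp_inj π
    have hf2 : Loc ((-1 : ℝ) • f) := hf.of_one fun _ _ e => by simp only [Pi.smul_apply, e]
    have := hK' ((fun φ : V → α => f fun v => φ (π v)) + (-1 : ℝ) • f)
      ⟨Loc.of_two hf' hf2 fun _ _ e1 e2 => by simp only [Pi.add_apply, e1, e2], by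
        have : (fun n => mu vars bad n ((fun φ : V → α => f fun v => φ (π v)) + (-1 : ℝ) • f)) =
            fun _ => 0 := by
          funext n
          rw [hadd n _ _ hf' hf2, hsmul n _ _ hf]
          simp only [mu]
          rw [sum_congr rfl fun k _ => ex_perm hloc hnb _ hv hb hf]
          ring
        rw [this]
        exact tendsto_const_nhds⟩
    rw [map_add, map_smul, smul_eq_mul] at this
    simp only [LinearMap.smul_apply, smul_eq_mul]
    congr 1
    linarith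
  · intro f hf F h
    simp only [LinearMap.smul_apply, smul_eq_mul]
    rw [hK' f ⟨hf, ?_⟩, mul_zero]
    have hlim : Tendsto (fun n : ℕ => (F.card * (D + D * (2 * p)) : ℝ) * (1 / ((n : ℝ) + 1)))
        atTop (𝓝 0) := by
      simpa using tendsto_one_div_add_atTop_nhds_zero_nat.const_mul
        (F.card * (D + D * (2 * p)) : ℝ)
    refine squeeze_zero (fun n => ?_) (fun n => ?_) hlim
    · exact div_nonneg (sum_nonneg fun k _ =>
        Ex_nonneg (loc_comp hloc hnb _ hf) fun ω => (h _).1) (by positivity)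
    · simp only [mu]
      rw [mul_one_div]
      refine div_le_div_of_nonneg_right ?_ (by positivity)
      have hB : ∀ a k, Loc fun ω : (V × ℕ) ⊕ A → α × Fin (n + 1) =>
          ind (bad a (st vars bad (k * (n + 1)) ω)) := fun a k =>
        loc_comp hloc hnb _ (dep_bad hloc a).loc
      refine (sum_le_sum fun k _ => (Ex_mono (loc_comp hloc hnb _ hf)
        (loc_sum F fun a _ => hB a k) fun ω => (h _).2).trans
        (Ex_sum F fun a _ => hB a k).le).trans ?_
      rw [sum_comm]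
      refine (sum_le_sum fun a _ => ex_bad hloc hnb hD hp0 h2 hp hne n (n + 1) a).trans ?_
      rw [sum_const, nsmul_eq_mul]
      refine le_of_eq ?_
      push_cast
      field_simp

theorem pow_le_two (D : ℕ) : (1 + 2 * (1 / (4 * (D : ℝ) ^ 2))) ^ (D * D) ≤ 2 := by
  rcases Nat.eq_zero_or_pos D with rfl | hD
  · simp
  have hD' : (0 : ℝ) < D := by exact_mod_cast hD
  have h1 : (1 + 2 * (1 / (4 * (D : ℝ) ^ 2))) ^ (D * D) ≤
      Real.exp (2 * (1 / (4 * (D : ℝ) ^ 2))) ^ (D * D) := by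
    apply pow_le_pow_left₀ (by positivity)
    have := Real.add_one_le_exp (2 * (1 / (4 * (D : ℝ) ^ 2)))
    linarith
  have h2 : Real.exp (2 * (1 / (4 * (D : ℝ) ^ 2))) ^ (D * D) = Real.exp (1 / 2) := by
    rw [← Real.exp_nat_mul]
    congr 1
    push_cast
    field_simp
    norm_num
  have h3 : Real.exp (1 / 2) * Real.exp (1 / 2) = Real.exp 1 := by
    rw [← Real.exp_add]
    norm_num
  have h4 := Real.exp_one_lt_d9
  have h5 := Real.exp_pos (1 / 2)
  nlinarith

end MT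

open MT MT.Wit in
theorem real_mean {K Ω Y : Type} [Fintype Ω] [Nonempty Ω] (e : Y → Finset K)
    (Bad : Y → Set (K → Ω)) (D : ℕ) (hne : ∀ y, (e y).Nonempty) (hcard : ∀ y, (e y).card ≤ D)
    (hdeg : ∀ v, ∃ Z : Finset Y, Z.card ≤ D ∧ ∀ y, v ∈ e y → ∃ z ∈ Z, e y = e z ∧ Bad y = Bad z)
    (hdep : ∀ y, Dep (e y) (Bad y)) (hp : ∀ y, Small (e y) (Bad y) (1 / (4 * (D : ℝ) ^ 2))) :
    ∃ φ : Set (K → Ω) → ℝ, Mean Set.univ {π | Sym e Bad π} φ ∧
      ∀ B s, Dep B s → (∀ x ∈ s, ∃ y, e y ⊆ B ∧ x ∈ Bad y) → φ s = 0 := by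
  choose Z hZ hZ' using hdeg
  let A : Type := {q : Finset K × Set (K → Ω) // ∃ y, q = (e y, Bad y)}
  let mk : Y → A := fun y => ⟨(e y, Bad y), y, rfl⟩
  let vars : A → Finset K := fun a => a.1.1
  let bad : A → (K → Ω) → Prop := fun a x => x ∈ a.1.2
  let nbs : Finset K → Finset A := fun B => B.biUnion fun v => (Z v).image mk
  have hmk : ∀ a : A, ∃ y, a = mk y := fun a => a.2.imp fun y hy => Subtype.ext hy
  have hnbs : ∀ B y v, v ∈ B → v ∈ e y → mk y ∈ nbs B := by
    intro B y v h1 h2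
    obtain ⟨z, h3, h4, h5⟩ := hZ' v y h2
    exact mem_biUnion.2 ⟨v, h1, mem_image.2 ⟨z, h3, Subtype.ext (Prod.ext h4.symm h5.symm)⟩⟩
  have hl : ∀ B (s : Set (K → Ω)), Dep B s → Dp B fun x => ind (x ∈ s) := fun B s h x y hxy =>
    ind_congr ⟨h x y hxy, h y x fun v hv => (hxy v hv).symm⟩
  obtain ⟨μ, h1, h2, h3⟩ := exists_mean (vars := vars) (bad := bad)
    (nb := fun a => nbs (vars a)) (D := D * D) (p := 1 / (4 * (D : ℝ) ^ 2))
    (by
      intro a
      obtain ⟨y, rfl⟩ := hmk a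
      exact hdep y)
    (by
      intro a b h
      obtain ⟨y, rfl⟩ := hmk b
      obtain ⟨v, h1, h2⟩ := Finset.not_disjoint_iff.1 h
      exact hnbs _ y v h1 h2)
    (by
      intro a
      obtain ⟨y, rfl⟩ := hmk a
      refine card_biUnion_le.trans ((sum_le_sum fun v _ => card_image_le.trans (hZ v)).trans ?_)
      rw [sum_const, smul_eq_mul]
      exact Nat.mul_le_mul_right _ (hcard y))
    (by positivity) (pow_le_two D)
    (by
      intro a
      obtain ⟨y, rfl⟩ := hmk a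
      change Ex (fun x => ind (x ∈ Bad y)) ≤ _
      rw [Ex_eq (hl _ _ (hdep y))]
      unfold avg
      rw [fav_def (e y) Ω inferInstance, div_le_iff₀ (by exact_mod_cast Fintype.card_pos)]
      refine le_trans ?_ (hp y)
      simp only [ind, sum_boole]
      refine Nat.cast_le.2 (card_le_card fun ψ hψ => ?_)
      rw [mem_filter] at hψ ⊢
      exact ⟨mem_univ _, _, hψ.2, fun v => ext_mem ψ v.2⟩)
    (by
      intro a _ _
      obtain ⟨y, rfl⟩ := hmk a
      exact hne y)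
  refine ⟨fun s => μ fun x => ind (x ∈ s), ⟨?_, ?_, ?_⟩, ?_⟩
  · rw [← h1]
    congr 1
    funext x
    exact ind_pos (Set.mem_univ x)
  · intro _ _ s t _ _ h
    rw [← map_add]
    congr 1
    funext x
    by_cases hs : x ∈ s
    · rw [Pi.add_apply, ind_pos (Set.mem_union_left _ hs), ind_pos hs,
        ind_neg (Set.disjoint_left.1 h hs), add_zero]
    · rw [Pi.add_apply, ind_neg hs, zero_add]
      exact ind_congr ⟨fun h => h.resolve_left hs, Or.inr⟩
  · intro B _ π hπ s hs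
    let σ : A → A := fun a => ⟨(a.1.1.map π.toEmbedding, (fun x => x ∘ π) ⁻¹' a.1.2), by
      obtain ⟨y, rfl⟩ := hmk a
      obtain ⟨y', h4, h5⟩ := hπ.1 y
      exact ⟨y', Prod.ext h4.symm h5.symm⟩⟩
    have hσ : Function.Bijective σ := by
      constructor
      · intro a b h
        have h4 := congrArg Subtype.val h
        have h5 : Function.Surjective fun x : K → Ω => x ∘ π := fun x =>
          ⟨x ∘ π.symm, funext fun v => by simp⟩
        have h6 : (fun x : K → Ω => x ∘ π) ⁻¹' a.1.2 = (fun x : K → Ω => x ∘ π) ⁻¹' b.1.2 :=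
          congrArg Prod.snd h4
        exact Subtype.ext (Prod.ext (Finset.map_injective _ (congrArg Prod.fst h4))
          (Set.preimage_injective.2 h5 h6))
      · intro b
        obtain ⟨y', rfl⟩ := hmk b
        obtain ⟨y, h4, h5⟩ := hπ.2 y'
        exact ⟨mk y, Subtype.ext (Prod.ext h4.symm h5.symm)⟩
    exact h2 π (Equiv.ofBijective σ hσ) (fun a v => mem_map' _) (fun a x => Iff.rfl) _
      (hl B s hs).loc
  · intro B s hs h
    refine h3 _ (hl B s hs).loc (nbs B) fun x => ⟨ind_nonneg _, ?_⟩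
    by_cases hx : x ∈ s
    · obtain ⟨y, h4, h5⟩ := h x hx
      obtain ⟨v, hv⟩ := hne y
      rw [ind_pos hx, ← ind_pos (show bad (mk y) x from h5)]
      exact single_le_sum (f := fun a => ind (bad a x)) (fun _ _ => ind_nonneg _)
        (hnbs B y v (h4 hv) hv)
    · rw [ind_neg hx]
      exact sum_nonneg fun _ _ => ind_nonneg _

end Pool.Agent.Lib.MP_7903c7_al.C0
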