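import Pool.Agent.Lib.MP_7903c7_al.C0.Defs
import Pool.Agent.Lib.MP_7903c7_al.RF.Sys1

set_option autoImplicit false

/-!
The first system of circle valued functions, with the labels as an argument.
-/

namespace Pool.Agent.Lib.MP_7903c7_al.C0

open Finset RF
open scoped Classical Pointwise

namespace Sys1z

open Sys1

variable {G : Type} [Group G] {g : G} {C : Subgroup G} {S : Finset G} {T r0 Δ I0 : ℕ}
  (X : Geo g C S (4 * T) r0 Δ I0) {n0 L : ℕ} {γ : ℤ → G} {δ δ' : X.K → ℝ}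

theorem unseen (hn0 : 0 < n0) {κ : X.K} (h : ¬ ∃ t, X.phi κ (γ t) ≠ 0) (σ : ℤ) :
    ph X n0 γ κ σ = 0 := by
  have e : (fun t => X.phi κ (γ t)) = fun _ => (0 : ℝ) :=
    funext fun t => by_contra fun h1 => h ⟨t, h1⟩
  rw [ph, e, Fw_const n0 T hn0, zero_mul]

theorem top_le (hn0 : 0 < n0) (hL : 0 < L) (h : Good g S (L * n0) L γ)
    (hδ : ∀ κ, δ κ ≤ (T : ℝ) * T / 2) (h0' : ∀ κ, 0 ≤ δ' κ) (hδ' : ∀ κ, δ' κ ≤ (T : ℝ) * T / 2)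
    (e : ∀ κ t, X.phi κ (γ t) ≠ 0 → δ κ = δ' κ) :
    top (ph X n0 γ) δ ≤ top (ph X n0 γ) δ' := by
  have : Nonempty X.K := ⟨(X.phi_top 1).choose⟩
  refine ciSup_le fun q => ?_
  by_cases h1 : ∃ t, X.phi q.1 (γ t) ≠ 0
  · rw [e _ _ h1.choose_spec]
    exact le_top X hn0 γ hδ' _ _
  · have h2 := top_ge X hn0 hL h h0' hδ'
    have h3 := hδ q.1
    have h4 : (0 : ℝ) ≤ (T : ℝ) * T := by positivity
    rw [unseen X hn0 h1]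
    linarith

/-- The coefficients depend only on the labels of the components seen by the loop. -/
theorem loc (hn0 : 0 < n0) (hL : 0 < L) (h : Good g S (L * n0) L γ) (h0 : ∀ κ, 0 ≤ δ κ)
    (hδ : ∀ κ, δ κ ≤ (T : ℝ) * T / 2) (h0' : ∀ κ, 0 ≤ δ' κ) (hδ' : ∀ κ, δ' κ ≤ (T : ℝ) * T / 2)
    {ρ : ℝ} (hρ : ρ ≤ (T : ℝ) * T / 2) (e : ∀ κ t, X.phi κ (γ t) ≠ 0 → δ κ = δ' κ) (N : ℕ)
    (a0 : ℝ) (j : ℤ) : nu1 N a0 ρ (ph X n0 γ) δ j = nu1 N a0 ρ (ph X n0 γ) δ' j := by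
  have ht : top (ph X n0 γ) δ = top (ph X n0 γ) δ' :=
    le_antisymm (top_le X hn0 hL h hδ h0' hδ' e)
      (top_le X hn0 hL h hδ' h0 hδ fun κ t h1 => (e κ t h1).symm)
  have hw : wt ρ (ph X n0 γ) δ = wt ρ (ph X n0 γ) δ' := by
    funext κ σ
    unfold wt
    rw [ht]
    by_cases h1 : ∃ t, X.phi κ (γ t) ≠ 0
    · rw [e _ _ h1.choose_spec]
    · have h2 := top_ge X hn0 hL h h0' hδ'
      have h3 := hδ κ
      have h4 := hδ' κ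
      have h5 : (0 : ℝ) ≤ (T : ℝ) * T := by positivity
      rw [unseen X hn0 h1, max_eq_left (by linarith), max_eq_left (by linarith)]
  unfold nu1
  rw [hw]

end Sys1z

variable {G : Type} [Group G]

open Sys1 in
theorem sys1z {Ω : Type} (g : G) (S : Finset G) (n Δ : ℕ) (hn : 0 < n) (h16 : 16 ∣ n)
    (X : Geo0 g S (4 * n ^ 3) Δ) (lab : Ω → ℝ) (hlab : ∀ ω, 0 ≤ lab ω ∧ lab ω ≤ (n : ℝ) ^ 6 / 2)
    (θ : ℝ) (hθ : 0 < θ) (L n1 m : ℕ) (hL : 4 * n ^ 3 ≤ L) (hn1 : 2000 * θ * L ≤ n1) :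
    ∃ n00 : ℕ, ∀ n0 ≥ n00, ∃ F : ℤ → (X.K → Ω) → (ℤ → G) → ℂ,
      (∀ j x γ, ∀ c ∈ Subgroup.centralizer ({g} : Set G),
        F j x (fun t => c * γ t) = F j (x ∘ X.act c) γ) ∧
      (∀ j x γ, IsLoop g (L * n0) γ →
        F j x (fun t => γ (t - 1)) = ee ((j : ℝ) / (L * n0 : ℕ)) * F j x γ) ∧
      (∀ j x x' γ, Good g S (L * n0) L γ → (∀ κ t, X.phi κ (γ t) ≠ 0 → x κ = x' κ) →
        F j x γ = F j x' γ) ∧
      ∀ x γ, Good g S (L * n0) L γ → (∀ t, x ∉ BadSet g S X.phi lab θ n L n0 (γ t)) →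
        (∀ κ, pers (Fw n0 (n ^ 3) fun t => X.phi κ (γ t)) ≤ (n : ℝ) ^ 6 / 8) →
        ∃ j ∈ Icc (1 : ℤ) (2 * n1 - 1), Fine g S (L * n0) L m (fun _ => j) (F j x) γ := by
  revert X
  intro Y
  have hT : 0 < n ^ 3 := by positivity
  have hL0 : 0 < L := by omega
  have hL2 : 2 * n ^ 3 ≤ L := by omega
  have hnR : (16 : ℝ) ≤ n := by exact_mod_cast Nat.le_of_dvd hn h16
  have hLR : (1 : ℝ) ≤ L := by exact_mod_cast hL0
  have hn1R : (0 : ℝ) < n1 := lt_of_lt_of_le (by positivity) hn1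
  have hn10 : 0 < n1 := by exact_mod_cast hn1R
  obtain ⟨e, he⟩ : ∃ e : ℝ, e = L * (8 * Δ) * (m * (4 * (n ^ 3 : ℕ))) *
    (2 + (n : ℝ) ^ 2 * (2 * Real.pi * (2 * n1) / ((n : ℝ) ^ 6 / 4))) := ⟨_, rfl⟩
  obtain ⟨n00, hn00⟩ := exists_nat_gt (3 * e * (128 * n1))
  refine ⟨n00 + (L + 1), fun n0 hn0 => ?_⟩
  have hn00' : 0 < n0 := by omega
  have hn0R : (0 : ℝ) < n0 := by exact_mod_cast hn00'
  have hN : 0 < L * n0 := Nat.mul_pos hL0 hn00'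
  have hTT : ((n ^ 3 : ℕ) : ℝ) * (n ^ 3 : ℕ) = (n : ℝ) ^ 6 := by push_cast; ring
  have h0' : ∀ (x : Y.K → Ω) κ, 0 ≤ lab (x κ) := fun x κ => (hlab _).1
  have hδ : ∀ (x : Y.K → Ω) κ, lab (x κ) ≤ ((n ^ 3 : ℕ) : ℝ) * (n ^ 3 : ℕ) / 2 :=
    fun x κ => hTT ▸ (hlab _).2
  have hρ : (n : ℝ) ^ 2 ≤ ((n ^ 3 : ℕ) : ℝ) * (n ^ 3 : ℕ) / 2 := by
    have h4 : (2 : ℝ) ≤ (n : ℝ) ^ 4 := le_trans (by norm_num) (pow_le_pow_left₀ (by norm_num) hnR 4)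
    rw [hTT]
    nlinarith [mul_le_mul_of_nonneg_left h4 (sq_nonneg (n : ℝ))]
  refine ⟨fun j x γ => nu1 (L * n0) ((n : ℝ) ^ 6 / 4) ((n : ℝ) ^ 2) (ph Y.toGeo n0 γ)
    (fun κ => lab (x κ)) j, fun j x γ c hc => ?_, fun j x γ hγ => ?_,
    fun j x x' γ hγ hx => Sys1z.loc Y.toGeo hn00' hL0 hγ (h0' x) (hδ x) (h0' x') (hδ x') hρ
      (fun κ t h => congrArg lab (hx κ t h)) _ _ j, fun x γ hγ hbad hpers => ?_⟩
  · show nu1 _ _ _ (ph Y.toGeo n0 fun t => c * γ t) (fun κ => lab (x κ)) j = _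
    rw [← nu1_perm _ _ _ _ _ j (Y.act c)]
    simp only [ph, Y.phi_act' c hc, Function.comp_apply]
  · rw [← nu1_shift _ hN _ _ _ _ j (ph_per Y.toGeo hγ)]
    show nu1 _ _ _ (ph Y.toGeo n0 fun t => γ (t - 1)) (fun κ => lab (x κ)) j = _
    congr 1
    funext κ σ
    exact Fw_shift n0 _ (fun t => Y.phi κ (γ t)) σ (-1)
  have h0 := h0' x
  have hδ' := hδ x
  generalize Y.toGeo = X at *
  have : Nonempty X.K := ⟨(X.phi_top 1).choose⟩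
  have hn6 : (0 : ℝ) < (n : ℝ) ^ 6 := by positivity
  have ha : 4 * ((n ^ 3 : ℕ) : ℝ) * (n ^ 3 : ℕ) / 16 = (n : ℝ) ^ 6 / 4 := by push_cast; ring
  obtain ⟨ℓ, hℓ⟩ := hγ.2
  obtain ⟨Z, hZ, hZ'⟩ := groups n0 (n ^ 3) L hn00' hT (Dvd.dvd.pow h16 (by norm_num)) hL2
    (R := 4 * ((n ^ 3 : ℕ) : ℝ)) (ρ := (n : ℝ) ^ 2) (θ := θ) (by positivity) hθ.le (by linarith)
    (fun κ t => X.phi κ (γ t)) (fun κ => lab (x κ)) ℓ (fun κ t => X.phi_nonneg κ _)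
    (fun κ t => phi_le' X κ _) (phi_per X hγ.1) (fun κ => by linarith [hδ' κ]) hℓ.1 hℓ.2.2
    (by linarith [top_ge X hn00' hL0 hγ h0 hδ'])
    (fun κ => by
      obtain ⟨σ, hσ⟩ := exists_lt_of_ciInf_lt ((hpers κ).trans_lt (by linarith :
        (n : ℝ) ^ 6 / 8 < (n : ℝ) ^ 6 / 4))
      exact ⟨σ, ha ▸ hσ.le⟩)
    (fun t0 A hA => by
      have := not_lt.1 fun hc => hbad t0 ⟨γ, ℓ, t0, _, A, hγ.1, hℓ, rfl,
        fun κ σ _ => le_top X hn00' γ hδ' κ σ, fun κ hκ => by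
          obtain ⟨a1, σ, a2, a3⟩ := hA κ hκ
          exact ⟨a1, σ, by exact_mod_cast a2, wt_lt a3⟩, hc⟩
      exact_mod_cast this)
  rw [ha] at hZ'
  obtain ⟨j, hj, hlow⟩ := nu1_lower (L * n0) n1 hN hn10 (a0 := (n : ℝ) ^ 6 / 4)
    (ρ := (n : ℝ) ^ 2) (lam := 2 * (4 * ((n ^ 3 : ℕ) : ℝ)) / n0) (by positivity) (by positivity)
    (by
      have h2 : (n : ℝ) ^ 2 / (4 * (2 * (4 * ((n ^ 3 : ℕ) : ℝ)) / n0)) = n0 / (32 * n) := by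
        push_cast
        field_simp
        ring
      rw [h2, div_lt_iff₀ (by positivity)]
      push_cast
      nlinarith [mul_le_mul hLR hnR (by norm_num) (by linarith)])
    (ph X n0 γ) (fun κ => lab (x κ)) (le_top X hn00' γ hδ') (ph_per X hγ.1)
    (fun κ σ => Fw_lip n0 (n ^ 3) (fun t => X.phi_nonneg κ _) (fun t => phi_le' X κ _) σ)
    (fun σ => (few X hn00' hL0 hT hγ h0 hδ' hρ σ).imp fun _ h => h.2) Z
    (by exact_mod_cast hZ.trans hn1) hZ'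
  refine ⟨j, hj, fun γ' γ'' h' h'' hn' hn'' => ⟨rfl, ?_⟩⟩
  have hjb : |(j : ℝ)| ≤ 2 * n1 := by
    rw [mem_Icc] at hj
    have h2 : |j| ≤ 2 * n1 := abs_le.2 ⟨by omega, by omega⟩
    exact_mod_cast h2
  have h3 : ((n : ℝ) ^ 2) ^ 2 / (8 * (2 * (4 * ((n ^ 3 : ℕ) : ℝ)) / n0)) = n * n0 / 64 := by
    push_cast
    field_simp
    ring
  have h4 : (n00 : ℝ) ≤ n0 := by exact_mod_cast (by omega : n00 ≤ n0)
  rw [h3] at hlow
  refine re_pos' (e := e) ?_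
    (he ▸ cont X hn00' hT hL2 hγ h' hn' (by positivity) (by positivity) h0 hδ' hρ hjb)
    (he ▸ cont X hn00' hT hL2 hγ h'' hn'' (by positivity) (by positivity) h0 hδ' hρ hjb)
  refine lt_of_mul_lt_mul_right ?_ (by positivity : (0 : ℝ) ≤ 128 * n1)
  nlinarith [mul_le_mul_of_nonneg_right hnR hn0R.le]

end Pool.Agent.Lib.MP_7903c7_al.C0
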