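import Pool.Agent.Lib.MP_7903c7_al.C0.Defs
import Pool.Agent.Lib.MP_7903c7_al.RF.Sys3

/-!
The product of the phases of the persistent components.
-/

namespace Pool.Agent.Lib.MP_7903c7_al.C0

open Finset RF
open scoped Classical Pointwise

namespace S3z

open RF.S3 RF.XiA

/-- The average phase. -/
noncomputable def av (N : ℕ) (f η : ℤ → ℝ) : ℝ :=
  (∑ t ∈ range N, f t * (η t - (t : ℝ) / N)) / ∑ t ∈ range N, f t

theorem av_shift (N : ℕ) (hN : 0 < N) (f η : ℤ → ℝ) (hp : ∀ t, f (t + N) = f t)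
    (hη : ∀ t, f t ≠ 0 → η (t + N) = η t + 1) (hS0 : ∑ t ∈ range N, f t ≠ 0) :
    av N (fun t => f (t - 1)) (fun t => η (t - 1)) = av N f η - 1 / N := by
  have hN' : (N : ℝ) ≠ 0 := by exact_mod_cast hN.ne'
  have e1 : ∑ t ∈ range N, f ((t : ℤ) - 1) = ∑ t ∈ range N, f t := per_sum N f (hp _)
  have e2 : ∑ t ∈ range N, f ((t : ℤ) - 1) * (η ((t : ℤ) - 1) - (((t : ℤ) - 1 : ℤ) : ℝ) / N) =
      ∑ t ∈ range N, f t * (η t - ((t : ℤ) : ℝ) / N) :=
    per_sum N (fun t => f t * (η t - (t : ℝ) / N)) (by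
      by_cases h : f (-1) = 0
      · simp only [hp, h, zero_mul]
      · simp only [hp, hη _ h]; push_cast; field_simp; ring)
  unfold av
  simp only [e1]
  have e3 : ∑ t ∈ range N, f ((t : ℤ) - 1) * (η ((t : ℤ) - 1) - (t : ℝ) / N) =
      ∑ t ∈ range N, f t * (η t - (t : ℝ) / N) - (∑ t ∈ range N, f t) / N := by
    rw [← e1, sum_div]
    simp only [Int.cast_natCast] at e2
    rw [← e2, ← sum_sub_distrib]
    exact sum_congr rfl fun t _ => by push_cast; ring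
  rw [e3, sub_div, div_right_comm, div_self hS0]

theorem av_add (N : ℕ) (f η η' : ℤ → ℝ) (a : ℝ) (h : ∀ t, f t ≠ 0 → η' t = η t + a)
    (hS0 : ∑ t ∈ range N, f t ≠ 0) : av N f η' = av N f η + a := by
  unfold av
  have e : ∑ t ∈ range N, f t * (η' t - (t : ℝ) / N) =
      ∑ t ∈ range N, f t * (η t - (t : ℝ) / N) + a * ∑ t ∈ range N, f t := by
    rw [mul_sum, ← sum_add_distrib]
    refine sum_congr rfl fun s _ => ?_
    by_cases hs : f s = 0
    · simp [hs]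
    · rw [h s hs]; ring
  rw [e]
  field_simp

theorem av_cont (N k : ℕ) (f f' η η' : ℤ → ℝ) {R c Cη : ℝ} (hc : 0 < c) (hR0 : 0 < R)
    (hC : 0 ≤ Cη) (h0 : ∀ t, 0 ≤ f t) (hR : ∀ t, f t ≤ R) (h0' : ∀ t, 0 ≤ f' t)
    (hR' : ∀ t, f' t ≤ R) (hs : c * N * R ≤ ∑ t ∈ range N, f t) (hk : (k : ℝ) < c * N)
    (hn : Near N k (fun t => (f t, η t)) (fun t => (f' t, η' t)))
    (hη : ∀ t ∈ range N, ∀ t' ∈ range N, f t ≠ 0 → f t' ≠ 0 → |η t - η t'| ≤ Cη)
    (hη' : ∀ t ∈ range N, ∀ t' ∈ range N, f' t ≠ 0 → f' t' ≠ 0 → |η' t - η' t'| ≤ Cη) :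
    |av N f η - av N f' η'| ≤ 3 * k * (Cη + 1) / (c * N) := by
  obtain ⟨B, hn, hb⟩ : ∃ B : Finset ℕ, B.card ≤ k ∧
      ∀ t ∈ range N, t ∉ B → f' t = f t ∧ η' t = η t := by
    refine ⟨_, hn, fun t ht h => ?_⟩
    have : (f t, η t) = (f' t, η' t) := by
      by_contra hc
      simp only [mem_filter] at h
      exact h ⟨ht, hc⟩
    exact ⟨(congrArg Prod.fst this).symm, (congrArg Prod.snd this).symm⟩
  have hk0 : (0 : ℝ) ≤ k := Nat.cast_nonneg k
  have hN : (0 : ℝ) < N := (pos_iff_pos_of_mul_pos (hk0.trans_lt hk)).1 hc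
  have hkR : (k : ℝ) * R < c * N * R := mul_lt_mul_of_pos_right hk hR0
  obtain ⟨t0, ht0, hB0, hf0⟩ : ∃ t0 ∈ range N, t0 ∉ B ∧ f t0 ≠ 0 := by
    by_contra hcon
    push Not at hcon
    have := sum_diff (N := N) hn (fun t : ℕ => f t) (fun _ => 0) hR0.le (fun _ _ => le_rfl)
      (fun t _ _ => by rw [Real.norm_eq_abs, abs_of_nonneg (h0 _)]; exact hR _)
      (fun t ht h => by rw [hcon t ht h]; simp)
    rw [Real.norm_eq_abs, sum_const_zero, add_zero] at this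
    linarith [le_abs_self (∑ t ∈ range N, f t)]
  unfold av
  set S := ∑ t ∈ range N, f t with hS
  set S' := ∑ t ∈ range N, f' t with hS'
  set A := ∑ t ∈ range N, f t * (η t - (t : ℝ) / N) with hA
  set A' := ∑ t ∈ range N, f' t * (η' t - (t : ℝ) / N) with hA'
  have hS0 : 0 < S := lt_of_lt_of_le (by positivity) hs
  have dS : |S - S'| ≤ k * R := by
    have := sum_diff (N := N) hn (fun t : ℕ => f t - f' t) (fun _ => 0) hR0.le (fun _ _ => le_rfl)
      (fun t _ _ => by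
        rw [Real.norm_eq_abs, abs_le]; constructor <;> linarith [h0 t, hR t, h0' t, hR' t])
      (fun t ht h => by rw [(hb t ht h).1]; simp)
    simpa [sum_sub_distrib] using this
  have hS0' : 0 < S' := by linarith [(abs_le.1 dS).2]
  have key : S * |A / S - A' / S'| ≤ 3 * (k * R) * (Cη + 1) := by
    obtain ⟨q1, q2⟩ := hb t0 ht0 hB0
    have bd : ∀ (u θ : ℤ → ℝ), (∀ t, 0 ≤ u t) →
        (∀ t ∈ range N, u t ≠ 0 → |θ t - η t0| ≤ Cη) →
        ∀ t ∈ range N, |u t * (θ t - (t : ℝ) / N - η t0)| ≤ u t * (Cη + 1) := by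
      intro u θ hu hθ t ht
      by_cases h : u t = 0
      · simp [h]
      rw [abs_mul, abs_of_nonneg (hu t)]
      refine mul_le_mul_of_nonneg_left ?_ (hu t)
      have a1 := abs_le.1 (hθ t ht h)
      have a2 : (0 : ℝ) ≤ (t : ℝ) / N := by positivity
      have a3 : (t : ℝ) / N ≤ 1 := by
        rw [div_le_one hN]; exact_mod_cast (mem_range.1 ht).le
      rw [abs_le]; constructor <;> linarith
    have b1 := bd f η h0 fun t ht h => hη t ht t0 ht0 h hf0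
    have b2 := bd f' η' h0' fun t ht h => q2 ▸ hη' t ht t0 ht0 h (q1 ▸ hf0)
    have eA : A - S * η t0 = ∑ t ∈ range N, f t * (η t - (t : ℝ) / N - η t0) := by
      rw [hA, hS, sum_mul, ← sum_sub_distrib]; exact sum_congr rfl fun t _ => by ring
    have eA' : A' - S' * η t0 = ∑ t ∈ range N, f' t * (η' t - (t : ℝ) / N - η t0) := by
      rw [hA', hS', sum_mul, ← sum_sub_distrib]; exact sum_congr rfl fun t _ => by ring
    have d1 : |A' - S' * η t0| ≤ S' * (Cη + 1) := by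
      rw [eA', hS', sum_mul]
      exact (abs_sum_le_sum_abs _ _).trans (sum_le_sum b2)
    have d2 : |(A - S * η t0) - (A' - S' * η t0)| ≤ k * (2 * R * (Cη + 1)) := by
      have := sum_diff (N := N) hn
        (fun t : ℕ => f t * (η t - (t : ℝ) / N - η t0) - f' t * (η' t - (t : ℝ) / N - η t0))
        (fun _ => 0) (c := 2 * R * (Cη + 1)) (by positivity) (fun _ _ => le_rfl)
        (fun t ht _ => by
          rw [Real.norm_eq_abs]
          refine (abs_sub _ _).trans ?_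
          nlinarith [b1 t ht, b2 t ht, hR t, hR' t])
        (fun t ht h => by rw [(hb t ht h).1, (hb t ht h).2]; simp)
      rw [eA, eA', ← sum_sub_distrib]
      simpa using this
    have e : S * (A / S - A' / S') = ((A - S * η t0) - (A' - S' * η t0)) -
        (A' - S' * η t0) / S' * (S - S') := by field_simp; ring
    have d3 : |(A' - S' * η t0) / S'| ≤ Cη + 1 := by
      rw [abs_div, abs_of_pos hS0', div_le_iff₀ hS0']; linarith
    rw [← abs_of_pos hS0, ← abs_mul, abs_of_pos hS0, e]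
    refine (abs_sub _ _).trans ?_
    rw [abs_mul]
    have := mul_le_mul d3 dS (abs_nonneg _) (by positivity)
    linarith
  rw [le_div_iff₀ (by positivity)]
  refine le_of_mul_le_mul_right ?_ hR0
  have := mul_le_mul_of_nonneg_right hs (abs_nonneg (A / S - A' / S'))
  linarith

variable {G : Type} [Group G] {g : G} {S : Finset G} {R Δ : ℕ}

/-- The heights vary boundedly along a period of a good loop. -/
theorem eta_bound0 (X : Geo0 g S R Δ) (h1 : (1 : G) ∈ S) (L : ℕ) :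
    ∃ B : ℝ, 0 ≤ B ∧ ∀ (N : ℕ) (γ : ℤ → G), Good g S N L γ → ∀ κ, ∀ t ∈ range N, ∀ t' ∈ range N,
      X.phi κ (γ t) ≠ 0 → X.phi κ (γ t') ≠ 0 → |X.eta κ (γ t) - X.eta κ (γ t')| ≤ B := by
  obtain ⟨Y, hY, -⟩ := anchors g (Subgroup.centralizer ({g} : Set G))
    (fun c hc => Subgroup.mem_centralizer_singleton_iff.1 hc)
    (by rw [Subgroup.relIndex_self]; exact one_ne_zero) (S ^ L)
  choose A hA hA' using X.phi_fin
  refine ⟨∑ z ∈ Y, ∑ κ ∈ A z, ∑ u ∈ S ^ L, |X.eta κ z - X.eta κ (z * u)|, by positivity, ?_⟩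
  rintro N γ ⟨hγ, ℓ, hp, hs, hℓ⟩ κ
  have key : ∀ t ∈ range N, ∀ t' ∈ range N, t ≤ t' → X.phi κ (γ t) ≠ 0 → X.phi κ (γ t') ≠ 0 →
      |X.eta κ (γ t) - X.eta κ (γ t')| ≤
        ∑ z ∈ Y, ∑ κ ∈ A z, ∑ u ∈ S ^ L, |X.eta κ z - X.eta κ (z * u)| := by
    intro t ht t' ht' htt hf hf'
    have hw := (sum_window_le N N le_rfl ℓ hp t).trans hℓ
    have h1' : (γ t)⁻¹ * γ (t + N) ∈ (S : Set G) ^ L :=
      path_mem h1 hs le_rfl (by omega) le_rfl hw
    have h2' : (γ t)⁻¹ * γ t' ∈ (S : Set G) ^ L :=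
      path_mem h1 hs le_rfl (by exact_mod_cast htt)
        (by have := mem_range.1 ht'; omega) hw
    rw [hγ t, ← mul_assoc, ← Finset.coe_pow, Finset.mem_coe] at h1'
    rw [← Finset.coe_pow, Finset.mem_coe] at h2'
    obtain ⟨c, hcC, z, hz, he⟩ := hY _ h1'
    obtain ⟨κ', rfl⟩ := (X.act c).surjective κ
    set u := (γ t)⁻¹ * γ t' with hu
    have he' : γ t' = c * (z * u) := by rw [← mul_assoc, ← he, hu, mul_inv_cancel_left]
    rw [he, X.phi_act' c hcC] at hf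
    rw [he', X.phi_act' c hcC] at hf'
    rw [he', he, X.eta_act' c hcC κ' _ _ hf hf']
    calc |X.eta κ' z - X.eta κ' (z * u)|
        ≤ ∑ u ∈ S ^ L, |X.eta κ' z - X.eta κ' (z * u)| :=
          single_le_sum (f := fun u => |X.eta κ' z - X.eta κ' (z * u)|)
            (fun _ _ => abs_nonneg _) h2'
      _ ≤ ∑ κ ∈ A z, ∑ u ∈ S ^ L, |X.eta κ z - X.eta κ (z * u)| :=
          single_le_sum (f := fun κ => ∑ u ∈ S ^ L, |X.eta κ z - X.eta κ (z * u)|)
            (fun _ _ => by positivity) (hA' z κ' hf)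
      _ ≤ _ :=
          single_le_sum (f := fun z => ∑ κ ∈ A z, ∑ u ∈ S ^ L, |X.eta κ z - X.eta κ (z * u)|)
            (fun _ _ => by positivity) hz
  intro t ht t' ht' hf hf'
  rcases le_total t t' with h | h
  · exact key t ht t' ht' h hf hf'
  · rw [abs_sub_comm]
    exact key t' ht' t ht h hf' hf

theorem ps_act0 (X : Geo0 g S R Δ) (n0 T : ℕ) (γ : ℤ → G) (κ : X.K) {c : G}
    (hc : c ∈ Subgroup.centralizer ({g} : Set G)) :
    ps X.toGeo n0 T (fun t => c * γ t) (X.act c κ) = ps X.toGeo n0 T γ κ := by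
  simp only [ps, X.phi_act' c hc]

/-- There are few persistent components. -/
theorem few {T : ℕ} (X : Geo0 g S (4 * T) Δ) {n0 : ℕ} (hn0 : 0 < n0) (hT : 0 < T)
    (γ : ℤ → G) {θ : ℝ} (hθ : (T : ℝ) ^ 2 / 16 ≤ θ) :
    ∃ A : Finset X.K, A.card ≤ 64 * Δ ∧ ∀ κ, κ ∈ A ↔ θ < ps X.toGeo n0 T γ κ := by
  have hT' : (0 : ℝ) < T := by exact_mod_cast hT
  obtain ⟨A, hA, hA'⟩ := Fw_count n0 T Δ hn0 (fun κ t => X.phi κ (γ t))
    (R := ((4 * T : ℕ) : ℝ)) (c := (T : ℝ) ^ 2 / 16) (by positivity) (by positivity)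
    (fun κ t => X.phi_nonneg κ _) (fun κ t => X.phi_le κ _) (fun t => X.phi_fin (γ t)) 0
  have hcard : A.card ≤ 64 * Δ := by
    have : (A.card : ℝ) ≤ 64 * Δ := by
      refine le_of_mul_le_mul_left ?_ (show 0 < (T : ℝ) ^ 2 / 16 by positivity)
      push_cast at hA
      linarith
    exact_mod_cast this
  refine ⟨A.filter fun κ => θ < ps X.toGeo n0 T γ κ, (card_filter_le _ _).trans hcard,
    fun κ => ⟨fun h => (mem_filter.1 h).2, fun h => mem_filter.2 ⟨hA' κ ?_, h⟩⟩⟩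
  exact (hθ.trans h.le).trans (ps_le X.toGeo hn0 T γ κ 0)

end S3z

open RF.S3 RF.XiA S3z in
theorem sys3z {G : Type} [Group G] (g : G) (S : Finset G) (T Δ : ℕ) (X : Geo0 g S (4 * T) Δ)
    (h1 : (1 : G) ∈ S) (hT : 0 < T) (L m : ℕ) (hL : 4 * T ≤ L) :
    ∃ n00 : ℕ, ∀ n0 ≥ n00, ∃ (w : ℕ → (ℤ → G) → ℤ) (F : ℕ → (ℤ → G) → ℂ),
      (∀ b γ, 1 ≤ w b γ ∧ w b γ ≤ 64 * Δ + 1) ∧
      (∀ b, Equi g (Subgroup.centralizer ({g} : Set G)) (L * n0) (w b) (F b)) ∧
      ∀ γ, Good g S (L * n0) L γ →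
        (∃ κ, (T : ℝ) ^ 2 / 8 < pers (Fw n0 T fun t => X.phi κ (γ t))) →
        ∃ b ≤ 64 * Δ, Fine g S (L * n0) L m (w b) (F b) γ := by
  have hT' : (0 : ℝ) < T := by exact_mod_cast hT
  have hL0 : 0 < L := by omega
  obtain ⟨Cη, hCη, hη⟩ := eta_bound0 X h1 L
  obtain ⟨h, hh, hh'⟩ : ∃ h : ℝ, 0 < h ∧ (64 * Δ + 1) * h = (T : ℝ) ^ 2 / 16 :=
    ⟨(T : ℝ) ^ 2 / 16 / (64 * Δ + 1), by positivity, by field_simp⟩
  obtain ⟨e, he⟩ : ∃ e : ℝ, e = 2 * Real.pi * (64 * Δ * (3 * m * (Cη + 1) / (1 / 64))) :=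
    ⟨_, rfl⟩
  have he0 : 0 ≤ e := by rw [he]; positivity
  obtain ⟨n00, hn00⟩ := exists_nat_gt
    (max (max (2 * (m * (4 * T : ℕ)) / h) (64 * m)) (3 * e))
  refine ⟨n00, fun n0 hn0' => ?_⟩
  have hn : (n00 : ℝ) ≤ n0 := by exact_mod_cast hn0'
  have ha : 2 * (m * (4 * T : ℕ)) / h < n0 :=
    lt_of_lt_of_le (lt_of_le_of_lt ((le_max_left _ _).trans (le_max_left _ _)) hn00) hn
  have hb : (64 * m : ℝ) < n0 :=
    lt_of_lt_of_le (lt_of_le_of_lt ((le_max_right _ _).trans (le_max_left _ _)) hn00) hn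
  have hd : 3 * e < n0 := lt_of_lt_of_le (lt_of_le_of_lt (le_max_right _ _) hn00) hn
  have hn0r : (0 : ℝ) < n0 := lt_of_le_of_lt (by positivity) hb
  have hn0 : 0 < n0 := by exact_mod_cast hn0r
  have hζ : (m : ℝ) * (4 * T : ℕ) / n0 < h / 2 := by
    rw [div_lt_iff₀ hh] at ha
    rw [div_lt_iff₀ hn0r]
    linarith
  have hNn : (n0 : ℝ) ≤ ((L * n0 : ℕ) : ℝ) := by
    exact_mod_cast Nat.le_mul_of_pos_left n0 hL0
  have hN0 : 0 < L * n0 := Nat.mul_pos hL0 hn0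
  have hNr : (0 : ℝ) < ((L * n0 : ℕ) : ℝ) := by exact_mod_cast hN0
  obtain ⟨thr, hthr⟩ : ∃ thr : ℕ → ℝ, ∀ b, thr b = (T : ℝ) ^ 2 / 16 + (b + 1 / 2) * h :=
    ⟨_, fun _ => rfl⟩
  have hthr0 : ∀ b, (T : ℝ) ^ 2 / 16 ≤ thr b := fun b => by
    have : (0 : ℝ) ≤ (b + 1 / 2) * h := by positivity
    rw [hthr]; linarith
  choose A hAc hA using fun (b : ℕ) (γ : ℤ → G) => few X hn0 hT γ (hthr0 b)
  have hmass : ∀ b γ, IsLoop g (L * n0) γ → ∀ κ ∈ A b γ,
      1 / 64 * ((L * n0 : ℕ) : ℝ) * (4 * T : ℕ) ≤ ∑ t ∈ range (L * n0), X.phi κ (γ t) :=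
    fun b γ hγ κ hκ => mass X.toGeo hn0 hT hγ ((hthr0 b).trans ((hA b γ κ).1 hκ).le)
  have hne : ∀ b γ, IsLoop g (L * n0) γ → ∀ κ ∈ A b γ,
      ∑ t ∈ range (L * n0), X.phi κ (γ t) ≠ 0 := fun b γ hγ κ hκ =>
    (lt_of_lt_of_le (by positivity) (hmass b γ hγ κ hκ)).ne'
  refine ⟨fun b γ => max 1 ((A b γ).card : ℤ),
    fun b γ => if A b γ = ∅ then 0 else ee (-∑ κ ∈ A b γ,
      av (L * n0) (fun t => X.phi κ (γ t)) fun t => X.eta κ (γ t)),
    fun b γ => ⟨le_max_left _ _, max_le (by omega) (by have := hAc b γ; omega)⟩,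
    fun b γ hγ => ⟨fun c hc => ?_, ?_⟩, ?_⟩
  · have hmap : A b (fun t => c * γ t) = (A b γ).map (X.act c).toEmbedding := by
      ext κ
      obtain ⟨κ', rfl⟩ := (X.act c).surjective κ
      rw [hA, ps_act0 X n0 T γ κ' hc, ← hA]
      exact (mem_map' (X.act c).toEmbedding).symm
    refine ⟨by simp only [hmap, card_map], ?_⟩
    simp only [hmap, map_eq_empty, sum_map, Equiv.coe_toEmbedding, X.phi_act' c hc]
    split_ifs with hemp
    · rfl
    have hint : ∀ κ ∈ A b γ, ∃ n : ℤ,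
        (av (L * n0) (fun t => X.phi κ (γ t)) fun t => X.eta (X.act c κ) (c * γ t)) =
          (av (L * n0) (fun t => X.phi κ (γ t)) fun t => X.eta κ (γ t)) + n := by
      intro κ hκ
      obtain ⟨t0, -, ht0⟩ := exists_ne_zero_of_sum_ne_zero (hne b γ hγ κ hκ)
      obtain ⟨n1, hn1⟩ := X.eta_int (X.act c κ) (c * γ t0)
      obtain ⟨n2, hn2⟩ := X.eta_int κ (γ t0)
      refine ⟨n1 - n2, av_add _ _ _ _ _ (fun t ht => ?_) (hne b γ hγ κ hκ)⟩
      have := X.eta_act' c hc κ _ _ ht ht0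
      push_cast
      linarith
    choose! n hn using hint
    rw [sum_congr rfl hn, sum_add_distrib, neg_add, ee_add, ← Int.cast_sum, ← Int.cast_neg,
      ee_int, mul_one]
  · have hsh : A b (fun t => γ (t - 1)) = A b γ := by
      ext κ
      rw [hA, hA, ps_shift]
    refine ⟨by simp only [hsh], ?_⟩
    simp only [hsh]
    split_ifs with hemp
    · rw [mul_zero]
    have hc1 : (1 : ℤ) ≤ (A b γ).card := by
      exact_mod_cast card_pos.2 (nonempty_iff_ne_empty.2 hemp)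
    rw [max_eq_right hc1, ← ee_add, sum_congr rfl fun κ hκ =>
      av_shift (L * n0) hN0 (fun t => X.phi κ (γ t)) (fun t => X.eta κ (γ t))
        (phi_per X.toGeo hγ κ) (eta_per X.toGeo hγ κ) (hne b γ hγ κ hκ),
      sum_sub_distrib, sum_const, nsmul_eq_mul]
    congr 1
    push_cast
    ring
  rintro γ hγ ⟨κ0, hκ0⟩
  obtain ⟨b, hbΔ, hband⟩ := band X.toGeo hn0 hT γ hh
  have hsame : ∀ γ', Good g S (L * n0) L γ' → Near (L * n0) m γ γ' → A b γ' = A b γ := by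
    intro γ' hγ' hnear
    ext κ
    have hk := ps_near X.toGeo (T := T) hn0 (by nlinarith) hγ.1 hγ'.1 hnear κ
    rw [hA, hA, hthr]
    rcases hband κ with h' | h'
    · constructor <;> intro h'' <;> linarith [hk.1, hk.2]
    · constructor <;> intro h'' <;> linarith [hk.1, hk.2]
  have hemp : A b γ ≠ ∅ := by
    refine ne_empty_of_mem ((hA b γ κ0).2 ?_)
    have hbr : (b : ℝ) ≤ 64 * Δ := by exact_mod_cast hbΔ
    have : (b : ℝ) * h ≤ 64 * Δ * h := mul_le_mul_of_nonneg_right hbr hh.le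
    change thr b < pers _
    rw [hthr]
    linarith
  have hcont : ∀ γ', Good g S (L * n0) L γ' → Near (L * n0) m γ γ' →
      ‖ee (-∑ κ ∈ A b γ, av (L * n0) (fun t => X.phi κ (γ t)) fun t => X.eta κ (γ t)) -
        ee (-∑ κ ∈ A b γ, av (L * n0) (fun t => X.phi κ (γ' t)) fun t => X.eta κ (γ' t))‖ ≤
          e / (L * n0 : ℕ) := by
    intro γ' hγ' hnear
    refine (norm_ee_sub _ _).trans ?_
    rw [neg_sub_neg, abs_sub_comm, ← sum_sub_distrib]
    have hk : ∀ κ ∈ A b γ, |(av (L * n0) (fun t => X.phi κ (γ t)) fun t => X.eta κ (γ t)) -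
        av (L * n0) (fun t => X.phi κ (γ' t)) fun t => X.eta κ (γ' t)| ≤
          3 * m * (Cη + 1) / (1 / 64 * ((L * n0 : ℕ) : ℝ)) := fun κ hκ =>
      av_cont (L * n0) m _ _ _ _ (R := ((4 * T : ℕ) : ℝ)) (by norm_num) (by positivity) hCη
        (fun t => X.phi_nonneg κ _) (fun t => X.phi_le κ _) (fun t => X.phi_nonneg κ _)
        (fun t => X.phi_le κ _) (hmass b γ hγ.1 κ hκ) (by linarith)
        (near_comp hnear fun y => (X.phi κ y, X.eta κ y)) (hη _ γ hγ κ) (hη _ γ' hγ' κ)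
    have h2 := (abs_sum_le_sum_abs _ _).trans (sum_le_card_nsmul _ _ _ hk)
    rw [nsmul_eq_mul] at h2
    have h3 : ((A b γ).card : ℝ) ≤ 64 * Δ := by exact_mod_cast hAc b γ
    have h4 := mul_le_mul_of_nonneg_right h3
      (show 0 ≤ 3 * m * (Cη + 1) / (1 / 64 * ((L * n0 : ℕ) : ℝ)) by positivity)
    refine (mul_le_mul_of_nonneg_left (h2.trans h4) (by positivity)).trans (le_of_eq ?_)
    rw [he]
    field_simp
  refine ⟨b, hbΔ, fun γ' γ'' hγ' hγ'' hn' hn'' => ⟨?_, ?_⟩⟩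
  · simp only [hsame γ' hγ' hn', hsame γ'' hγ'' hn'']
  · simp only [hsame γ' hγ' hn', hsame γ'' hγ'' hn'', if_neg hemp]
    refine re_pos ?_ (hcont γ' hγ' hn') (hcont γ'' hγ'' hn'')
    rw [norm_ee, ← mul_div_assoc, div_lt_one hNr]
    linarith

end Pool.Agent.Lib.MP_7903c7_al.C0
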