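import Pool.Agent.Lib.MP_7903c7_al.C0.Red
import Pool.Agent.Lib.MP_7903c7_al.C0.Den
import Pool.Agent.Lib.MP_7903c7_al.C0.Loc
import Pool.Agent.Lib.MP_7903c7_al.C0.Geo
import Pool.Agent.Lib.MP_7903c7_al.C0.Bad
import Pool.Agent.Lib.MP_7903c7_al.C0.Sys1
import Pool.Agent.Lib.MP_7903c7_al.C0.Sys3
import Pool.Agent.Lib.MP_7903c7_al.C0.Asm
import Pool.Agent.Lib.MP_7903c7_al.RF.Anch

set_option autoImplicit false

namespace Pool.Agent.Lib.MP_7903c7_al.C0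

open Finset RF
open scoped Classical Pointwise

theorem core0 {G I R : Type} [Group G] [Fintype I] [DecidableEq I] [CommRing R] [IsDomain R]
    [CharZero R] {A : Matrix I I (MonoidAlgebra R G)} (hA : A * A = A) {g : G}
    (hg : orderOf g = 0) : tau (fun h => IsConj h g) A = 0 := by
  by_contra hne
  obtain ⟨S, h1, hS, Hred⟩ := reduce0 hA g hne
  obtain ⟨n, hn, h16, Ω, _, _, lab, hlab, Hloc⟩ :=
    local_prob S.card (card_pos.2 ⟨1, h1⟩) (1 / 200000) (by norm_num)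
  have hT : 0 < n ^ 3 := by positivity
  obtain ⟨X⟩ := exists_geo0 g hg S h1 hS (4 * n ^ 3)
  have hΔ : S.card ^ (4 * n ^ 3) ≤ 2 ^ (S.card * (4 * n ^ 3)) := by
    rw [pow_mul 2]; exact Nat.pow_le_pow_left Nat.lt_two_pow_self.le _
  generalize S.card ^ (4 * n ^ 3) = Δ at X hΔ
  obtain ⟨n1, hn1⟩ : ∃ n1, n1 = 64 * Δ + 1 + 4 * n ^ 3 := ⟨_, rfl⟩
  let s : Finset (ℤ ⊕ ℕ) := (Icc (1 : ℤ) (2 * n1 - 1)).disjSum (range (64 * Δ + 1))
  have hs : s.card ≤ 3 * n1 := by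
    rw [card_disjSum, card_range, Int.card_Icc]
    omega
  obtain ⟨a1, H1⟩ := sys1z g S n Δ hn h16 X lab hlab (1 / 200000) (by norm_num) (100 * n1) n1
    (4 * s.card + 1) (by omega) (by push_cast; linarith)
  obtain ⟨a3, H3⟩ := sys3z g S (n ^ 3) Δ X h1 hT (100 * n1) (4 * s.card + 1) (by omega)
  obtain ⟨ball, hball⟩ : ∃ ball : G → Finset X.K, ∀ y κ,
      κ ∈ ball y ↔ ∃ u ∈ (S : Set G) ^ (2 * (100 * n1)), X.phi κ (y * u) ≠ 0 := by
    choose Z _ hZ using X.phi_fin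
    refine ⟨fun y => (S ^ (2 * (100 * n1))).biUnion fun u =>
      (Z (y * u)).filter fun κ => X.phi κ (y * u) ≠ 0, fun y κ => ?_⟩
    simp only [mem_biUnion, mem_filter, ← coe_pow, mem_coe]
    exact exists_congr fun u => and_congr_right fun _ => ⟨fun h => h.2, fun h => ⟨hZ _ _ h, h⟩⟩
  have hc : ∀ c ∈ Subgroup.centralizer ({g} : Set G), c * g = g * c := fun c h =>
    Subgroup.mem_centralizer_singleton_iff.1 h
  have hi : (Subgroup.centralizer ({g} : Set G)).relIndex (Subgroup.centralizer {g}) ≠ 0 := by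
    rw [Subgroup.relIndex_self]; exact one_ne_zero
  obtain ⟨Y, hY, -⟩ := anchors g _ hc hi (S ^ (100 * n1))
  obtain ⟨nn, hnn, Hden⟩ := den (Ω := Ω) {A | ∃ y, y⁻¹ * g * y ∈ S ^ (100 * n1) ∧ A = ball y}
    (X.act '' (Subgroup.centralizer ({g} : Set G) : Set G))
    ((Y.filter fun y => y⁻¹ * g * y ∈ S ^ (100 * n1)).image ball)
    (fun B hB => by
      obtain ⟨y, hy, rfl⟩ := mem_image.1 hB
      exact ⟨y, (mem_filter.1 hy).2, rfl⟩)
    (by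
      rintro _ ⟨y, hy, rfl⟩
      obtain ⟨c, hcc, z, hz, rfl⟩ := hY y hy
      refine ⟨ball z, mem_image_of_mem _ (mem_filter.2 ⟨hz, ?_⟩), X.act c, ⟨c, hcc, rfl⟩, ?_⟩
      · rwa [mul_inv_rev, mul_assoc, ← mul_assoc g, ← hc c hcc, ← mul_assoc, ← mul_assoc,
          inv_mul_cancel_right] at hy
      · ext κ
        obtain ⟨κ, rfl⟩ := (X.act c).surjective κ
        rw [← Equiv.coe_toEmbedding, mem_map', hball, hball]
        simp only [Equiv.coe_toEmbedding, mul_assoc, X.phi_act' c hcc])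
  obtain ⟨k, _, p, E, hp, hpk, hnk, hE, hidem, htr⟩ :=
    Hred (nn * (3 * n1).factorial) (Nat.mul_ne_zero hnn (Nat.factorial_ne_zero _))
  rw [Nat.cast_mul] at hnk
  have hw : ∀ j : ℤ, 1 ≤ j → j ≤ 3 * n1 → ¬ (p : ℤ) ∣ j := fun j h2 h3 hd => by
    have h4 := Int.le_of_dvd (by omega) hd
    obtain ⟨c, h5⟩ := Nat.dvd_factorial hp.pos (show p ≤ 3 * n1 by omega)
    exact right_ne_zero_of_mul hnk (by rw [h5, Nat.cast_mul, hpk, zero_mul])
  obtain ⟨n0, hn0⟩ : ∃ n0, n0 = p * (a1 + a3 + 100 * n1 + 1) := ⟨_, rfl⟩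
  have hn0' : a1 + a3 + 100 * n1 + 1 ≤ n0 := hn0 ▸ Nat.le_mul_of_pos_left _ hp.pos
  obtain ⟨F1, hF1c, hF1T, hF1l, hc1⟩ := H1 n0 (by omega)
  obtain ⟨w3, F3, hw3, hF3, hc3⟩ := H3 n0 (by omega)
  obtain ⟨φ, hφ, hφ0⟩ := bad_mean g S (4 * n ^ 3) Δ _ (by omega) hΔ X lab (1 / 200000) n
    (100 * n1) n0 (Hloc G g S Δ X h1 Nat.lt_two_pow_self.le hΔ _ _ (by omega) (by omega))
  obtain ⟨ψ, hψ, hψ0⟩ := Hden φ ⟨hφ.one, fun B _ => hφ.add B trivial, fun B _ => hφ.inv B trivial⟩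
    k (left_ne_zero_of_mul hnk)
  refine htr (asm (⟨g, _, E, S, Subgroup.mem_centralizer_singleton_iff.2 rfl, hc, hi, hE, hidem⟩ :
    Dat G I k) rfl S h1 hp hpk hE (100 * n1 * n0) (100 * n1)
    (by rw [hn0]; push_cast; rw [hpk]; ring) (fun κ y => X.phi κ y ≠ 0) X.act
    (fun κ y => by rw [X.phi_g]) (fun c h κ y => by rw [X.phi_act' c h]) ball hball ψ hψ
    (BadSet g S X.phi lab (1 / 200000) n (100 * n1) n0)
    (fun y hy t ht h => hψ0 _ ⟨y, hy, rfl⟩ t ht (hφ0 _ t ht h)) s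
    (Sum.elim (fun j _ _ => j) fun b _ γ => w3 b γ) (Sum.elim F1 fun b _ γ => F3 b γ) (by omega)
    (Nat.le_mul_of_pos_right _ (by omega)) ?_ ?_ ?_ ?_ fun x γ hγ hb => ?_)
  · rintro (j | b) hj x γ
    · rw [inl_mem_disjSum, mem_Icc] at hj
      exact hw j hj.1 (by omega)
    · exact hw _ (hw3 b γ).1 ((hw3 b γ).2.trans (by omega))
  · rintro (j | b) - x γ hγ c h
    · exact ⟨rfl, hF1c j x γ c h⟩
    · exact (hF3 b γ hγ).1 c h
  · rintro (j | b) - x γ hγ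
    · exact ⟨rfl, hF1T j x γ hγ⟩
    · exact (hF3 b γ hγ).2
  · rintro (j | b) - x x' γ hγ h
    · exact ⟨rfl, hF1l j x x' γ hγ h⟩
    · exact ⟨rfl, rfl⟩
  · by_cases hpers : ∀ κ, pers (Fw n0 (n ^ 3) fun t => X.phi κ (γ t)) ≤ (n : ℝ) ^ 6 / 8
    · obtain ⟨j, hj, hf⟩ := hc1 x γ hγ hb hpers
      exact ⟨.inl j, inl_mem_disjSum.2 hj, hf⟩
    · push Not at hpers
      obtain ⟨b, hb', hf⟩ := hc3 γ hγ (hpers.imp fun κ h => by push_cast; rwa [← pow_mul])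
      exact ⟨.inr b, inr_mem_disjSum.2 (mem_range.2 (by omega)), hf⟩

end Pool.Agent.Lib.MP_7903c7_al.C0
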