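import Pool.Agent.Lib.MP_7903c7_al.C0.Defs

set_option autoImplicit false

/-!
The push forward of a mean along a function of finitely many coordinates.
-/

namespace Pool.Agent.Lib.MP_7903c7_al.C0

open Finset RF
open scoped Classical Pointwise

namespace Push

variable {K Ω Λ V : Type}

theorem fin_range [Finite Ω] {A : Finset K} {f : (K → Ω) → V} (hf : DepF A f) :
    (Set.range f).Finite := by
  rcases isEmpty_or_nonempty (K → Ω) with h | ⟨⟨x0⟩⟩
  · exact Set.finite_range f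
  · refine (Set.finite_range fun y : A → Ω =>
      f fun v => if h : v ∈ A then y ⟨v, h⟩ else x0 v).subset ?_
    rintro _ ⟨x, rfl⟩
    exact ⟨fun v => x v, hf _ _ fun v hv => by simp [hv]⟩

theorem dep_pre {A : Finset K} {f : (K → Ω) → V} (hf : DepF A f) (T : Set V) :
    Dep A (f ⁻¹' T) := fun x y h hx => by
  rw [Set.mem_preimage, ← hf x y h]
  exact hx

variable [CommRing Λ] {𝓐 : Set (Finset K)} {Pm : Set (Equiv.Perm K)} {ψ : Set (K → Ω) → Λ}

theorem mean_empty (hψ : Mean 𝓐 Pm ψ) {A : Finset K} (hA : A ∈ 𝓐) : ψ ∅ = 0 := by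
  have := hψ.add A hA ∅ ∅ (fun _ _ _ h => h) (fun _ _ _ h => h) (by simp)
  simpa using this

theorem mean_sum (hψ : Mean 𝓐 Pm ψ) {A : Finset K} (hA : A ∈ 𝓐) {f : (K → Ω) → V}
    (hf : DepF A f) (T : Finset V) : ψ (f ⁻¹' (T : Set V)) = ∑ v ∈ T, ψ (f ⁻¹' {v}) := by
  induction T using Finset.induction_on with
  | empty => simpa using mean_empty hψ hA
  | insert a T ha ih =>
    rw [sum_insert ha, ← ih, coe_insert, Set.insert_eq, Set.preimage_union]
    refine hψ.add A hA _ _ (dep_pre hf _) (dep_pre hf _) (Disjoint.preimage f ?_)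
    simpa using ha

theorem supp_sub (hψ : Mean 𝓐 Pm ψ) {A : Finset K} (hA : A ∈ 𝓐) (f : (K → Ω) → V) :
    (Function.support fun v => ψ (f ⁻¹' {v})) ⊆ Set.range f := by
  intro v hv
  by_contra h
  refine hv ?_
  have : f ⁻¹' {v} = ∅ := Set.eq_empty_of_forall_notMem fun x hx => h ⟨x, hx⟩
  simp only [this]
  exact mean_empty hψ hA

/-- The push forward. -/
noncomputable def pu [Finite Ω] (hψ : Mean 𝓐 Pm ψ) (f : (K → Ω) → V) : V →₀ Λ :=
  if h : ∃ A ∈ 𝓐, DepF A f then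
    Finsupp.ofSupportFinite (fun v => ψ (f ⁻¹' {v}))
      ((fin_range h.choose_spec.2).subset (supp_sub hψ h.choose_spec.1 f))
  else 0

theorem pu_apply [Finite Ω] (hψ : Mean 𝓐 Pm ψ) {A : Finset K} (hA : A ∈ 𝓐) {f : (K → Ω) → V}
    (hf : DepF A f) (v : V) : pu hψ f v = ψ (f ⁻¹' {v}) := by
  rw [pu, dif_pos ⟨A, hA, hf⟩, Finsupp.ofSupportFinite_coe]

theorem pu_supp [Finite Ω] (hψ : Mean 𝓐 Pm ψ) (f : (K → Ω) → V) :
    ∀ v ∈ (pu hψ f).support, ∃ x, f x = v := by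
  intro v hv
  by_cases h : ∃ A ∈ 𝓐, DepF A f
  · obtain ⟨A, hA, hf⟩ := h
    rw [Finsupp.mem_support_iff, pu_apply hψ hA hf] at hv
    exact supp_sub hψ hA f hv
  · rw [pu, dif_neg h] at hv
    simp at hv

end Push

open Push in
theorem exists_push {K Ω Λ : Type} [Finite Ω] [CommRing Λ] (𝓐 : Set (Finset K))
    (Pm : Set (Equiv.Perm K)) (ψ : Set (K → Ω) → Λ) (hψ : Mean 𝓐 Pm ψ)
    (h1 : ∀ A ∈ 𝓐, ∀ π ∈ Pm, A.map π.toEmbedding ∈ 𝓐)
    (h2 : ∀ A ∈ 𝓐, ∀ π ∈ Pm, ∃ A' ∈ 𝓐, A = A'.map π.toEmbedding) (V : Type) :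
    ∃ Pu : ((K → Ω) → V) → (V →₀ Λ),
      (∀ f, ∀ π ∈ Pm, Pu (fun x => f (x ∘ π)) = Pu f) ∧
      (∀ f, ∀ v ∈ (Pu f).support, ∃ x, f x = v) ∧
      ∀ A ∈ 𝓐, ∀ f, DepF A f →
        (∀ u : V → V, Pu (fun x => u (f x)) = Finsupp.mapDomain u (Pu f)) ∧
        ((Pu f).sum fun _ c => c) = 1 ∧ ∀ v, Pu f v = ψ (f ⁻¹' {v}) := by
  refine ⟨pu hψ, fun f π hπ => ?_, pu_supp hψ, fun A hA f hf => ?_⟩
  · by_cases h : ∃ A ∈ 𝓐, DepF A f
    · obtain ⟨A, hA, hf⟩ := h
      have hf' : DepF (A.map π.toEmbedding) fun x => f (x ∘ π) := fun x y hxy =>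
        hf _ _ fun v hv => hxy _ (mem_map_of_mem _ hv)
      ext v
      rw [pu_apply hψ (h1 A hA π hπ) hf', pu_apply hψ hA hf]
      exact hψ.inv A hA π hπ _ (dep_pre hf _)
    · have h' : ¬ ∃ A ∈ 𝓐, DepF A fun x => f (x ∘ π) := by
        rintro ⟨A, hA, hf⟩
        obtain ⟨A', hA', rfl⟩ := h2 A hA π hπ
        refine h ⟨A', hA', fun x y hxy => ?_⟩
        have := hf (x ∘ π.symm) (y ∘ π.symm) fun v hv => by
          obtain ⟨w, hw, rfl⟩ := mem_map.1 hv
          simpa using hxy w hw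
        simpa [Function.comp_assoc] using this
      rw [pu, pu, dif_neg h, dif_neg h']
  · have hT : (pu hψ f).support ⊆ (fin_range hf).toFinset := fun v hv => by
      simpa using pu_supp hψ f v hv
    refine ⟨fun u => ?_, ?_, pu_apply hψ hA hf⟩
    · have hf' : DepF A fun x => u (f x) := fun x y hxy => by simp only [hf x y hxy]
      ext w
      rw [pu_apply hψ hA hf', Finsupp.mapDomain, Finsupp.sum_apply,
        Finsupp.sum_of_support_subset _ hT _ (by simp)]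
      simp only [Finsupp.single_apply, pu_apply hψ hA hf]
      rw [← sum_filter, ← mean_sum hψ hA hf]
      congr 1
      ext x
      simp
    · rw [Finsupp.sum_of_support_subset _ hT _ (by simp)]
      simp only [pu_apply hψ hA hf]
      rw [← mean_sum hψ hA hf, ← hψ.one]
      congr 1
      ext x
      simp

end Pool.Agent.Lib.MP_7903c7_al.C0
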