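import Pool.Agent.Lib.MP_7903c7_al.B.Fin
import Pool.Agent.Lib.MP_7903c7_al.B.Lift

/-! Reduction from characteristic zero to a prime characteristic chosen after the support. -/

set_option autoImplicit false

namespace Pool.Agent.Lib.MP_7903c7_al.C0

open Finset
open scoped Classical Pointwise

variable {G I : Type} [Group G] [Fintype I] [DecidableEq I]

theorem reduce {R : Type} [CommRing R] [IsDomain R] [CharZero R] (C : G → Prop)
    {A : Matrix I I (MonoidAlgebra R G)} (hA : A * A = A) (hne : tau C A ≠ 0) :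
    ∃ S : Finset G, (1 : G) ∈ S ∧ (∀ s ∈ S, s⁻¹ ∈ S) ∧ ∀ n : ℕ, n ≠ 0 →
      ∃ (k : Type) (_ : Field k) (p : ℕ) (_ : CharP k p) (E : G → Matrix I I k),
        p.Prime ∧ ¬ p ∣ n ∧ (∀ h, h ∉ S → E h = 0) ∧ (∀ h, ∑ u ∈ S, E u * E (u⁻¹ * h) = E h) ∧
        (∀ h j, h ∉ (S : Set G) ^ (2 * j + 1) → ∀ i i', ∃ y, E h i i' = (p : k) ^ (j + 1) * y) ∧
        ∑ h ∈ S.filter C, Matrix.trace (E h) ≠ 0 := by
  obtain ⟨R0, _, A0, hA0, hmap⟩ := Fin.exists_fg hA
  let S0 : Finset G := insert 1 (Fin.sp A0)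
  have h1 : (1 : G) ∈ S0 ∪ S0⁻¹ := mem_union_left _ (mem_insert_self _ _)
  have hin : Lift.In (S0 ∪ S0⁻¹) A0 := fun i j h hh =>
    Finsupp.notMem_support_iff.1 fun hu => hh (mem_union_left _ (mem_insert_of_mem
      (mem_biUnion.mpr ⟨(i, j), mem_univ _, hu⟩)))
  refine ⟨S0 ∪ S0⁻¹, h1, fun u hu => ?_, fun n hn => ?_⟩
  · rcases mem_union.mp hu with h | h
    · exact mem_union_right _ (inv_mem_inv h)
    · exact mem_union_left _ (by simpa using inv_mem_inv h)
  have := int_jacobson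
  have : IsJacobsonRing R0 := isJacobsonRing_of_finiteType (A := ℤ)
  have hne0 : (n : R0) * tau C A0 ≠ 0 := mul_ne_zero (Nat.cast_ne_zero.2 hn) fun h0 =>
    hne (by rw [← hmap, tau_map, h0, map_zero])
  obtain ⟨m, hm, hxm⟩ := exists_maximal_notMem hne0
  let := Ideal.Quotient.field m
  have hfin := finite_of_finite_type_of_isJacobsonRing ℤ (R0 ⧸ m)
  obtain ⟨p, hp⟩ := CharP.exists (R0 ⧸ m)
  have hprime : p.Prime := by
    refine (CharP.char_is_prime_or_zero (R0 ⧸ m) p).resolve_right ?_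
    rintro rfl
    have : CharZero (R0 ⧸ m) := CharP.charP_to_charZero _
    exact Int.not_isField (isField_of_isIntegral_of_isField (R := ℤ) (S := R0 ⧸ m)
      (algebraMap ℤ (R0 ⧸ m)).injective_int (Field.toIsField _))
  let q := Ideal.Quotient.mk m
  have h2 : (n : R0 ⧸ m) * q (tau C A0) ≠ 0 := fun h0 => hxm
    (Ideal.Quotient.eq_zero_iff_mem.1 (by rw [map_mul, map_natCast]; exact h0))
  have hs : ∀ h, h ∉ S0 ∪ S0⁻¹ → (Matrix.of fun i j => q ((A0 i j).coeff h)) = 0 := fun h hh => by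
    ext i j
    simp [hin i j h hh]
  refine ⟨R0 ⧸ m, inferInstance, p, hp, fun h => Matrix.of fun i j => q ((A0 i j).coeff h), hprime,
    fun hd => left_ne_zero_of_mul h2 ((CharP.cast_eq_zero_iff _ p n).2 hd), hs, fun v => ?_,
    fun h j hh i i' => ⟨0, ?_⟩, fun h0 => right_ne_zero_of_mul h2 ?_⟩
  · ext i j
    beta_reduce
    conv_rhs => rw [Matrix.of_apply, ← hA0, Matrix.mul_apply]
    simp only [Matrix.sum_apply, Matrix.mul_apply, Matrix.of_apply, MonoidAlgebra.coeff_sum,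
      Finsupp.finsetSum_apply, MonoidAlgebra.coeff_mul_apply_left, ← map_mul, ← map_sum]
    rw [Finset.sum_comm]
    exact congrArg q (Finset.sum_congr rfl fun l _ =>
      (Finsupp.sum_of_support_subset _
        (fun u hu => by_contra fun h => Finsupp.mem_support_iff.1 hu (hin i l u h))
        (fun h r => r * (A0 l j).coeff (h⁻¹ * v)) (by simp)).symm)
  · beta_reduce
    rw [hs h fun h3 => hh (by
      exact_mod_cast pow_subset_pow_right h1 (by omega : 1 ≤ 2 * j + 1) (by simpa using h3))]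
    simp
  · rw [← h0, Lift.tau_eq hin, map_sum]
    simp only [Matrix.trace, Matrix.diag, Matrix.of_apply, map_sum]

theorem reduce0 {R : Type} [CommRing R] [IsDomain R] [CharZero R]
    {A : Matrix I I (MonoidAlgebra R G)} (hA : A * A = A) (g : G)
    (hne : tau (fun h => IsConj h g) A ≠ 0) :
    ∃ S : Finset G, (1 : G) ∈ S ∧ (∀ s ∈ S, s⁻¹ ∈ S) ∧ ∀ nn : ℕ, nn ≠ 0 →
      ∃ (k : Type) (_ : Field k) (p : ℕ) (E : G → Matrix I I k),
        p.Prime ∧ (p : k) = 0 ∧ (nn : k) ≠ 0 ∧ (∀ h, h ∉ S → E h = 0) ∧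
        (∀ h, ∑ u ∈ S, E u * E (u⁻¹ * h) = E h) ∧
        ∑ h ∈ S.filter fun h => IsConj h g, Matrix.trace (E h) ≠ 0 := by
  obtain ⟨S, h1, h2, H⟩ := reduce _ hA hne
  refine ⟨S, h1, h2, fun nn hn => ?_⟩
  obtain ⟨k, _, p, _, E, hp, h3, h4, h5, -, h6⟩ := H nn hn
  exact ⟨k, inferInstance, p, E, hp, CharP.cast_eq_zero k p,
    fun h => h3 ((CharP.cast_eq_zero_iff k p nn).1 h), h4, h5, h6⟩

/-- The conjecture over a domain from its case of infinite order. -/
theorem wrap {R : Type} [CommRing R] [IsDomain R] {A : Matrix I I (MonoidAlgebra R G)}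
    (hA : IsIdempotentElem A) {g : G} (hg : ¬ IsUnit ((orderOf g : ℕ) : R))
    (core : orderOf g = 0 → tau (fun h => IsConj h g) A = 0) :
    ∑ i : I, ∑ᶠ (h : G) (_ : IsConj h g), (A i i).coeff h = 0 := by
  suffices h : tau (fun h => IsConj h g) A = 0 by
    rw [tau_apply] at h
    simpa only [tau0_eq_finsum] using h
  by_cases h0 : orderOf g = 0
  · exact core h0
  · exact Fin.finite_order hA.eq h0 hg

end Pool.Agent.Lib.MP_7903c7_al.C0
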