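import Pool.Agent.Lib.MP_7903c7_al.C0.Ex

set_option autoImplicit false

/-!
Witness sequences for the resampling process.
-/

namespace Pool.Agent.Lib.MP_7903c7_al.C0.MT

open Finset
open scoped Classical

namespace Wit

variable {V A α : Type} (vars : A → Finset V) (bad : A → (V → α) → Prop) (nb : A → Finset A)

/-- Pairwise disjoint variable sets. -/
def Ind (I : Finset A) : Prop := ∀ b ∈ I, ∀ b' ∈ I, b ≠ b' → Disjoint (vars b) (vars b')

/-- Number of levels using the variable `v`. -/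
noncomputable def cl : List (Finset A) → V → ℕ
  | [], _ => 0
  | I :: l, v => cl l v + if ∃ b ∈ I, v ∈ vars b then 1 else 0

/-- All events of all levels hold on the table entries prescribed by the deeper levels. -/
def Test (τ : V × ℕ → α) : List (Finset A) → Prop
  | [] => True
  | I :: l => (∀ b ∈ I, bad b (fun v => τ (v, cl vars l v))) ∧ Test τ l

/-- The sequences of `n` levels below `I`. -/
noncomputable def fam : ℕ → Finset A → Finset (List (Finset A))
  | 0, _ => {[]}
  | n + 1, I => ((I.biUnion nb).powerset.filter (Ind vars)).biUnion fun J =>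
      (fam n J).image fun l => J :: l

/-- Total number of events. -/
def sz : List (Finset A) → ℕ
  | [] => 0
  | I :: l => I.card + sz l

theorem fam_ind : ∀ (n : ℕ) (I : Finset A), ∀ l ∈ fam vars nb n I, ∀ J ∈ l, Ind vars J
  | 0, I, l, hl, J, hJ => by
    simp only [fam, mem_singleton] at hl
    subst hl
    simp at hJ
  | n + 1, I, l, hl, J, hJ => by
    simp only [fam, mem_biUnion, mem_filter, mem_image] at hl
    obtain ⟨K, ⟨-, hK⟩, l', hl', rfl⟩ := hl
    rcases List.mem_cons.1 hJ with rfl | h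
    · exact hK
    · exact fam_ind n K l' hl' J h

theorem sum_biUnion_le {κ ι : Type} [DecidableEq ι] (s : Finset κ) (t : κ → Finset ι) (f : ι → ℝ)
    (hf : ∀ i, 0 ≤ f i) : ∑ i ∈ s.biUnion t, f i ≤ ∑ k ∈ s, ∑ i ∈ t k, f i := by
  induction s using Finset.induction_on with
  | empty => simp
  | insert a s ha ih =>
    rw [biUnion_insert, sum_insert ha]
    have := sum_union_inter (s₁ := t a) (s₂ := s.biUnion t) (f := f)
    have h2 : 0 ≤ ∑ i ∈ t a ∩ s.biUnion t, f i := sum_nonneg fun i _ => hf i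
    linarith

theorem sum_fam {D : ℕ} (hD : ∀ a, (nb a).card ≤ D) {p : ℝ} (hp : 0 ≤ p)
    (h2 : (1 + 2 * p) ^ D ≤ 2) :
    ∀ (n : ℕ) (I : Finset A), ∑ l ∈ fam vars nb n I, p ^ sz l ≤ 2 ^ I.card
  | 0, I => by
    simp only [fam, sum_singleton, sz, pow_zero]
    exact one_le_pow₀ one_le_two
  | n + 1, I => by
    simp only [fam]
    refine (sum_biUnion_le _ _ _ fun l => pow_nonneg hp _).trans ?_
    have h3 : ∀ J : Finset A, ∑ l ∈ (fam vars nb n J).image (fun l => J :: l), p ^ sz l ≤
        ∏ _b ∈ J, 2 * p := by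
      intro J
      rw [sum_image fun a _ b _ h => (List.cons.inj h).2]
      simp only [sz, pow_add]
      rw [← mul_sum, prod_const, mul_pow, mul_comm]
      exact mul_le_mul_of_nonneg_right (sum_fam hD hp h2 n J) (pow_nonneg hp _)
    refine (sum_le_sum fun J _ => h3 J).trans ?_
    refine (sum_le_sum_of_subset_of_nonneg (filter_subset _ _)
      fun J _ _ => prod_nonneg fun _ _ => by positivity).trans ?_
    rw [← prod_one_add, prod_const]
    have h4 : (I.biUnion nb).card ≤ D * I.card := by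
      refine card_biUnion_le.trans ?_
      rw [mul_comm, ← smul_eq_mul, ← sum_const]
      exact sum_le_sum fun a _ => hD a
    calc (1 + 2 * p) ^ (I.biUnion nb).card ≤ (1 + 2 * p) ^ (D * I.card) :=
          pow_le_pow_right₀ (by linarith) h4
      _ = ((1 + 2 * p) ^ D) ^ I.card := pow_mul _ _ _
      _ ≤ 2 ^ I.card := pow_le_pow_left₀ (by positivity) h2 _

/-- Real indicator of a proposition. -/
noncomputable def ind (P : Prop) : ℝ := if P then 1 else 0

theorem ind_nonneg (P : Prop) : 0 ≤ ind P := by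
  unfold ind
  split_ifs <;> norm_num

theorem ind_le_one (P : Prop) : ind P ≤ 1 := by
  unfold ind
  split_ifs <;> norm_num

theorem ind_and (P Q : Prop) : ind (P ∧ Q) = ind P * ind Q := by
  unfold ind
  by_cases hP : P <;> by_cases hQ : Q <;> simp [hP, hQ]

theorem ind_pos {P : Prop} (h : P) : ind P = 1 := if_pos h

theorem ind_neg {P : Prop} (h : ¬P) : ind P = 0 := if_neg h

theorem ind_congr {P Q : Prop} (h : P ↔ Q) : ind P = ind Q := by rw [propext h]

variable {vars bad}

theorem dep_bad (hloc : ∀ a φ ψ, (∀ v ∈ vars a, φ v = ψ v) → bad a φ → bad a ψ) (a : A) :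
    Dp (vars a) (fun φ => ind (bad a φ)) := fun φ ψ h =>
  ind_congr ⟨hloc a φ ψ h, hloc a ψ φ fun v hv => (h v hv).symm⟩

variable [Fintype α] [Nonempty α]

theorem level (hloc : ∀ a φ ψ, (∀ v ∈ vars a, φ v = ψ v) → bad a φ → bad a ψ) {p : ℝ}
    (hp0 : 0 ≤ p) (hp : ∀ a, Ex (fun φ => ind (bad a φ)) ≤ p) (m : V → ℕ) (I : Finset A)
    (hI : Ind vars I) :
    Dp (I.biUnion fun b => (vars b).image fun v => (v, m v))
      (fun τ : V × ℕ → α => ind (∀ b ∈ I, bad b fun v => τ (v, m v))) ∧
    Ex (fun τ : V × ℕ → α => ind (∀ b ∈ I, bad b fun v => τ (v, m v))) ≤ p ^ I.card := by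
  induction I using Finset.induction_on with
  | empty =>
    refine ⟨fun _ _ _ => by simp, ?_⟩
    simp only [notMem_empty, false_imp_iff, implies_true, ind_pos trivial, card_empty, pow_zero]
    exact (Ex_const 1).le
  | insert a I ha ih =>
    obtain ⟨h1, h2⟩ := ih fun b hb b' hb' => hI b (mem_insert_of_mem hb) b' (mem_insert_of_mem hb')
    have h3 : Dp ((vars a).image fun v => (v, m v))
        (fun τ : V × ℕ → α => ind (bad a fun v => τ (v, m v))) := fun τ τ' h =>
      dep_bad hloc a _ _ fun v hv => h _ (mem_image_of_mem _ hv)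
    have h4 : Ex (fun τ : V × ℕ → α => ind (bad a fun v => τ (v, m v))) ≤ p := by
      rw [Ex_inj (dep_bad hloc a).loc (fun v => (v, m v)) fun x y h => (Prod.mk.inj h).1]
      exact hp a
    simp only [forall_mem_insert, ind_and, biUnion_insert]
    refine ⟨fun τ τ' h => ?_, ?_⟩
    · have e1 := h3 τ τ' fun i hi => h i (mem_union_left _ hi)
      have e2 := h1 τ τ' fun i hi => h i (mem_union_right _ hi)
      simp only at e1 e2 ⊢
      rw [e1, e2]
    · rw [Ex_mul h3 h1, card_insert_of_notMem ha, pow_succ']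
      · exact mul_le_mul h4 h2 (Ex_nonneg h1.loc fun _ => ind_nonneg _) hp0
      · rw [Finset.disjoint_left]
        intro x hx hx'
        obtain ⟨v, hv, rfl⟩ := mem_image.1 hx
        obtain ⟨b, hb, hx'⟩ := mem_biUnion.1 hx'
        obtain ⟨w, hw, e⟩ := mem_image.1 hx'
        have hne : a ≠ b := fun e => ha (e ▸ hb)
        exact Finset.disjoint_left.1
          (hI a (mem_insert_self _ _) b (mem_insert_of_mem hb) hne) hv ((Prod.mk.inj e).1 ▸ hw)

theorem ex_test (hloc : ∀ a φ ψ, (∀ v ∈ vars a, φ v = ψ v) → bad a φ → bad a ψ) {p : ℝ}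
    (hp0 : 0 ≤ p) (hp : ∀ a, Ex (fun φ => ind (bad a φ)) ≤ p) :
    ∀ l : List (Finset A), (∀ J ∈ l, Ind vars J) →
      ∃ U : Finset (V × ℕ), (∀ x ∈ U, x.2 < cl vars l x.1) ∧
        Dp U (fun τ => ind (Test vars bad τ l)) ∧
        Ex (fun τ => ind (Test vars bad τ l)) ≤ p ^ sz l
  | [], _ => ⟨∅, by simp, fun _ _ _ => rfl, by
      simp only [Test, ind_pos trivial, sz, pow_zero]
      exact (Ex_const 1).le⟩
  | I :: l, h => by
    obtain ⟨U, hU, h1, h2⟩ := ex_test hloc hp0 hp l fun J hJ => h J (List.mem_cons_of_mem _ hJ)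
    obtain ⟨h3, h4⟩ := level hloc hp0 hp (cl vars l) I (h I List.mem_cons_self)
    refine ⟨(I.biUnion fun b => (vars b).image fun v => (v, cl vars l v)) ∪ U, ?_, ?_, ?_⟩
    · intro x hx
      rcases mem_union.1 hx with hx | hx
      · obtain ⟨b, hb, hx⟩ := mem_biUnion.1 hx
        obtain ⟨v, hv, rfl⟩ := mem_image.1 hx
        simp only [cl]
        rw [if_pos ⟨b, hb, hv⟩]
        omega
      · have := hU x hx
        simp only [cl]
        omega
    · intro τ τ' hτ
      have e1 := h3 τ τ' fun i hi => hτ i (mem_union_left _ hi)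
      have e2 := h1 τ τ' fun i hi => hτ i (mem_union_right _ hi)
      simp only [Test, ind_and] at e1 e2 ⊢
      rw [e1, e2]
    · simp only [Test, ind_and, sz, pow_add]
      rw [Ex_mul h3 h1]
      · exact mul_le_mul h4 h2 (Ex_nonneg h1.loc fun _ => ind_nonneg _) (pow_nonneg hp0 _)
      · rw [Finset.disjoint_left]
        intro x hx hx'
        obtain ⟨b, hb, hx⟩ := mem_biUnion.1 hx
        obtain ⟨v, hv, rfl⟩ := mem_image.1 hx
        exact lt_irrefl _ (hU _ hx')

omit [Fintype α] [Nonempty α]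

/-- The times at which an occurrence in `W` uses the variable `v`. -/
noncomputable def tm (vars : A → Finset V) (N : ℕ) (W : Set (A × ℕ)) (v : V) : Finset ℕ :=
  (range N).filter fun r => ∃ b, (b, r) ∈ W ∧ v ∈ vars b

variable {nb}

theorem exists_list (hloc : ∀ a φ ψ, (∀ v ∈ vars a, φ v = ψ v) → bad a φ → bad a ψ)
    (hnb : ∀ a b, ¬Disjoint (vars a) (vars b) → b ∈ nb a) (τ : V × ℕ → α) (R : ℕ → Set A)
    (cnt : ℕ → V → ℕ)
    (hcnt : ∀ t v, cnt t v = ((range t).filter fun r => ∃ b ∈ R r, v ∈ vars b).card)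
    (hR : ∀ r, ∀ b ∈ R r, ∀ b' ∈ R r, ¬Disjoint (vars b) (vars b') → b = b')
    (hbad : ∀ r, ∀ b ∈ R r, bad b fun v => τ (v, cnt r v)) (N : ℕ) :
    ∀ n ≤ N, ∀ W : Set (A × ℕ), (∀ x ∈ W, x.1 ∈ R x.2 ∧ x.2 < n) →
      (∀ x ∈ W, ∀ y : A × ℕ, y.1 ∈ R y.2 → y.2 < x.2 → ¬Disjoint (vars y.1) (vars x.1) → y ∈ W) →
      ∀ I : Finset A,
      (∀ x ∈ W, (∀ y ∈ W, x.2 < y.2 → Disjoint (vars x.1) (vars y.1)) → x.1 ∈ I.biUnion nb) →
      ∃ l ∈ fam vars nb n I, Test vars bad τ l ∧ ∀ v, cl vars l v = (tm vars N W v).card := by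
  intro n
  induction n with
  | zero =>
    intro _ W hW _ I _
    refine ⟨[], by simp [fam], trivial, fun v => ?_⟩
    symm
    simp only [cl, card_eq_zero, tm, filter_eq_empty_iff]
    rintro r - ⟨b, hb, -⟩
    exact Nat.not_lt_zero _ (hW _ hb).2
  | succ n ih =>
    intro hn W hW hd I hI
    let Mx : A × ℕ → Prop := fun x => ∀ y ∈ W, x.2 < y.2 → Disjoint (vars x.1) (vars y.1)
    let J : Finset A := (I.biUnion nb).filter fun b => ∃ r, (b, r) ∈ W ∧ Mx (b, r)
    let W' : Set (A × ℕ) := {x | x ∈ W ∧ ¬Mx x}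
    have huniq : ∀ x ∈ W, ∀ y ∈ W, Mx x → Mx y → ¬Disjoint (vars x.1) (vars y.1) → x = y := by
      intro x hx y hy mx my h
      rcases lt_trichotomy x.2 y.2 with h1 | h1 | h1
      · exact absurd (mx y hy h1) h
      · exact Prod.ext (hR _ _ (hW x hx).1 _ (h1 ▸ (hW y hy).1) h) h1
      · exact absurd (my x hx h1).symm h
    have hJ : Ind vars J := by
      intro b hb b' hb' hne
      obtain ⟨r, h1, h2⟩ := (mem_filter.1 hb).2
      obtain ⟨r', h1', h2'⟩ := (mem_filter.1 hb').2
      by_contra h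
      exact hne (congrArg Prod.fst (huniq _ h1 _ h1' h2 h2' h))
    have hmem : ∀ x ∈ W, Mx x → x.1 ∈ J := fun x hx mx =>
      mem_filter.2 ⟨hI x hx mx, x.2, hx, mx⟩
    obtain ⟨l, hl, ht, hc⟩ := ih (by omega) W'
      (by
        rintro x ⟨hx, mx⟩
        refine ⟨(hW x hx).1, ?_⟩
        simp only [Mx, not_forall] at mx
        obtain ⟨y, hy, h1, -⟩ := mx
        have := (hW y hy).2
        omega)
      (by
        rintro x ⟨hx, -⟩ y hy h1 h2
        exact ⟨hd x hx y hy h1 h2, fun my => h2 (my x hx h1)⟩) J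
      (by
        rintro x ⟨hx, mx⟩ h
        simp only [Mx, not_forall] at mx
        obtain ⟨y, hy, h1, h2⟩ := mx
        have my : Mx y := by
          by_contra my
          exact h2 (h y ⟨hy, my⟩ h1)
        exact mem_biUnion.2 ⟨y.1, hmem y hy my, hnb _ _ fun h => h2 h.symm⟩)
    refine ⟨J :: l, ?_, ⟨?_, ht⟩, ?_⟩
    · simp only [fam, mem_biUnion, mem_filter, mem_image, mem_powerset]
      exact ⟨J, ⟨filter_subset _ _, hJ⟩, l, hl, rfl⟩
    · intro b hb
      obtain ⟨r, h1, h2⟩ := (mem_filter.1 hb).2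
      refine hloc b _ _ (fun v hv => ?_) (hbad r b (hW _ h1).1)
      rw [hc, hcnt]
      congr 3
      ext r'
      simp only [tm, mem_filter, mem_range]
      constructor
      · rintro ⟨h3, b', h4, h5⟩
        have h6 : ¬Disjoint (vars b') (vars b) := Finset.not_disjoint_iff.2 ⟨v, h5, hv⟩
        have := (hW _ h1).2
        exact ⟨by simp only at this; omega, b',
          ⟨hd _ h1 (b', r') h4 h3 h6, fun m => h6 (m _ h1 h3)⟩, h5⟩
      · rintro ⟨-, b', ⟨h4, h7⟩, h5⟩
        have h6 : ¬Disjoint (vars b) (vars b') := Finset.not_disjoint_iff.2 ⟨v, hv, h5⟩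
        refine ⟨?_, b', (hW _ h4).1, h5⟩
        rcases lt_trichotomy r r' with h8 | h8 | h8
        · exact absurd (h2 _ h4 h8) h6
        · subst h8
          have := hR _ _ (hW _ h1).1 _ (hW _ h4).1 h6
          simp only at this
          subst this
          exact absurd h2 h7
        · exact h8
    · intro v
      simp only [cl, hc]
      split_ifs with h
      · obtain ⟨b, hb, hv⟩ := h
        obtain ⟨r, h1, h2⟩ := (mem_filter.1 hb).2
        have h3 : r ∉ tm vars N W' v := by
          simp only [tm, mem_filter, mem_range, not_and, not_exists]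
          rintro - b' ⟨h4, h7⟩ h5
          have := hR _ _ (hW _ h1).1 _ (hW _ h4).1 (Finset.not_disjoint_iff.2 ⟨v, hv, h5⟩)
          simp only at this
          subst this
          exact h7 h2
        rw [← card_insert_of_notMem h3]
        congr 1
        ext r'
        simp only [tm, mem_insert, mem_filter, mem_range]
        constructor
        · rintro (rfl | ⟨h4, b', h5, h6⟩)
          · have := (hW _ h1).2
            exact ⟨by simp only at this; omega, b, h1, hv⟩
          · exact ⟨h4, b', h5.1, h6⟩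
        · rintro ⟨h4, b', h5, h6⟩
          by_cases m : Mx (b', r')
          · exact Or.inl (congrArg Prod.snd
              (huniq _ h5 _ h1 m h2 (Finset.not_disjoint_iff.2 ⟨v, h6, hv⟩)))
          · exact Or.inr ⟨h4, b', ⟨h5, m⟩, h6⟩
      · rw [add_zero]
        congr 1
        ext r'
        simp only [tm, mem_filter, mem_range]
        constructor
        · rintro ⟨h4, b', h5, h6⟩
          exact ⟨h4, b', h5.1, h6⟩
        · rintro ⟨h4, b', h5, h6⟩
          exact ⟨h4, b', ⟨h5, fun m => h ⟨b', hmem _ h5 m, h6⟩⟩, h6⟩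

/-- The number of resamplings of `a` is at most the number of witness sequences that pass. -/
theorem count_le (hloc : ∀ a φ ψ, (∀ v ∈ vars a, φ v = ψ v) → bad a φ → bad a ψ)
    (hnb : ∀ a b, ¬Disjoint (vars a) (vars b) → b ∈ nb a) (τ : V × ℕ → α) (R : ℕ → Set A)
    (cnt : ℕ → V → ℕ)
    (hcnt : ∀ t v, cnt t v = ((range t).filter fun r => ∃ b ∈ R r, v ∈ vars b).card)
    (hR : ∀ r, ∀ b ∈ R r, ∀ b' ∈ R r, ¬Disjoint (vars b) (vars b') → b = b')
    (hbad : ∀ r, ∀ b ∈ R r, bad b fun v => τ (v, cnt r v)) (N : ℕ) (a : A)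
    (hne : ∀ φ, bad a φ → (vars a).Nonempty) :
    ((range N).filter fun s => a ∈ R s).card ≤
      ((fam vars nb N {a}).filter fun l => Test vars bad τ ({a} :: l)).card := by
  have key : ∀ s, s < N → a ∈ R s → ∃ l ∈ fam vars nb N {a}, Test vars bad τ ({a} :: l) ∧
      ∀ v ∈ vars a, cl vars l v = cnt s v := by
    intro s hs ha
    let rel : A × ℕ → A × ℕ → Prop := fun x y =>
      x.1 ∈ R x.2 ∧ x.2 < y.2 ∧ ¬Disjoint (vars x.1) (vars y.1)
    let W : Set (A × ℕ) := {x | Relation.TransGen rel x (a, s)}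
    have hW : ∀ x ∈ W, x.1 ∈ R x.2 ∧ x.2 < s := by
      intro x hx
      induction hx using Relation.TransGen.head_induction_on with
      | single h => exact ⟨h.1, h.2.1⟩
      | head h _ ih => exact ⟨h.1, h.2.1.trans ih.2⟩
    obtain ⟨l, hl, ht, hc⟩ := exists_list hloc hnb τ R cnt hcnt hR hbad N N le_rfl W
      (fun x hx => ⟨(hW x hx).1, (hW x hx).2.trans hs⟩)
      (fun x hx y hy h1 h2 => Relation.TransGen.head ⟨hy, h1, h2⟩ hx) {a}
      (by
        intro x hx h
        rcases Relation.TransGen.head'_iff.1 hx with ⟨y, h1, h2⟩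
        rcases h2.cases_head with rfl | ⟨z, h3, h4⟩
        · exact mem_biUnion.2 ⟨a, mem_singleton_self _, hnb _ _ fun h => h1.2.2 h.symm⟩
        · exact absurd (h y (Relation.TransGen.head' h3 h4) h1.2.1) h1.2.2)
    have hc' : ∀ v ∈ vars a, cl vars l v = cnt s v := by
      intro v hv
      rw [hc, hcnt]
      congr 1
      ext r
      simp only [tm, mem_filter, mem_range]
      constructor
      · rintro ⟨-, b, h1, h2⟩
        exact ⟨(hW _ h1).2, b, (hW _ h1).1, h2⟩
      · rintro ⟨h1, b, h2, h3⟩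
        exact ⟨h1.trans hs, b, Relation.TransGen.single
          ⟨h2, h1, Finset.not_disjoint_iff.2 ⟨v, h3, hv⟩⟩, h3⟩
    refine ⟨l, hl, ⟨fun b hb => ?_, ht⟩, hc'⟩
    rw [mem_singleton.1 hb]
    exact hloc a _ _ (fun v hv => by rw [hc' v hv]) (hbad s a ha)
  choose! w hw1 hw2 hw3 using key
  have hlt : ∀ s s', s < s' → a ∈ R s → ∀ v ∈ vars a, cnt s v < cnt s' v := by
    intro s s' h ha v hv
    rw [hcnt, hcnt]
    refine card_lt_card ⟨fun r hr => ?_, fun h' => ?_⟩
    · simp only [mem_filter, mem_range] at hr ⊢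
      exact ⟨hr.1.trans h, hr.2⟩
    · have := h' (mem_filter.2 ⟨mem_range.2 h, a, ha, hv⟩)
      simp at this
  refine card_le_card_of_injOn w (fun s hs => ?_) fun s hs s' hs' e => ?_
  · obtain ⟨h1, h2⟩ := mem_filter.1 hs
    exact mem_filter.2 ⟨hw1 s (mem_range.1 h1) h2, hw2 s (mem_range.1 h1) h2⟩
  · obtain ⟨h1, h2⟩ := mem_filter.1 hs
    obtain ⟨h1', h2'⟩ := mem_filter.1 hs'
    obtain ⟨v, hv⟩ := hne _ (hbad s a h2)
    have e1 := hw3 s (mem_range.1 h1) h2 v hv
    have e2 := hw3 s' (mem_range.1 h1') h2' v hv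
    rw [e, e2] at e1
    rcases lt_trichotomy s s' with h | h | h
    · exact absurd e1 (hlt s s' h h2 v hv).ne'
    · exact h
    · exact absurd e1 (hlt s' s h h2' v hv).ne

end Wit

end Pool.Agent.Lib.MP_7903c7_al.C0.MT
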